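import Mathlib
import Pool.Agent.Y114.MU.Defs
import Pool.Agent.N978.JT.Irr

/-!
# Polarized `ℓ`-adic representations and their local monodromy
-/

set_option autoImplicit false

namespace Run7.h293.LM

open NumberField IsDedekindDomain Polynomial Module Pool.Agent.Y114.GF Pool.Agent.Y114.MU

/-- The `ℓ`-adic realization `Y` of a polarized pure motive of weight `w` over a finitely
generated field with absolute Galois group (or fundamental group of a model) `Γ`, and its restriction
along `θ` to the Galois group of a number field `F` (a closed point of the model; for a motive over `F`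
itself `θ` is the identity): the polarization `ω` is a nondegenerate symmetric or alternating form,
`Γ` acts by similitudes, and on the Galois group of `F` the similitude character is the power of the
cyclotomic character with the exponent `- w`. -/
structure PolarizedRep (F : Type) [Field F] (Γ : Type) [Group Γ] (ℓ : ℕ) [Fact ℓ.Prime]
    (w : ℕ) (Y : Type) [AddCommGroup Y] [Module ℚ_[ℓ] Y] where
  /-- the specialization -/
  θ : Gal(AlgebraicClosure F/F) →* Γ
  /-- the representation -/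
  ρ : Representation ℚ_[ℓ] Γ Y
  /-- the polarization -/
  ω : Y →ₗ[ℚ_[ℓ]] Y →ₗ[ℚ_[ℓ]] ℚ_[ℓ]
  /-- the similitude character -/
  χ : Γ →* ℚ_[ℓ]
  continuous : ∀ (ξ : Dual ℚ_[ℓ] Y) (x : Y), Continuous fun g => ξ (ρ (θ g) x)
  nondeg : ∀ u, (∀ v, ω v u = 0) → u = 0
  symm : (∀ u v, ω u v = ω v u) ∨ ∀ u v, ω u v = -ω v u
  sim : ∀ g u v, ω (ρ g u) (ρ g v) = χ g * ω u v
  cyclo : ∀ g, χ (θ g) * ((cyclotomicCharacter (AlgebraicClosure F) ℓ g : ℤ_[ℓ]) : ℚ_[ℓ]) ^ w = 1

/-- The `m`-th level of an endomorphism: the kernel, intersected with the image of the `m`-th power. -/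
def lev {k V : Type*} [Field k] [AddCommGroup V] [Module k V] (T : End k V) (m : ℕ) :
    Submodule k V :=
  LinearMap.ker T ⊓ LinearMap.range (T ^ m)

section

variable {F : Type} [Field F] [NumberField F] {Γ : Type} [Group Γ] {ℓ : ℕ} [Fact ℓ.Prime] {w : ℕ}
  {Y : Type} [AddCommGroup Y] [Module ℚ_[ℓ] Y] [FiniteDimensional ℚ_[ℓ] Y]
  (V : PolarizedRep F Γ ℓ w Y)

/-- The action of an element of the Galois group of `F`. -/
noncomputable def PolarizedRep.act (g : Gal(AlgebraicClosure F/F)) : End ℚ_[ℓ] Y := V.ρ (V.θ g)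

/-- Good reduction at `v`: the representation is unramified at `v`, and the characteristic polynomial
of the geometric Frobenius elements is rational and pure of weight `w`. -/
def PolarizedRep.Good (v : HeightOneSpectrum (𝓞 F)) : Prop :=
  ∃ P : ℚ[X], (∀ a ∈ P.aroots ℂ, ‖a‖ ^ 2 = (q v : ℝ) ^ w) ∧ ∀ Q, PrimeOver Q v → ∀ g,
    (InInertiaAt Q g → V.act g = 1) ∧
    (IsFrobAt Q (q v) g → (V.act g⁻¹).charpoly = P.map (algebraMap ℚ ℚ_[ℓ]))

/-- The local monodromy at the prime `Q` of the ring of algebraic integers above the place `v` (which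
is not above `ℓ`), as in Grothendieck's theorem: `τ` is an element of the inertia group at `Q` which
acts unipotently, the `e`-th powers of all elements of the inertia group act unipotently, the elements
of the inertia group commute with the action of `τ`, and `φ τ φ⁻¹` acts as `τ ^ q` for the (arithmetic)
Frobenius elements `φ`. -/
structure PolarizedRep.Monodromy (e : ℕ) (v : HeightOneSpectrum (𝓞 F))
    (Q : Ideal (𝓞 (AlgebraicClosure F))) (τ : Gal(AlgebraicClosure F/F)) : Prop where
  primeOver : PrimeOver Q v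
  inertia : InInertiaAt Q τ
  unipotent : IsNilpotent (V.act τ - 1)
  quasi : ∀ g, InInertiaAt Q g → IsNilpotent (V.act g ^ e - 1)
  comm : ∀ g, InInertiaAt Q g → V.act g * V.act τ = V.act τ * V.act g
  frob : ∀ φ, IsFrobAt Q (q v) φ → V.act φ * V.act τ = V.act τ ^ q v * V.act φ

/-- `A` is stable under the inertia group at `Q` and under the Frobenius elements at `Q`. -/
def PolarizedRep.StableAt (v : HeightOneSpectrum (𝓞 F)) (Q : Ideal (𝓞 (AlgebraicClosure F)))
    (A : Submodule ℚ_[ℓ] Y) : Prop :=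
  ∀ g, (InInertiaAt Q g ∨ IsFrobAt Q (q v) g ∨ IsFrobAt Q (q v) g⁻¹) → ∀ x ∈ A, V.act g x ∈ A

/-- The graded pieces `lev T m / lev T (m + 1)`, `T = τ - 1`, with the forms
`(x, T ^ m y) ↦ ω x y`, have no nonzero isotropic subspaces which are stable under the decomposition
group and under the endomorphisms in `E`. -/
def PolarizedRep.Anisotropic (E : Set (End ℚ_[ℓ] Y)) (v : HeightOneSpectrum (𝓞 F))
    (Q : Ideal (𝓞 (AlgebraicClosure F))) (τ : Gal(AlgebraicClosure F/F)) : Prop :=
  ∀ (m : ℕ) (A : Submodule ℚ_[ℓ] Y),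
    lev (V.act τ - 1) (m + 1) ≤ A → A ≤ lev (V.act τ - 1) m →
    V.StableAt v Q A → (∀ f ∈ E, ∀ x ∈ A, f x ∈ A) →
    (∀ x ∈ A, ∀ y, ((V.act τ - 1) ^ m) y ∈ A → V.ω x y = 0) → A = lev (V.act τ - 1) (m + 1)

/-- Weight and monodromy: for all `m` the eigenvalues of the geometric Frobenius elements on the
graded piece `lev T m / lev T (m + 1)`, `T = τ - 1`, are among the roots of a nonzero rational
polynomial whose roots have the absolute value `q ^ ((w - m) / 2)`. -/
def PolarizedRep.WeightMonodromy (v : HeightOneSpectrum (𝓞 F))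
    (Q : Ideal (𝓞 (AlgebraicClosure F))) (τ : Gal(AlgebraicClosure F/F)) : Prop :=
  ∀ m φ, IsFrobAt Q (q v) φ → ∃ P : ℚ[X], P ≠ 0 ∧
    (∀ a ∈ P.aroots ℂ, ‖a‖ ^ 2 * (q v : ℝ) ^ m = (q v : ℝ) ^ w) ∧
    ∀ x ∈ lev (V.act τ - 1) m,
      aeval (V.act φ⁻¹) (P.map (algebraMap ℚ ℚ_[ℓ])) x ∈ lev (V.act τ - 1) (m + 1)

/-- The endomorphisms in `E` commute with the Galois group, and `E` is stable under the adjoint. -/
structure PolarizedRep.Coefficients (E : Set (End ℚ_[ℓ] Y)) : Prop where
  comm : ∀ f ∈ E, ∀ g, f * V.ρ g = V.ρ g * f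
  adjoint : ∀ f ∈ E, ∃ f' ∈ E, ∀ x y, V.ω (f x) y = V.ω x (f' y)

/-- At three primes (unramified in `F`) there is good reduction. -/
def PolarizedRep.ThreeGood : Prop :=
  ∃ T : Set ℕ, 3 ≤ T.encard ∧ ∀ p ∈ T, (p.Prime ∧ p ≠ ℓ ∧ UnramifiedIn F p) ∧
    ∀ v : HeightOneSpectrum (𝓞 F), Above v p → V.Good v

/-- Controlled monodromy at the place `v` above the prime `p ≠ ℓ` (unramified in `F`), for the prime
`Q` above `v` and the element `τ` of the inertia group: the weight-monodromy property, or anisotropic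
graded pieces; and at each of the other places above `p` there is good reduction, or one of these
properties. -/
def PolarizedRep.Controlled (E : Set (End ℚ_[ℓ] Y)) (p : ℕ)
    (v : HeightOneSpectrum (𝓞 F)) (Q : Ideal (𝓞 (AlgebraicClosure F)))
    (τ : Gal(AlgebraicClosure F/F)) : Prop :=
  (p.Prime ∧ p ≠ ℓ ∧ UnramifiedIn F p) ∧ Above v p ∧ ∃ e, 0 < e ∧
    (V.Monodromy e v Q τ ∧ (V.WeightMonodromy v Q τ ∨ V.Anisotropic E v Q τ)) ∧
    ∀ v', Above v' p → V.Good v' ∨
      ∃ Q' τ', V.Monodromy e v' Q' τ' ∧ (V.WeightMonodromy v' Q' τ' ∨ V.Anisotropic E v' Q' τ')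

/-- `U` is stable under the subgroup `H`. -/
def PolarizedRep.StableUnder (H : Subgroup Γ) (U : Submodule ℚ_[ℓ] Y) : Prop :=
  ∀ g ∈ H, ∀ x ∈ U, V.ρ g x ∈ U

/-- The representation of the subgroup `H` is semisimple. -/
def PolarizedRep.SemisimpleUnder (H : Subgroup Γ) : Prop :=
  ∀ U, V.StableUnder H U → ∃ U', V.StableUnder H U' ∧ IsCompl U U'

/-- The form is nondegenerate on `U`. -/
def PolarizedRep.NondegenerateOn (U : Submodule ℚ_[ℓ] Y) : Prop :=
  ∀ x ∈ U, (∀ y ∈ U, V.ω x y = 0) → x = 0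

/-- The endomorphisms which commute with the subgroup `H`. -/
noncomputable def PolarizedRep.commutant (H : Subgroup Γ) : Subalgebra ℚ_[ℓ] (End ℚ_[ℓ] Y) :=
  Subalgebra.centralizer ℚ_[ℓ] {X | ∃ g ∈ H, X = V.ρ g}

end

/-- `d` is the sum of the numbers in a list `l'` such that the list `l` contains `l'` twice. -/
def IsHalfSum (l : Multiset ℕ) (d : ℕ) : Prop := ∃ l' : Multiset ℕ, l' + l' ≤ l ∧ l'.sum = d

end Run7.h293.LM
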