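import Mathlib

/-!
# Levels of a nilpotent endomorphism, pure submodules, the numerical inequality
-/

set_option autoImplicit false
set_option linter.unusedSectionVars false
set_option linter.unusedVariables false

namespace Run7.h293.LM

open Module

variable {k V : Type*} [Field k] [AddCommGroup V] [Module k V]

/-- The `m`-th level: the kernel of `N`, intersected with the range of `N ^ m`. -/
def Level (N : End k V) (m : ℕ) : Submodule k V :=
  LinearMap.ker N ⊓ LinearMap.range (N ^ m)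

theorem mem_level {N : End k V} {m : ℕ} {x : V} :
    x ∈ Level N m ↔ N x = 0 ∧ ∃ y, (N ^ m) y = x := by
  unfold Level
  rw [Submodule.mem_inf, LinearMap.mem_ker, LinearMap.mem_range]

theorem level_zero (N : End k V) : Level N 0 = LinearMap.ker N := by
  unfold Level
  rw [pow_zero]
  have : LinearMap.range (1 : End k V) = ⊤ := LinearMap.range_eq_top.2 fun x => ⟨x, rfl⟩
  rw [this, inf_top_eq]

theorem pow_apply_add (N : End k V) (a b : ℕ) (x : V) : (N ^ a) ((N ^ b) x) = (N ^ (a + b)) x := by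
  rw [pow_add, Module.End.mul_apply]

theorem range_pow_anti (N : End k V) {a b : ℕ} (h : a ≤ b) :
    LinearMap.range (N ^ b) ≤ LinearMap.range (N ^ a) := by
  rintro x ⟨y, rfl⟩
  obtain ⟨c, rfl⟩ := Nat.exists_eq_add_of_le h
  exact ⟨(N ^ c) y, pow_apply_add N a c y⟩

theorem level_anti (N : End k V) {a b : ℕ} (h : a ≤ b) : Level N b ≤ Level N a :=
  inf_le_inf_left _ (range_pow_anti N h)

theorem level_eq_bot {N : End k V} {d m : ℕ} (hN : N ^ d = 0) (h : d ≤ m) : Level N m = ⊥ := by
  rw [eq_bot_iff]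
  intro x hx
  obtain ⟨-, y, rfl⟩ := mem_level.1 hx
  obtain ⟨c, rfl⟩ := Nat.exists_eq_add_of_le h
  rw [add_comm, pow_add, hN, mul_zero, LinearMap.zero_apply]
  exact Submodule.zero_mem _

/-- A stable subspace with the same heights on the kernel is pure. -/
theorem pure_of_socle {N : End k V} {d : ℕ} (hN : N ^ d = 0) {U : Submodule k V}
    (hU : ∀ x ∈ U, N x ∈ U) (h : ∀ m, U ⊓ Level N m ≤ U.map (N ^ m)) (m : ℕ) :
    U ⊓ LinearMap.range (N ^ m) ≤ U.map (N ^ m) := by
  have hUp : ∀ j, ∀ x ∈ U, (N ^ j) x ∈ U := by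
    intro j
    induction j with
    | zero => intro x hx; exact hx
    | succ j ih =>
      intro x hx
      rw [pow_succ', Module.End.mul_apply]
      exact hU _ (ih x hx)
  have key : ∀ r, ∀ x ∈ U, (N ^ r) x = 0 → ∀ y, (N ^ m) y = x → x ∈ U.map (N ^ m) := by
    intro r
    induction r with
    | zero =>
      intro x hx h0 y hy
      rw [pow_zero, Module.End.one_apply] at h0
      rw [h0]
      exact Submodule.zero_mem _
    | succ r ih =>
      intro x hx h0 y hy
      have h1 : (N ^ r) x ∈ U ⊓ Level N (m + r) := by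
        refine ⟨hUp r x hx, mem_level.2 ⟨?_, y, ?_⟩⟩
        · rw [← Module.End.mul_apply, ← pow_succ', h0]
        · rw [← hy, pow_apply_add, add_comm]
      obtain ⟨u, hu, hu2⟩ := h _ h1
      have h2 : x - (N ^ m) u ∈ U := Submodule.sub_mem _ hx (hUp m u hu)
      have h3 : (N ^ r) (x - (N ^ m) u) = 0 := by
        rw [map_sub, pow_apply_add, add_comm r m, hu2, sub_self]
      have h4 := ih _ h2 h3 (y - u) (by rw [map_sub, hy])
      have h5 := Submodule.add_mem _ h4 (Submodule.mem_map_of_mem (f := N ^ m) hu)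
      rwa [sub_add_cancel] at h5
  rintro x ⟨hx, y, hy⟩
  exact key d x hx (by rw [hN, LinearMap.zero_apply]) y hy

/-- A nonzero stable subspace meets the kernel. -/
theorem eq_bot_of_inf_ker {N : End k V} {d : ℕ} (hN : N ^ d = 0) {U : Submodule k V}
    (hU : ∀ x ∈ U, N x ∈ U) (h : U ⊓ LinearMap.ker N = ⊥) : U = ⊥ := by
  rw [eq_bot_iff]
  have key : ∀ r, ∀ x ∈ U, (N ^ r) x = 0 → x = 0 := by
    intro r
    induction r with
    | zero =>
      intro x _ h0
      exact h0
    | succ r ih =>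
      intro x hx h0
      rw [pow_succ, Module.End.mul_apply] at h0
      have h1 := ih (N x) (hU x hx) h0
      have h2 : x ∈ U ⊓ LinearMap.ker N := ⟨hx, h1⟩
      rw [h] at h2
      exact h2
  intro x hx
  exact key d x hx (by rw [hN, LinearMap.zero_apply])

/-! ### numerical part -/

theorem cheb_aux (m : ℤ) (c : ℕ → ℤ) (r : ℕ) :
    ∑ i ∈ Finset.range (r + 1), (m - 2 * i) * c i =
      ∑ s ∈ Finset.range r, ((s : ℤ) + 1) * (m - s) * (c s - c (s + 1)) + (r + 1) * (m - r) * c r := by
  induction r with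
  | zero => simp
  | succ r ih =>
    rw [Finset.sum_range_succ, ih, Finset.sum_range_succ]
    push_cast
    ring

theorem cheb_nonneg (m : ℕ) (c : ℕ → ℤ) (hc : ∀ i, c (i + 1) ≤ c i) :
    0 ≤ ∑ i ∈ Finset.range (m + 1), ((m : ℤ) - 2 * i) * c i := by
  rw [cheb_aux]
  have h1 : ((m : ℤ) + 1) * (m - m) * c m = 0 := by ring
  rw [h1, add_zero]
  refine Finset.sum_nonneg fun s hs => ?_
  rw [Finset.mem_range] at hs
  have h2 : (0 : ℤ) ≤ (m : ℤ) - s := by omega
  have h3 : (0 : ℤ) ≤ c s - c (s + 1) := by linarith [hc s]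
  positivity

theorem cheb_eq (m : ℕ) (c : ℕ → ℤ) (hc : ∀ i, c (i + 1) ≤ c i)
    (h : ∑ i ∈ Finset.range (m + 1), ((m : ℤ) - 2 * i) * c i ≤ 0) : c m = c 0 := by
  rw [cheb_aux] at h
  have h1 : ((m : ℤ) + 1) * (m - m) * c m = 0 := by ring
  rw [h1, add_zero] at h
  have h2 : ∀ s ∈ Finset.range m, 0 ≤ ((s : ℤ) + 1) * (m - s) * (c s - c (s + 1)) := by
    intro s hs
    rw [Finset.mem_range] at hs
    have h2 : (0 : ℤ) ≤ (m : ℤ) - s := by omega
    have h3 : (0 : ℤ) ≤ c s - c (s + 1) := by linarith [hc s]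
    positivity
  have h3 := (Finset.sum_eq_zero_iff_of_nonneg h2).1 (le_antisymm h (Finset.sum_nonneg h2))
  have h4 : ∀ s, s < m → c (s + 1) = c s := by
    intro s hs
    have h5 := h3 s (Finset.mem_range.2 hs)
    have h6 : ((s : ℤ) + 1) * (m - s) ≠ 0 := by
      have h7 : (0 : ℤ) < (m : ℤ) - s := by omega
      positivity
    have h7 := (mul_eq_zero.1 h5).resolve_left h6
    linarith
  have h5 : ∀ s, s ≤ m → c s = c 0 := by
    intro s
    induction s with
    | zero => intro _; rfl
    | succ s ih => intro hs; rw [h4 s (by omega), ih (by omega)]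
  exact h5 m le_rfl

end Run7.h293.LM
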