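import Pool.Agent.Run7.h293.LM.L9
import Pool.Agent.Y114.GF.Clifford

/-!
# Semisimplicity
-/

set_option autoImplicit false
set_option linter.unusedSectionVars false
set_option linter.unusedVariables false

namespace Run7.h293.LM

open Module Pool.Agent.Y114.GF

section coeff

variable {k : Type*} [Field k] {V : Type*} [AddCommGroup V] [Module k V] [FiniteDimensional k V]
  {Γ : Type*} [Group Γ] (ρ : Representation k Γ V)

/-- Semisimplicity with coefficients implies semisimplicity. -/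
theorem semi_of_coeff (E : Set (End k V)) (hE : ∀ f ∈ E, ∀ g, f * ρ g = ρ g * f)
    (h : ∀ S, Stab ρ ⊤ S → (∀ f ∈ E, ∀ x ∈ S, f x ∈ S) → ∃ S', Stab ρ ⊤ S' ∧ IsCompl S S') :
    Semi ρ (⊤ : Subgroup Γ) := by
  classical
  let S : Submodule k V := ⨆ W : {W : Submodule k V // IsMin ρ ⊤ W}, W.1
  have hle : ∀ W, IsMin ρ ⊤ W → W ≤ S := fun W hW =>
    le_iSup (fun W : {W : Submodule k V // IsMin ρ ⊤ W} => W.1) ⟨W, hW⟩
  have hS : Stab ρ ⊤ S := by
    intro g _ u hu
    have h1 : S.map (ρ g) ≤ S := by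
      rw [Submodule.map_iSup]
      refine iSup_le fun W => ?_
      refine le_trans ?_ (hle W.1 W.2)
      rintro _ ⟨x, hx, rfl⟩
      exact W.2.2.1 g trivial x hx
    exact h1 ⟨u, hu, rfl⟩
  have hSE : ∀ f ∈ E, ∀ x ∈ S, f x ∈ S := by
    intro f hf u hu
    have hfg : ∀ g x, f (ρ g x) = ρ g (f x) := fun g x =>
      congrArg (fun X : End k V => X x) (hE f hf g)
    have h1 : S.map f ≤ S := by
      rw [Submodule.map_iSup]
      refine iSup_le fun W => ?_
      by_cases h0 : W.1.map f = ⊥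
      · rw [h0]
        exact bot_le
      refine hle _ ⟨h0, ?_, ?_⟩
      · rintro g _ _ ⟨x, hx, rfl⟩
        exact ⟨ρ g x, W.2.2.1 g trivial x hx, hfg g x⟩
      · intro W' hW' hle'
        have h2 : Stab ρ ⊤ (W.1 ⊓ W'.comap f) := by
          intro g hg x hx
          refine ⟨W.2.2.1 g hg x hx.1, ?_⟩
          change f (ρ g x) ∈ W'
          rw [hfg]
          exact hW' g hg _ hx.2
        rcases W.2.2.2 _ h2 inf_le_left with h3 | h3
        · left
          rw [eq_bot_iff]
          intro y hy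
          obtain ⟨x, hx, rfl⟩ := hle' hy
          have h4 : x ∈ W.1 ⊓ W'.comap f := ⟨hx, hy⟩
          rw [h3, Submodule.mem_bot] at h4
          rw [h4, map_zero]
          exact Submodule.zero_mem _
        · right
          refine le_antisymm hle' ?_
          rintro _ ⟨x, hx, rfl⟩
          have h4 : x ∈ W.1 ⊓ W'.comap f := by rw [h3]; exact hx
          exact h4.2
    exact h1 ⟨u, hu, rfl⟩
  have hStop : S = ⊤ := by
    obtain ⟨S', hS', hc⟩ := h S hS hSE
    by_contra hne
    have h0 : S' ≠ ⊥ := by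
      intro h0
      rw [h0] at hc
      exact hne (by simpa using hc.sup_eq_top)
    obtain ⟨W, hW, hle'⟩ := exists_min ρ ⊤ S' (fun g _ => hS' g trivial) h0
    have h1 : W ≤ S := hle W hW
    have h2 : W ≤ S ⊓ S' := le_inf h1 hle'
    rw [hc.inf_eq_bot, le_bot_iff] at h2
    exact hW.1 h2
  intro U hU
  let P : ℕ → Prop := fun d => ∃ U' : Submodule k V, Stab ρ ⊤ U' ∧ U ⊓ U' = ⊥ ∧ finrank k U' = d
  have hP0 : P 0 := ⟨⊥, fun g _ u hu => by
    rw [Submodule.mem_bot] at hu ⊢
    rw [hu, map_zero], inf_bot_eq _, finrank_bot k V⟩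
  let d := Nat.findGreatest P (finrank k V)
  have hd : P d := Nat.findGreatest_spec (Nat.zero_le _) hP0
  obtain ⟨U', hU', hinf, hdim⟩ := hd
  refine ⟨U', hU', ?_⟩
  rw [isCompl_iff, disjoint_iff, codisjoint_iff]
  refine ⟨hinf, ?_⟩
  by_contra hne
  obtain ⟨W, hW, hnle⟩ : ∃ W, IsMin ρ ⊤ W ∧ ¬ W ≤ U ⊔ U' := by
    by_contra hcon
    push Not at hcon
    apply hne
    rw [← top_le_iff, ← hStop]
    exact iSup_le fun W => hcon W.1 W.2
  have hsup : Stab ρ ⊤ (U ⊔ U') := hU.sup ρ hU'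
  have h1 : W ⊓ (U ⊔ U') = ⊥ := by
    rcases hW.2.2 _ (hW.2.1.inf ρ hsup) inf_le_left with h2 | h2
    · exact h2
    · exact absurd (h2 ▸ inf_le_right) hnle
  have h2 : U ⊓ (U' ⊔ W) = ⊥ := by
    rw [Submodule.eq_bot_iff]
    rintro x ⟨hx, hx'⟩
    obtain ⟨a, ha, b, hb, rfl⟩ := Submodule.mem_sup.1 hx'
    have hb' : b ∈ W ⊓ (U ⊔ U') := by
      refine ⟨hb, ?_⟩
      have : b = (a + b) - a := by abel
      rw [this]
      exact Submodule.sub_mem _ (Submodule.mem_sup_left hx) (Submodule.mem_sup_right ha)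
    rw [h1, Submodule.mem_bot] at hb'
    rw [hb', add_zero] at hx ⊢
    have : a ∈ U ⊓ U' := ⟨hx, ha⟩
    rwa [hinf, Submodule.mem_bot] at this
  have h3 : finrank k (U' ⊔ W : Submodule k V) ≤ d :=
    Nat.le_findGreatest (Submodule.finrank_le _) ⟨_, hU'.sup ρ hW.2.1, h2, rfl⟩
  have h4 : U' ⊔ W = U' := by
    symm
    exact Submodule.eq_of_le_of_finrank_le le_sup_left (by rw [hdim]; exact h3)
  have h5 : W ≤ U ⊔ U' := (le_sup_right.trans h4.le).trans le_sup_right
  exact hnle h5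

end coeff

section orth

variable {k : Type*} [Field k] {V : Type*} [AddCommGroup V] [Module k V] [FiniteDimensional k V]

/-- The orthogonal complement. -/
def perp (ω : V →ₗ[k] V →ₗ[k] k) (U : Submodule k V) : Submodule k V where
  carrier := {x | ∀ y ∈ U, ω x y = 0}
  add_mem' := fun {a b} ha hb y hy => by
    rw [map_add, LinearMap.add_apply, ha y hy, hb y hy, add_zero]
  zero_mem' := fun y _ => by rw [map_zero, LinearMap.zero_apply]
  smul_mem' := fun c a ha y hy => by
    rw [map_smul, LinearMap.smul_apply, ha y hy, smul_zero]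

theorem mem_perp {ω : V →ₗ[k] V →ₗ[k] k} {U : Submodule k V} {x : V} :
    x ∈ perp ω U ↔ ∀ y ∈ U, ω x y = 0 := Iff.rfl

theorem finrank_perp {ω : V →ₗ[k] V →ₗ[k] k} (hnd : ∀ u, (∀ v, ω v u = 0) → u = 0)
    (U : Submodule k V) : finrank k (perp ω U) + finrank k U = finrank k V := by
  -- the map `U → dual V`
  let f : U →ₗ[k] Dual k V := ω.flip.domRestrict U
  have hf : Function.Injective f := by
    rw [← LinearMap.ker_eq_bot, eq_bot_iff]
    intro x hx
    rw [LinearMap.mem_ker] at hx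
    have : (x : V) = 0 := hnd _ fun v => LinearMap.congr_fun hx v
    exact Subtype.ext this
  have h1 : perp ω U = (LinearMap.range f).dualCoannihilator := by
    ext x
    rw [Submodule.mem_dualCoannihilator, mem_perp]
    constructor
    · rintro h _ ⟨y, rfl⟩
      exact h y y.2
    · intro h y hy
      exact h (f ⟨y, hy⟩) ⟨⟨y, hy⟩, rfl⟩
  have h2 := Subspace.finrank_add_finrank_dualCoannihilator_eq (LinearMap.range f)
  rw [← h1, LinearMap.finrank_range_of_inj hf] at h2
  omega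

theorem isCompl_perp {ω : V →ₗ[k] V →ₗ[k] k} (hnd : ∀ u, (∀ v, ω v u = 0) → u = 0)
    {U : Submodule k V} (h : U ⊓ perp ω U = ⊥) : IsCompl U (perp ω U) := by
  rw [isCompl_iff, disjoint_iff, codisjoint_iff]
  refine ⟨h, ?_⟩
  apply Submodule.eq_top_of_finrank_eq
  have h1 := Submodule.finrank_sup_add_finrank_inf_eq U (perp ω U)
  rw [h, finrank_bot, add_zero] at h1
  rw [h1, add_comm]
  exact finrank_perp hnd U

end orth

end Run7.h293.LM
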