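import Pool.Agent.Run7.h293.LM.L10

/-!
# Duality for the levels, multiplicities
-/

set_option autoImplicit false
set_option linter.unusedSectionVars false
set_option linter.unusedVariables false

namespace Run7.h293.LM

open Module

variable {k : Type*} [Field k] {V : Type*} [AddCommGroup V] [Module k V] [FiniteDimensional k V]
  {N : End k V} {𝒟 : Set (End k V)} {ω : V →ₗ[k] V →ₗ[k] k} (h : Loc N 𝒟 ω)

include h in
/-- The orthogonal complement of the kernel of a power is the range. -/
theorem Loc.perp_ker (r : ℕ) : perp ω (LinearMap.ker (N ^ r)) = LinearMap.range (N ^ r) := by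
  symm
  apply Submodule.eq_of_le_of_finrank_le
  · intro x hx y hy
    exact h.range_ker hx (LinearMap.mem_ker.1 hy)
  · have h1 := finrank_perp h.nondeg (LinearMap.ker (N ^ r))
    have h2 := LinearMap.finrank_range_add_finrank_ker (N ^ r)
    omega

include h in
theorem Loc.mem_level_succ {m : ℕ} {x : V} (hx : N x = 0)
    (hxy : ∀ y, (N ^ (m + 1)) y = 0 → ω x y = 0) : x ∈ Level N (m + 1) := by
  refine ⟨hx, ?_⟩
  rw [← h.perp_ker]
  exact fun y hy => hxy y (LinearMap.mem_ker.1 hy)

/-- Multiplicity free monodromy has no isotropic subspaces in the graded pieces. -/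
theorem Loc.noIso (h : Loc N 𝒟 ω)
    (hmf : ∀ m, finrank k (Level N m) ≤ finrank k (Level N (m + 1)) + 1) : NoIso N 𝒟 ω := by
  intro m A h1 h2 h3 h4
  by_contra hne
  have h5 : finrank k (Level N (m + 1)) < finrank k A :=
    Submodule.finrank_lt_finrank_of_lt (lt_of_le_of_ne h1 (Ne.symm hne))
  have h6 : A = Level N m := Submodule.eq_of_le_of_finrank_le h2 (by have := hmf m; omega)
  apply hne
  refine le_antisymm (fun x hx => ?_) h1
  refine h.mem_level_succ (h2 hx).1 fun y hy => h4 x hx y ?_
  rw [h6]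
  refine mem_level.2 ⟨?_, y, rfl⟩
  rw [← Module.End.mul_apply, ← pow_succ', hy]

/-- The multiplicities of an isotropic pure subspace. -/
theorem Loc.half (h : Loc N 𝒟 ω) {R : Submodule k V}
    (hiso : ∀ x ∈ R, ∀ y ∈ R, ω x y = 0) (hp : ∀ m, R ⊓ Level N m ≤ R.map (N ^ m)) (m : ℕ) :
    2 * (finrank k (R ⊓ Level N m : Submodule k V) : ℤ) -
      2 * finrank k (R ⊓ Level N (m + 1) : Submodule k V) ≤
        finrank k (Level N m) - finrank k (Level N (m + 1)) := by
  classical
  have hlm : Level N (m + 1) ≤ Level N m := level_anti N (Nat.le_succ m)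
  obtain ⟨s, hs⟩ := (N ^ m).rangeRestrict.exists_rightInverse_of_surjective
    (LinearMap.range_rangeRestrict _)
  have hs' : ∀ y : LinearMap.range (N ^ m), (N ^ m) (s y) = y := fun y =>
    congrArg Subtype.val (LinearMap.congr_fun hs y)
  have hLr : Level N m ≤ LinearMap.range (N ^ m) := inf_le_right
  let f : (R ⊓ Level N m : Submodule k V) →ₗ[k] Dual k (Level N m) :=
    ω.compl₁₂ (R ⊓ Level N m).subtype (s ∘ₗ Submodule.inclusion hLr)
  have hf : ∀ (x : (R ⊓ Level N m : Submodule k V)) (y : Level N m) (y' : V), (N ^ m) y' = y →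
      f x y = ω x y' := by
    intro x y y' hy
    refine h.form_wd (hLr x.2.2) ?_
    rw [hy]
    exact hs' _
  -- the kernel
  have hker : LinearMap.ker f = (R ⊓ Level N (m + 1)).submoduleOf (R ⊓ Level N m) := by
    ext x
    rw [LinearMap.mem_ker]
    constructor
    · intro hx
      refine ⟨x.2.1, h.mem_level_succ x.2.2.1 fun y hy => ?_⟩
      have h1 : (N ^ m) y ∈ Level N m := by
        refine mem_level.2 ⟨?_, y, rfl⟩
        rw [← Module.End.mul_apply, ← pow_succ', hy]
      have h2 := LinearMap.congr_fun hx ⟨(N ^ m) y, h1⟩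
      rw [hf x ⟨(N ^ m) y, h1⟩ y rfl] at h2
      exact h2
    · intro hx
      refine LinearMap.ext fun y => ?_
      obtain ⟨y', hy'⟩ := hLr y.2
      rw [hf x y y' hy', LinearMap.zero_apply]
      exact h.level_succ_left hx.2 (by rw [hy']; exact y.2.1)
  -- the subspace on which all these functionals vanish
  have hrange : LinearMap.range f ≤
      (((R ⊓ Level N m) ⊔ Level N (m + 1)).submoduleOf (Level N m)).dualAnnihilator := by
    rintro _ ⟨x, rfl⟩
    rw [Submodule.mem_dualAnnihilator]
    intro y hy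
    obtain ⟨r, hr, l, hl, hrl⟩ := Submodule.mem_sup.1 (show (y : V) ∈ _ from hy)
    obtain ⟨r', hr'R, hr'⟩ := hp m hr
    obtain ⟨y', hy'⟩ := hLr y.2
    rw [hf x y y' hy']
    have h2 : (N ^ m) (y' - r') ∈ Level N (m + 1) := by
      rw [map_sub, hr', hy', ← hrl, add_sub_cancel_left]
      exact hl
    have h3 := h.level_succ_right x.2.2 h2
    rw [map_sub, hiso x x.2.1 r' hr'R, sub_zero] at h3
    exact h3
  have h1 := LinearMap.finrank_range_add_finrank_ker f
  rw [hker, (Submodule.submoduleOfEquivOfLe (inf_le_inf_left R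
    (hlm))).finrank_eq] at h1
  have h2 := Submodule.finrank_mono hrange
  have hle : (R ⊓ Level N m) ⊔ Level N (m + 1) ≤ Level N m :=
    sup_le inf_le_right (hlm)
  have h3 := Subspace.finrank_add_finrank_dualAnnihilator_eq
    (((R ⊓ Level N m) ⊔ Level N (m + 1)).submoduleOf (Level N m))
  rw [(Submodule.submoduleOfEquivOfLe hle).finrank_eq] at h3
  have h4 := Submodule.finrank_sup_add_finrank_inf_eq (R ⊓ Level N m) (Level N (m + 1))
  have h5 : R ⊓ Level N m ⊓ Level N (m + 1) = R ⊓ Level N (m + 1) := by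
    rw [inf_assoc, inf_eq_right.2 (hlm)]
  rw [h5] at h4
  have h6 := Submodule.finrank_mono (show R ⊓ Level N (m + 1) ≤ R ⊓ Level N m from
    inf_le_inf_left R (hlm))
  omega

/-- The dimension of a pure subspace. -/
theorem finrank_pure {T : End k V} {d : ℕ} (hT : T ^ d = 0) {U : Submodule k V}
    (hU : ∀ x ∈ U, T x ∈ U)
    (hp : ∀ m, U ⊓ LinearMap.range (T ^ m) ≤ U.map (T ^ m)) :
    (finrank k U : ℤ) = ∑ m ∈ Finset.range d, ((m : ℤ) + 1) *
      ((finrank k (U ⊓ Level T m : Submodule k V) : ℤ) -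
        finrank k (U ⊓ Level T (m + 1) : Submodule k V)) := by
  have hUp : ∀ j, ∀ x ∈ U, (T ^ j) x ∈ U := by
    intro j
    induction j with
    | zero => intro x hx; exact hx
    | succ j ih =>
      intro x hx
      rw [pow_succ', Module.End.mul_apply]
      exact hU _ (ih x hx)
  have h1 : ∀ i, U.map (T ^ i) ⊓ Level T 0 = U ⊓ Level T i := by
    intro i
    apply le_antisymm
    · rintro _ ⟨⟨x, hx, rfl⟩, h2⟩
      exact ⟨hUp i x hx, h2.1, ⟨x, rfl⟩⟩
    · rintro x ⟨hx, hx2⟩
      exact ⟨hp i ⟨hx, hx2.2⟩, level_anti T (Nat.zero_le i) hx2⟩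
  have hfr : ∀ r, (finrank k U : ℤ) = ∑ i ∈ Finset.range r,
      (finrank k (U ⊓ Level T i : Submodule k V) : ℤ) + finrank k (U.map (T ^ r)) := by
    intro r
    induction r with
    | zero =>
      rw [pow_zero]
      have : U.map (1 : End k V) = U := Submodule.map_id U
      rw [this]
      simp
    | succ r ih =>
      rw [ih, Finset.sum_range_succ]
      have h1' := finrank_map_add (N := T) (U.map (T ^ r))
      rw [← Submodule.map_comp, h1] at h1'
      have h2 : T ∘ₗ (T ^ r) = T ^ (r + 1) := by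
        rw [pow_succ']
        rfl
      rw [h2] at h1'
      rw [h1']
      push_cast
      ring
  have h2 := hfr d
  have hbot : U.map (T ^ d) = ⊥ := by
    rw [hT]
    exact Submodule.map_zero U
  rw [hbot, finrank_bot, Nat.cast_zero, add_zero] at h2
  rw [h2]
  have key : ∀ r, ∑ m ∈ Finset.range r, ((m : ℤ) + 1) *
      ((finrank k (U ⊓ Level T m : Submodule k V) : ℤ) -
        finrank k (U ⊓ Level T (m + 1) : Submodule k V)) =
      ∑ i ∈ Finset.range r, (finrank k (U ⊓ Level T i : Submodule k V) : ℤ) -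
        r * finrank k (U ⊓ Level T r : Submodule k V) := by
    intro r
    induction r with
    | zero => simp
    | succ r ih =>
      rw [Finset.sum_range_succ, ih, Finset.sum_range_succ]
      push_cast
      ring
  rw [key, level_eq_bot hT le_rfl, inf_bot_eq, finrank_bot]
  simp

end Run7.h293.LM
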