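import Pool.Agent.Run7.h293.LM.L11

/-!
# Endomorphisms commuting with a subgroup, multiplicity free monodromy
-/

set_option autoImplicit false
set_option linter.unusedSectionVars false
set_option linter.unusedVariables false

namespace Run7.h293.LM

open Module Polynomial

variable {k : Type*} [Field k] {V : Type*} [AddCommGroup V] [Module k V] [FiniteDimensional k V]

/-- Data for the commutant: a nilpotent endomorphism `N` with multiplicity free levels, a form, a subalgebra
`C` of endomorphisms which commute with `N` and whose kernels have stable complements. -/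
structure Com (N : End k V) (ω : V →ₗ[k] V →ₗ[k] k) (C : Subalgebra k (End k V)) : Prop where
  loc : Loc N ∅ ω
  mf : ∀ m, finrank k (Level N m) ≤ finrank k (Level N (m + 1)) + 1
  comm : ∀ f ∈ C, f * N = N * f
  adj : ∀ f ∈ C, ∃ f' ∈ C, ∀ x y, ω (f x) y = ω x (f' y)
  compl : ∀ f ∈ C, ∃ K : Submodule k V, (∀ x ∈ K, N x ∈ K) ∧ IsCompl (LinearMap.ker f) K
  pure : ∀ f ∈ C, ∀ m, LinearMap.range f ⊓ Level N m ≤ (LinearMap.range f).map (N ^ m)

variable {N : End k V} {ω : V →ₗ[k] V →ₗ[k] k} {C : Subalgebra k (End k V)} (h : Com N ω C)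

include h in
theorem Com.comm_pow {f : End k V} (hf : f ∈ C) (m : ℕ) (x : V) : f ((N ^ m) x) = (N ^ m) (f x) := by
  have h1 : Commute f N := h.comm f hf
  exact congrArg (fun T : End k V => T x) (h1.pow_right m).eq

include h in
theorem Com.level {f : End k V} (hf : f ∈ C) {m : ℕ} {x : V} (hx : x ∈ Level N m) :
    f x ∈ Level N m := by
  obtain ⟨h0, y, rfl⟩ := mem_level.1 hx
  refine mem_level.2 ⟨?_, f y, (h.comm_pow hf m y).symm⟩
  have h1 := h.comm_pow hf 1 ((N ^ m) y)
  rw [pow_one] at h1
  rw [← h1, h0, map_zero]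

include h in
/-- An element of the commutant which acts trivially on the graded pieces is zero. -/
theorem Com.eq_zero {g : End k V} (hg : g ∈ C) (hgm : ∀ m, ∀ x ∈ Level N m, g x ∈ Level N (m + 1)) :
    g = 0 := by
  obtain ⟨d, hd⟩ := h.loc.nil
  obtain ⟨K, hKN, hK⟩ := h.compl g hg
  have hRN : ∀ x ∈ LinearMap.range g, N x ∈ LinearMap.range g := by
    rintro _ ⟨x, rfl⟩
    have h1 := h.comm_pow hg 1 x
    rw [pow_one] at h1
    exact ⟨N x, h1⟩
  have key : ∀ m, LinearMap.range g ⊓ Level N m ≤ Level N (m + 1) := by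
    intro m r hr
    obtain ⟨_, ⟨v, rfl⟩, hv⟩ := h.pure g hg m hr
    -- we may suppose that `v` is in `K`
    obtain ⟨a, ha, b, hb, hab⟩ := Submodule.mem_sup.1
      (show v ∈ LinearMap.ker g ⊔ K by rw [hK.sup_eq_top]; trivial)
    have hKp : ∀ j, ∀ x ∈ K, (N ^ j) x ∈ K := by
      intro j
      induction j with
      | zero => intro x hx; exact hx
      | succ j ih =>
        intro x hx
        rw [pow_succ', Module.End.mul_apply]
        exact hKN _ (ih x hx)
    have h1 : g v = g b := by
      rw [← hab, map_add, LinearMap.mem_ker.1 ha, zero_add]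
    rw [h1, ← h.comm_pow hg] at hv
    have h2 : (N ^ (m + 1)) b ∈ LinearMap.ker g ⊓ K := by
      refine ⟨?_, hKp _ b hb⟩
      change g ((N ^ (m + 1)) b) = 0
      rw [h.comm_pow hg, pow_succ', Module.End.mul_apply, ← h.comm_pow hg, hv]
      exact hr.2.1
    rw [hK.inf_eq_bot, Submodule.mem_bot] at h2
    rw [← hv]
    refine hgm m _ (mem_level.2 ⟨?_, b, rfl⟩)
    rw [← Module.End.mul_apply, ← pow_succ', h2]
  have key2 : ∀ m, LinearMap.range g ⊓ Level N 0 ≤ Level N m := by
    intro m
    induction m with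
    | zero => exact inf_le_right
    | succ m ih => exact fun x hx => key m ⟨hx.1, ih hx⟩
  have h3 : LinearMap.range g = ⊥ := by
    apply eq_bot_of_inf_ker hd hRN
    rw [← level_zero, eq_bot_iff]
    have h1 := key2 d
    rwa [level_eq_bot hd le_rfl] at h1
  exact LinearMap.range_eq_bot.1 h3

include h in
/-- The eigenvalues on the graded pieces. -/
theorem Com.exists_scalar {f : End k V} (hf : f ∈ C) (m : ℕ) :
    ∃ a : k, ∀ x ∈ Level N m, f x - a • x ∈ Level N (m + 1) := by
  by_cases hle : Level N m ≤ Level N (m + 1)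
  · refine ⟨0, fun x hx => ?_⟩
    rw [zero_smul, sub_zero]
    exact h.level hf (hle hx)
  obtain ⟨x₀, hx₀, hx₀'⟩ := SetLike.not_le_iff_exists.1 hle
  have hspan : Level N m = (k ∙ x₀) ⊔ Level N (m + 1) := by
    symm
    apply Submodule.eq_of_le_of_finrank_le
    · refine sup_le ?_ (level_anti N (Nat.le_succ m))
      rw [Submodule.span_singleton_le_iff_mem]
      exact hx₀
    · have h1 : Level N (m + 1) < (k ∙ x₀) ⊔ Level N (m + 1) := by
        refine lt_of_le_of_ne le_sup_right fun heq => hx₀' ?_
        rw [heq]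
        exact Submodule.mem_sup_left (Submodule.mem_span_singleton_self x₀)
      have h2 := Submodule.finrank_lt_finrank_of_lt h1
      have h3 := h.mf m
      omega
  obtain ⟨y, hy, l, hl, hyl⟩ := Submodule.mem_sup.1 (hspan ▸ h.level hf hx₀)
  obtain ⟨a, rfl⟩ := Submodule.mem_span_singleton.1 hy
  refine ⟨a, fun x hx => ?_⟩
  obtain ⟨z, hz, l', hl', rfl⟩ := Submodule.mem_sup.1 (hspan ▸ hx)
  obtain ⟨b, rfl⟩ := Submodule.mem_span_singleton.1 hz
  have h1 : f (b • x₀ + l') - a • (b • x₀ + l') = b • l + (f l' - a • l') := by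
    rw [map_add, map_smul, ← hyl, smul_add, smul_add, smul_comm b a]
    abel
  rw [h1]
  exact Submodule.add_mem _ (Submodule.smul_mem _ _ hl)
    (Submodule.sub_mem _ (h.level hf hl') (Submodule.smul_mem _ _ hl'))

include h in
/-- The elements of the commutant are self-adjoint. -/
theorem Com.selfAdjoint {f : End k V} (hf : f ∈ C) (x y : V) : ω (f x) y = ω x (f y) := by
  obtain ⟨f', hf', hadj⟩ := h.adj f hf
  have h0 : f - f' = 0 := by
    refine h.eq_zero (Subalgebra.sub_mem _ hf hf') fun m x hx => ?_
    obtain ⟨a, ha⟩ := h.exists_scalar hf m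
    obtain ⟨b, hb⟩ := h.exists_scalar hf' m
    by_cases hle : Level N m ≤ Level N (m + 1)
    · rw [LinearMap.sub_apply]
      exact Submodule.sub_mem _ (h.level hf (hle hx)) (h.level hf' (hle hx))
    obtain ⟨x₀, hx₀, hx₀'⟩ := SetLike.not_le_iff_exists.1 hle
    have hex : ∃ y, (N ^ (m + 1)) y = 0 ∧ ω x₀ y ≠ 0 := by
      by_contra hcon
      push Not at hcon
      exact hx₀' (h.loc.mem_level_succ hx₀.1 hcon)
    obtain ⟨y₀, hy₀, hne⟩ := hex
    have hyk : (N ^ m) y₀ ∈ Level N m := by
      refine mem_level.2 ⟨?_, y₀, rfl⟩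
      rw [← Module.End.mul_apply, ← pow_succ', hy₀]
    have e1 : ω (f x₀) y₀ = a * ω x₀ y₀ := by
      have h1 := h.loc.level_succ_left (ha x₀ hx₀) hyk.1
      rw [map_sub, LinearMap.sub_apply, map_smul, LinearMap.smul_apply, sub_eq_zero] at h1
      exact h1
    have e2 : ω x₀ (f' y₀) = b * ω x₀ y₀ := by
      have h2 : (N ^ m) (f' y₀ - b • y₀) ∈ Level N (m + 1) := by
        rw [map_sub, map_smul, ← h.comm_pow hf']
        exact hb _ hyk
      have h1 := h.loc.level_succ_right hx₀ h2
      rw [map_sub, map_smul, sub_eq_zero] at h1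
      exact h1
    have e3 : a = b := by
      have h1 := hadj x₀ y₀
      rw [e1, e2] at h1
      exact mul_right_cancel₀ hne h1
    have e4 : (f - f') x = (f x - a • x) - (f' x - b • x) := by
      rw [LinearMap.sub_apply, e3]
      abel
    rw [e4]
    exact Submodule.sub_mem _ (ha x hx) (hb x hx)
  rw [sub_eq_zero] at h0
  rw [hadj, ← h0]

include h in
/-- The commutant is commutative. -/
theorem Com.commutative {f g : End k V} (hf : f ∈ C) (hg : g ∈ C) : f * g = g * f := by
  rw [← sub_eq_zero]
  refine h.eq_zero (Subalgebra.sub_mem _ (mul_mem hf hg) (mul_mem hg hf)) fun m x hx => ?_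
  obtain ⟨a, ha⟩ := h.exists_scalar hf m
  obtain ⟨b, hb⟩ := h.exists_scalar hg m
  have e1 : (f * g - g * f) x = (f (g x - b • x) - a • (g x - b • x)) -
      (g (f x - a • x) - b • (f x - a • x)) := by
    simp only [LinearMap.sub_apply, Module.End.mul_apply, map_sub, map_smul, smul_sub]
    rw [smul_comm b a]
    abel
  rw [e1]
  have h1 := hb x hx
  have h2 := ha x hx
  exact Submodule.sub_mem _
    (Submodule.sub_mem _ (h.level hf h1) (Submodule.smul_mem _ _ h1))
    (Submodule.sub_mem _ (h.level hg h2) (Submodule.smul_mem _ _ h2))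

include h in
/-- The elements of the commutant are diagonalizable. -/
theorem Com.split {f : End k V} (hf : f ∈ C) : ∃ s : Finset k,
    aeval f (∏ a ∈ s, (X - Polynomial.C a)) = 0 := by
  classical
  obtain ⟨d, hd⟩ := h.loc.nil
  choose a ha using fun m => h.exists_scalar hf m
  refine ⟨(Finset.range d).image a, ?_⟩
  have hmem : ∀ p : k[X], aeval f p ∈ C := fun p => by
    have h1 : aeval f p ∈ Algebra.adjoin k {f} := aeval_mem_adjoin_singleton k f
    exact (Algebra.adjoin_le (by rintro _ rfl; exact hf)) h1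
  refine h.eq_zero (hmem _) fun m x hx => ?_
  by_cases hm : d ≤ m
  · rw [level_eq_bot hd hm, Submodule.mem_bot] at hx
    rw [hx, map_zero]
    exact Submodule.zero_mem _
  rw [not_le] at hm
  have h1 : a m ∈ (Finset.range d).image a := Finset.mem_image_of_mem a (Finset.mem_range.2 hm)
  rw [← Finset.mul_prod_erase _ _ h1, mul_comm, map_mul, Module.End.mul_apply]
  refine h.level (hmem _) ?_
  rw [map_sub, aeval_X, aeval_C, LinearMap.sub_apply]
  exact ha m x hx

open Classical in
/-- The number of blocks. -/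
noncomputable def blocks (N : End k V) (d : ℕ) : Finset ℕ :=
  (Finset.range d).filter fun m => ¬ Level N m ≤ Level N (m + 1)

include h in
/-- The dimension of the commutant. -/
theorem Com.finrank_le : finrank k C ≤ finrank k (LinearMap.ker N) := by
  classical
  obtain ⟨d, hd⟩ := h.loc.nil
  have hch : ∀ m : ℕ, ∃ (x : V) (ξ : V →ₗ[k] k), x ∈ Level N m ∧ (∀ y ∈ Level N (m + 1), ξ y = 0) ∧
      (¬ Level N m ≤ Level N (m + 1) → ξ x ≠ 0) := by
    intro m
    by_cases hle : Level N m ≤ Level N (m + 1)
    · exact ⟨0, 0, Submodule.zero_mem _, fun _ _ => rfl, fun hn => absurd hle hn⟩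
    obtain ⟨x₀, hx₀, hx₀'⟩ := SetLike.not_le_iff_exists.1 hle
    obtain ⟨ξ, hξ, hξ'⟩ := Submodule.exists_le_ker_of_notMem hx₀'
    exact ⟨x₀, ξ, hx₀, fun y hy => LinearMap.mem_ker.1 (hξ' hy), fun _ => hξ⟩
  choose x ξ hx hξ hne using hch
  let Λ : C →ₗ[k] (blocks N d → k) :=
    { toFun := fun f m => ξ m (f.1 (x m))
      map_add' := fun f g => by
        funext m
        change ξ m ((f.1 + g.1) (x m)) = _
        rw [LinearMap.add_apply, map_add]
        rfl
      map_smul' := fun c f => by
        funext m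
        change ξ m ((c • f.1) (x m)) = _
        rw [LinearMap.smul_apply, map_smul]
        rfl }
  have hinj : Function.Injective Λ := by
    rw [← LinearMap.ker_eq_bot, eq_bot_iff]
    intro f hf
    rw [Submodule.mem_bot]
    apply Subtype.ext
    refine h.eq_zero f.2 fun m y hy => ?_
    by_cases hm : d ≤ m
    · rw [level_eq_bot hd hm, Submodule.mem_bot] at hy
      rw [hy, map_zero]
      exact Submodule.zero_mem _
    rw [not_le] at hm
    by_cases hle : Level N m ≤ Level N (m + 1)
    · exact h.level f.2 (hle hy)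
    obtain ⟨a, ha⟩ := h.exists_scalar f.2 m
    have h1 := congrFun (LinearMap.mem_ker.1 hf) ⟨m, by
      unfold blocks
      rw [Finset.mem_filter, Finset.mem_range]
      exact ⟨hm, hle⟩⟩
    change ξ m (f.1 (x m)) = 0 at h1
    have h2 := hξ m _ (ha (x m) (hx m))
    rw [map_sub, h1, map_smul, zero_sub, neg_eq_zero] at h2
    have h3 : a = 0 := (smul_eq_zero.1 h2).resolve_right (hne m hle)
    have h4 := ha y hy
    rwa [h3, zero_smul, sub_zero] at h4
  have h1 := LinearMap.finrank_le_finrank_of_injective hinj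
  rw [Module.finrank_fintype_fun_eq_card, Fintype.card_coe] at h1
  refine h1.trans ?_
  have key : ∀ r, ((Finset.range r).filter fun m => ¬ Level N m ≤ Level N (m + 1)).card +
      finrank k (Level N r) ≤ finrank k (Level N 0) := by
    intro r
    induction r with
    | zero => simp
    | succ r ih =>
      rw [Finset.range_add_one, Finset.filter_insert]
      by_cases hle : Level N r ≤ Level N (r + 1)
      · rw [if_neg (not_not.2 hle)]
        have h2 := Submodule.finrank_mono (show Level N (r + 1) ≤ Level N r from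
          level_anti N (Nat.le_succ r))
        omega
      · rw [if_pos hle, Finset.card_insert_of_notMem (by simp)]
        have h2 : finrank k (Level N (r + 1)) < finrank k (Level N r) :=
          Submodule.finrank_lt_finrank_of_lt (lt_of_le_of_ne (level_anti N (Nat.le_succ r))
            fun heq => hle heq.ge)
        omega
  have h2 := key d
  rw [level_zero] at h2
  unfold blocks
  omega

end Run7.h293.LM
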