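import Pool.Agent.Run7.h293.LM.L12

/-!
# Jordan types

The theorems `irreducible` and `scalar` are copied from `Pool.Agent.N978.JT.Endo`.
-/

set_option autoImplicit false
set_option linter.unusedSectionVars false
set_option linter.unusedVariables false

namespace Run7.h293.LM

open Module Polynomial LinearMap Pool.Agent.N978.JT

section abstract

variable {K V : Type} [Field K] [AddCommGroup V] [Module K V] [FiniteDimensional K V]

/-- Stable subspaces have stable complements. -/
def SemiA (A : Set (End K V)) : Prop := ∀ U : Submodule K V, (∀ a ∈ A, ∀ x ∈ U, a x ∈ U) →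
  ∃ U' : Submodule K V, (∀ a ∈ A, ∀ x ∈ U', a x ∈ U') ∧ IsCompl U U'

variable {A : Set (End K V)} {κ : Type} {g : κ → End K V} {l : κ → Multiset ℕ}

theorem irreducible (hA : SemiA A) (hg : ∀ c, g c ∈ A) (hl : ∀ c, HasBlocks (g c) (l c))
    (hs : ∀ d, 0 < d → d < finrank K V → ∃ c, ¬ IsPartSum (l c) d) (U : Submodule K V)
    (hU : ∀ a ∈ A, ∀ x ∈ U, a x ∈ U) : U = ⊥ ∨ U = ⊤ := by
  obtain ⟨U', hU', hc⟩ := hA U hU
  by_contra hcon
  push Not at hcon
  have h1 : 0 < finrank K U := by
    rw [Nat.pos_iff_ne_zero]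
    intro h0
    exact hcon.1 (Submodule.finrank_eq_zero.1 h0)
  have h2 : finrank K U < finrank K V := Submodule.finrank_lt hcon.2
  obtain ⟨c, hc'⟩ := hs _ h1 h2
  exact hc' (partSum_of_isCompl (hl c) (hU _ (hg c)) (hU' _ (hg c)) hc)

theorem scalar (hA : SemiA A) (hg : ∀ c, g c ∈ A) (hl : ∀ c, HasBlocks (g c) (l c))
    (hs : ∀ d, 0 < d → d < finrank K V → ∃ c, ¬ IsPartSum (l c) d) (f : End K V)
    (hf : ∀ a ∈ A, a * f = f * a) : ∃ b : K, ∀ x, f x = b • x := by
  classical
  by_cases hV : finrank K V = 0
  · have : Subsingleton V := Module.finrank_zero_iff.1 hV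
    exact ⟨0, fun x => Subsingleton.elim _ _⟩
  have hn : Nontrivial V := Module.finrank_pos_iff.1 (Nat.pos_of_ne_zero hV)
  have hnu : ¬ IsUnit (minpoly K f) := minpoly.not_isUnit K f
  have hne : minpoly K f ≠ 0 := minpoly.ne_zero (Algebra.IsIntegral.isIntegral f)
  obtain ⟨p, hp, q, hq⟩ := WfDvdMonoid.exists_irreducible_factor hnu hne
  -- the kernel of `p(f)` is stable and not zero
  have hcomm : ∀ a ∈ A, ∀ r : K[X], a * aeval f r = aeval f r * a := by
    intro a ha r
    have h1 : Commute a f := hf a ha
    have h2 : ∀ r : K[X], Commute a (aeval f r) := by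
      intro r
      induction r using Polynomial.induction_on' with
      | add x y hx hy => rw [map_add]; exact hx.add_right hy
      | monomial k b =>
        rw [aeval_monomial]
        exact (Algebra.commute_algebraMap_right b a).mul_right (h1.pow_right k)
    exact (h2 r).eq
  have hker : ker (aeval f p) ≠ ⊥ := by
    intro h0
    have hq0 : q ≠ 0 := by
      rintro rfl
      rw [mul_zero] at hq
      exact hne hq
    have h1 : aeval f q = 0 := by
      refine LinearMap.ext fun x => ?_
      have h2 : (aeval f p) ((aeval f q) x) = 0 := by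
        rw [← Module.End.mul_apply, ← map_mul, ← hq, minpoly.aeval, LinearMap.zero_apply]
      have h3 : (aeval f q) x ∈ ker (aeval f p) := h2
      rw [h0] at h3
      exact (Submodule.mem_bot K).1 h3
    have h4 := minpoly.degree_le_of_ne_zero K f hq0 h1
    have h5 := Polynomial.natDegree_le_natDegree h4
    rw [hq, Polynomial.natDegree_mul hp.ne_zero hq0] at h5
    have := hp.natDegree_pos
    omega
  have htop : ker (aeval f p) = ⊤ := by
    refine (irreducible hA hg hl hs (ker (aeval f p)) ?_).resolve_left hker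
    intro a ha x hx
    rw [LinearMap.mem_ker] at hx ⊢
    rw [← Module.End.mul_apply, ← hcomm a ha p, Module.End.mul_apply, hx, map_zero]
  have hpf : aeval f p = 0 := LinearMap.ker_eq_top.1 htop
  -- the degree of `p` is one
  have hdeg : p.natDegree = 1 := by
    by_contra hne1
    have hpos := hp.natDegree_pos
    have h2 : 2 ≤ p.natDegree := by omega
    have hlt : finrank K V / p.natDegree < finrank K V :=
      Nat.div_lt_self (Nat.pos_of_ne_zero hV) h2
    have hd : p.natDegree ∣ finrank K V := t_FD K V f p hp hpf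
    have hpos' : 0 < finrank K V / p.natDegree :=
      Nat.div_pos (Nat.le_of_dvd (Nat.pos_of_ne_zero hV) hd) hpos
    obtain ⟨c, hc⟩ := hs _ hpos' hlt
    apply hc
    obtain ⟨d, hd1, hd2⟩ := partSum_of_field (hl c) (hf _ (hg c)) hp hpf
    rw [← hd2, Nat.mul_div_cancel_left _ hpos]
    exact hd1
  obtain ⟨a, ha, b, hab⟩ := Polynomial.natDegree_eq_one.1 hdeg
  refine ⟨-(a⁻¹ * b), fun x => ?_⟩
  have h1 : a • f x + b • x = 0 := by
    have h2 := LinearMap.congr_fun hpf x
    rw [← hab] at h2
    simp only [map_add, map_mul, aeval_C, aeval_X, LinearMap.add_apply, Module.End.mul_apply,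
      Module.algebraMap_end_apply, LinearMap.zero_apply] at h2
    exact h2
  have h3 : f x = a⁻¹ • (a • f x) := by rw [smul_smul, inv_mul_cancel₀ ha, one_smul]
  rw [h3, eq_neg_of_add_eq_zero_left h1, smul_neg, smul_smul, neg_smul]

end abstract

section counts

variable {K V : Type} [Field K] [AddCommGroup V] [Module K V] [FiniteDimensional K V]

theorem finrank_level (T : End K V) (m : ℕ) :
    finrank K (Level T m) + finrank K (ker (T ^ m)) = finrank K (ker (T ^ (m + 1))) := by
  let f : ker (T ^ (m + 1)) →ₗ[K] V := (T ^ m).domRestrict (ker (T ^ (m + 1)))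
  have h1 := LinearMap.finrank_range_add_finrank_ker f
  have h2 : range f = Level T m := by
    ext x
    rw [mem_level]
    constructor
    · rintro ⟨y, rfl⟩
      refine ⟨?_, y, rfl⟩
      change T ((T ^ m) y) = 0
      rw [← Module.End.mul_apply, ← pow_succ']
      exact y.2
    · rintro ⟨h0, y, rfl⟩
      refine ⟨⟨y, ?_⟩, rfl⟩
      rw [LinearMap.mem_ker, pow_succ', Module.End.mul_apply]
      exact h0
  have h3 : ker f = (ker (T ^ m)).submoduleOf (ker (T ^ (m + 1))) := by
    ext x
    exact Iff.rfl
  have h4 : ker (T ^ m) ≤ ker (T ^ (m + 1)) := by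
    intro x hx
    rw [LinearMap.mem_ker] at hx ⊢
    rw [pow_succ', Module.End.mul_apply, hx, map_zero]
  rw [h2, h3, (Submodule.submoduleOfEquivOfLe h4).finrank_eq] at h1
  exact h1

theorem count_level {g : End K V} {l : Multiset ℕ} (h : HasBlocks g l) (m : ℕ) :
    finrank K (Level (g - 1) m) = finrank K (Level (g - 1) (m + 1)) + l.count (m + 1) := by
  have hc : ∀ (l : Multiset ℕ) (j : ℕ),
      kerDims l j + kerDims l (j + 2) + l.count (j + 1) = 2 * kerDims l (j + 1) := by
    intro l j
    induction l using Multiset.induction_on with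
    | empty => simp [kerDims]
    | cons a l ih =>
      unfold kerDims at ih ⊢
      simp only [Multiset.map_cons, Multiset.sum_cons, Multiset.count_cons]
      split_ifs with hja <;> omega
  have h0 := hc l m
  have h1 := finrank_level (g - 1) m
  have h2 := finrank_level (g - 1) (m + 1)
  rw [h.2.2, h.2.2] at h1 h2
  have h3 : m + 1 + 1 = m + 2 := rfl
  rw [h3] at h2
  omega

theorem sum_list (c : ℕ → ℕ) (d : ℕ) :
    (∑ m ∈ Finset.range d, Multiset.replicate (c m) (m + 1)).sum =
      ∑ m ∈ Finset.range d, (m + 1) * c m := by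
  induction d with
  | zero => simp
  | succ d ih =>
    rw [Finset.sum_range_succ, Finset.sum_range_succ, Multiset.sum_add, ih,
      Multiset.sum_replicate, smul_eq_mul, mul_comm]

theorem count_list (c : ℕ → ℕ) (d a : ℕ) :
    (∑ m ∈ Finset.range d, Multiset.replicate (c m) (m + 1)).count a =
      ∑ m ∈ Finset.range d, if m + 1 = a then c m else 0 := by
  induction d with
  | zero => simp
  | succ d ih =>
    rw [Finset.sum_range_succ, Finset.sum_range_succ, Multiset.count_add, ih,
      Multiset.count_replicate]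

theorem halfSum_of {l : Multiset ℕ} (c : ℕ → ℕ) (d : ℕ) (hc : ∀ m, 2 * c m ≤ l.count (m + 1)) :
    IsHalfSum l (∑ m ∈ Finset.range d, (m + 1) * c m) := by
  refine ⟨∑ m ∈ Finset.range d, Multiset.replicate (c m) (m + 1), ?_, sum_list c d⟩
  rw [Multiset.le_iff_count]
  intro a
  rw [Multiset.count_add, count_list]
  cases a with
  | zero => simp
  | succ a =>
    by_cases ha : a < d
    · rw [Finset.sum_eq_single a]
      · rw [if_pos rfl]
        have := hc a
        omega
      · intro b _ hb
        rw [if_neg (by omega)]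
      · intro h
        exact absurd (Finset.mem_range.2 ha) h
    · rw [Finset.sum_eq_zero]
      · simp
      · intro b hb
        rw [Finset.mem_range] at hb
        rw [if_neg (by omega)]

/-- The dimension of an isotropic pure subspace is a half sum. -/
theorem halfSum_of_isotropic {N : End K V} {ω : V →ₗ[K] V →ₗ[K] K} (h : Loc N ∅ ω)
    {g : End K V} {l : Multiset ℕ} (hl : HasBlocks g l)
    (hlev : ∀ m, Level N m = Level (g - 1) m) {R : Submodule K V}
    (hR : ∀ x ∈ R, (g - 1) x ∈ R)
    (hiso : ∀ x ∈ R, ∀ y ∈ R, ω x y = 0) (hpN : ∀ m, R ⊓ Level N m ≤ R.map (N ^ m))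
    (hp : ∀ m, R ⊓ range ((g - 1) ^ m) ≤ R.map ((g - 1) ^ m)) : IsHalfSum l (finrank K R) := by
  obtain ⟨d, hd⟩ := hl.2.1
  have hlm : ∀ m, Level (g - 1) (m + 1) ≤ Level (g - 1) m := fun m =>
    level_anti (g - 1) (Nat.le_succ m)
  set c : ℕ → ℕ := fun m => finrank K (R ⊓ Level (g - 1) m : Submodule K V) -
    finrank K (R ⊓ Level (g - 1) (m + 1) : Submodule K V) with hc
  have hcz : ∀ m, (c m : ℤ) = (finrank K (R ⊓ Level (g - 1) m : Submodule K V) : ℤ) -
      finrank K (R ⊓ Level (g - 1) (m + 1) : Submodule K V) := by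
    intro m
    have h1 := Submodule.finrank_mono (inf_le_inf_left R (hlm m))
    rw [hc]
    simp only
    omega
  have h1 := finrank_pure hd hR hp
  have h2 : finrank K R = ∑ m ∈ Finset.range d, (m + 1) * c m := by
    have h3 : (finrank K R : ℤ) = ((∑ m ∈ Finset.range d, (m + 1) * c m : ℕ) : ℤ) := by
      rw [h1]
      push_cast
      refine Finset.sum_congr rfl fun m _ => ?_
      rw [hcz]
    exact_mod_cast h3
  rw [h2]
  refine halfSum_of c d fun m => ?_
  have h3 := h.half hiso hpN m
  rw [hlev, hlev] at h3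
  have h4 := count_level hl m
  have h5 := hcz m
  omega

end counts

end Run7.h293.LM
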