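import Pool.Agent.Run7.h293.LM.L13

/-!
# The theorems on the semisimplicity
-/

set_option autoImplicit false
set_option linter.unusedSectionVars false
set_option linter.unusedVariables false

namespace Run7.h293.LM

open NumberField IsDedekindDomain Polynomial Module Pool.Agent.Y114.GF Pool.Agent.Y114.MU
  Pool.Agent.N978.JT

variable {F : Type} [Field F] [NumberField F] {Γ : Type} [Group Γ] {ℓ : ℕ} [hℓ : Fact ℓ.Prime]
  {w : ℕ} {Y : Type} [AddCommGroup Y] [Module ℚ_[ℓ] Y] [FiniteDimensional ℚ_[ℓ] Y] {V : PolarizedRep F Γ ℓ w Y}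

/-- The orthogonal complement. -/
def PolarizedRep.orth (V : PolarizedRep F Γ ℓ w Y) (U : Submodule ℚ_[ℓ] Y) :
    Submodule ℚ_[ℓ] Y where
  carrier := {x | ∀ y ∈ U, V.ω x y = 0}
  add_mem' := fun {a b} ha hb y hy => by
    rw [map_add, LinearMap.add_apply, ha y hy, hb y hy, add_zero]
  zero_mem' := fun y _ => by rw [map_zero, LinearMap.zero_apply]
  smul_mem' := fun c a ha y hy => by
    rw [map_smul, LinearMap.smul_apply, ha y hy, smul_zero]

/-- Stable under the Galois group of `F`. -/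
def StF (V : PolarizedRep F Γ ℓ w Y) (U : Submodule ℚ_[ℓ] Y) : Prop :=
  ∀ g, ∀ x ∈ U, V.act g x ∈ U

theorem lev_eq (T : End ℚ_[ℓ] Y) (m : ℕ) : lev T m = Level T m := rfl

theorem above_ne {p : ℕ} (hp : p.Prime ∧ p ≠ ℓ ∧ UnramifiedIn F p)
    {v : HeightOneSpectrum (𝓞 F)} (hv : Above v p) : ¬ Above v ℓ :=
  not_above_of_ne hp.1 hℓ.out hp.2.1 hv

theorem pure_of_controlled (h3 : V.ThreeGood) {E : Set (End ℚ_[ℓ] Y)}
    (hE : V.Coefficients E) {p : ℕ} {v : HeightOneSpectrum (𝓞 F)}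
    {Q : Ideal (𝓞 (AlgebraicClosure F))} {τ : Gal(AlgebraicClosure F/F)}
    (hc : V.Controlled E p v Q τ) {U : Submodule ℚ_[ℓ] Y} (hU : StF V U)
    (hUE : ∀ f ∈ E, ∀ x ∈ U, f x ∈ U) (m : ℕ) :
    U ⊓ LinearMap.range ((V.act τ - 1) ^ m) ≤ U.map ((V.act τ - 1) ^ m) := by
  obtain ⟨T, hT3, hT⟩ := h3
  obtain ⟨hp, hv, e, he, ⟨hm, hyp⟩, hall⟩ := hc
  exact pure_global V he hT3 hT hp hE hall hU hUE hv hm hyp m

theorem T_stable {U : Submodule ℚ_[ℓ] Y} (hU : StF V U)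
    (τ : Gal(AlgebraicClosure F/F)) : ∀ x ∈ U, (V.act τ - 1) x ∈ U := by
  intro x hx
  rw [LinearMap.sub_apply, Module.End.one_apply]
  exact Submodule.sub_mem _ (hU τ x hx) hx

theorem map_le_inf {T : End ℚ_[ℓ] Y} {U : Submodule ℚ_[ℓ] Y}
    (hU : ∀ x ∈ U, T x ∈ U) (m : ℕ) : U.map (T ^ m) ≤ U ⊓ LinearMap.range (T ^ m) := by
  have hUp : ∀ j, ∀ x ∈ U, (T ^ j) x ∈ U := by
    intro j
    induction j with
    | zero => intro x hx; exact hx
    | succ j ih =>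
      intro x hx
      rw [pow_succ', Module.End.mul_apply]
      exact hU _ (ih x hx)
  rintro _ ⟨x, hx, rfl⟩
  exact ⟨hUp m x hx, x, rfl⟩

/-- Purity for the logarithm. -/
theorem pureN {τ : Gal(AlgebraicClosure F/F)} (hτ : IsNilpotent (V.act τ - 1))
    {u : End ℚ_[ℓ] Y}
    (hu : u ∈ Algebra.adjoin ℚ_[ℓ] ({V.act τ - 1} : Set (End ℚ_[ℓ] Y)))
    {R : Submodule ℚ_[ℓ] Y}
    (hp : ∀ m, R ⊓ LinearMap.range ((V.act τ - 1) ^ m) ≤ R.map ((V.act τ - 1) ^ m)) (m : ℕ) :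
    R ⊓ Level ((V.act τ - 1) * (1 + (V.act τ - 1) * u)) m ≤
      R.map (((V.act τ - 1) * (1 + (V.act τ - 1) * u)) ^ m) := by
  rintro x ⟨hx, hx2⟩
  rw [level_eq_lev hτ hu] at hx2
  obtain ⟨y, hy, hyx⟩ := hp m ⟨hx, hx2.2⟩
  refine ⟨y, hy, ?_⟩
  rw [pow_eq_of_ker hu, hyx]
  rw [pow_succ', Module.End.mul_apply, hyx]
  exact hx2.1

/-- The radical of a stable subspace. -/
theorem orth_stable {E : Set (End ℚ_[ℓ] Y)} (hE : V.Coefficients E) {H : Subgroup Γ}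
    {U : Submodule ℚ_[ℓ] Y} (hU : V.StableUnder H U)
    (hUE : ∀ f ∈ E, ∀ x ∈ U, f x ∈ U) :
    V.StableUnder H (V.orth U) ∧ ∀ f ∈ E, ∀ x ∈ V.orth U, f x ∈ V.orth U := by
  refine ⟨fun g hg x hx y hy => ?_, fun f hf x hx y hy => ?_⟩
  · have h1 := V.sim g x (V.ρ g⁻¹ y)
    have h2 : V.ρ g (V.ρ g⁻¹ y) = y := by
      rw [← Module.End.mul_apply, ← map_mul, mul_inv_cancel, map_one, Module.End.one_apply]
    rw [h2, hx _ (hU g⁻¹ (H.inv_mem hg) y hy), mul_zero] at h1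
    exact h1
  · obtain ⟨f', hf', h1⟩ := hE.adjoint f hf
    rw [h1]
    exact hx _ (hUE f' hf' y hy)

theorem symm_zero {x y : Y} (h : V.ω x y = 0) : V.ω y x = 0 := by
  rcases V.symm with hs | hs
  · rw [hs, h]
  · rw [hs, h, neg_zero]

theorem stF_of_top {U : Submodule ℚ_[ℓ] Y} (hU : V.StableUnder ⊤ U) : StF V U :=
  fun g x hx => hU (V.θ g) trivial x hx

/-- No isotropic subspaces in the graded pieces: all stable subspaces are nondegenerate. -/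
theorem nondeg_of_anisotropic (h3 : V.ThreeGood) {E : Set (End ℚ_[ℓ] Y)}
    (hE : V.Coefficients E) {p : ℕ} {v : HeightOneSpectrum (𝓞 F)}
    {Q : Ideal (𝓞 (AlgebraicClosure F))} {τ : Gal(AlgebraicClosure F/F)}
    (hc : V.Controlled E p v Q τ) (ha : V.Anisotropic E v Q τ)
    {U : Submodule ℚ_[ℓ] Y} (hU : V.StableUnder ⊤ U)
    (hUE : ∀ f ∈ E, ∀ x ∈ U, f x ∈ U) : U ⊓ V.orth U = ⊥ := by
  obtain ⟨ho, hoE⟩ := orth_stable hE hU hUE
  have hR : V.StableUnder ⊤ (U ⊓ V.orth U) := fun g hg x hx =>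
    ⟨hU g hg x hx.1, ho g hg x hx.2⟩
  have hRE : ∀ f ∈ E, ∀ x ∈ U ⊓ V.orth U, f x ∈ U ⊓ V.orth U := fun f hf x hx =>
    ⟨hUE f hf x hx.1, hoE f hf x hx.2⟩
  have hp := fun m => pure_of_controlled h3 hE hc (stF_of_top hR) hRE m
  obtain ⟨hp', hv, e, he, ⟨hm, -⟩, -⟩ := hc
  obtain ⟨u, hu, hloc, -⟩ := exists_loc hE hm (above_ne hp' hv)
  have hno := noIso_of hm hu ha
  have hT := T_stable (stF_of_top hR) τ
  have hNmem : (V.act τ - 1) * (1 + (V.act τ - 1) * u) ∈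
      Algebra.adjoin ℚ_[ℓ] ({V.act τ - 1} : Set (End ℚ_[ℓ] Y)) :=
    mul_mem (Algebra.self_mem_adjoin_singleton _ _) (add_mem (one_mem _)
      (mul_mem (Algebra.self_mem_adjoin_singleton _ _) hu))
  refine hloc.iso_bot hno ⟨adjoin_stable hT hNmem, ?_⟩ (fun x hx y hy => ?_) (pureN hm.unipotent hu hp)
  · rintro g (⟨g, -, rfl⟩ | hg)
    · exact stF_of_top hR g
    · exact hRE g hg
  · exact hx.2 y hy.1

theorem orth_eq_perp (U : Submodule ℚ_[ℓ] Y) : V.orth U = perp V.ω U := rfl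

theorem orth_isCompl {U : Submodule ℚ_[ℓ] Y} (h : U ⊓ V.orth U = ⊥) :
    IsCompl U (V.orth U) := isCompl_perp V.nondeg h

theorem semi_iff {H : Subgroup Γ} : V.SemisimpleUnder H ↔ Semi V.ρ H := Iff.rfl

theorem semisimple_of_nondeg {E : Set (End ℚ_[ℓ] Y)} (hE : V.Coefficients E)
    (h : ∀ U, V.StableUnder ⊤ U → (∀ f ∈ E, ∀ x ∈ U, f x ∈ U) → U ⊓ V.orth U = ⊥)
    (H : Subgroup Γ) (hH : H.FiniteIndex) : V.SemisimpleUnder H := by
  have h1 : Semi V.ρ (⊤ : Subgroup Γ) := by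
    refine semi_of_coeff V.ρ E hE.comm fun S hS hSE => ⟨V.orth S, ?_, orth_isCompl (h S hS hSE)⟩
    exact (orth_stable hE hS hSE).1
  exact semi_finiteIndex V.ρ h1 H

theorem coefficients_empty : V.Coefficients ∅ :=
  ⟨fun f hf => absurd hf (Set.notMem_empty f), fun f hf => absurd hf (Set.notMem_empty f)⟩

/-- Different Jordan blocks: the graded pieces are anisotropic. -/
theorem anisotropic_of_nodup {e : ℕ} {v : HeightOneSpectrum (𝓞 F)}
    {Q : Ideal (𝓞 (AlgebraicClosure F))} {τ : Gal(AlgebraicClosure F/F)}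
    (hm : V.Monodromy e v Q τ) (hv : ¬ Above v ℓ) {l : Multiset ℕ} (hl : HasBlocks (V.act τ) l)
    (hnd : l.Nodup) : V.Anisotropic ∅ v Q τ := by
  obtain ⟨u, hu, hloc, -⟩ := exists_loc coefficients_empty hm hv
  have hlev := level_eq_lev hm.unipotent hu
  have hmf : ∀ m, finrank ℚ_[ℓ] (Level ((V.act τ - 1) * (1 + (V.act τ - 1) * u)) m) ≤
      finrank ℚ_[ℓ] (Level ((V.act τ - 1) * (1 + (V.act τ - 1) * u)) (m + 1)) + 1 := by
    intro m
    rw [hlev, hlev, lev_eq, lev_eq, count_level hl m]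
    have := Multiset.nodup_iff_count_le_one.1 hnd (m + 1)
    omega
  have hno := hloc.noIso hmf
  intro m A h1 h2 h3 h4 h5
  rw [← hlev] at h1 h2 ⊢
  refine hno m A h1 h2 ?_ ?_
  · rintro g (⟨g, hg, rfl⟩ | hg)
    · exact h3 g hg
    · exact h4 g hg
  · intro x hx y hy
    have h6 : ((V.act τ - 1) ^ (m + 1)) y = 0 := by
      have h7 := (h2 hy).1
      have h8 : y ∈ LinearMap.ker (((V.act τ - 1) * (1 + (V.act τ - 1) * u)) ^ (m + 1)) := by
        rw [LinearMap.mem_ker, pow_succ', Module.End.mul_apply]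
        exact h7
      obtain ⟨h9, h10⟩ := factor_pow hu (m + 1)
      rw [h9, h10, LinearMap.mem_ker, Module.End.mul_apply] at h8
      have hun := (unit_factor hm.unipotent hu).pow (m + 1)
      exact ((Module.End.isUnit_iff _).1 hun).1 (by rw [h8, map_zero])
    refine h5 x hx y ?_
    rw [← pow_eq_of_ker hu h6]
    exact hy

end Run7.h293.LM
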