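import Pool.Agent.Run7.h293.LM.L14

/-!
# Subgroups of finite index
-/

set_option autoImplicit false
set_option linter.unusedSectionVars false
set_option linter.unusedVariables false

namespace Run7.h293.LM

open NumberField IsDedekindDomain Polynomial Module Pool.Agent.Y114.GF Pool.Agent.Y114.MU
  Pool.Agent.N978.JT

variable {F : Type} [Field F] [NumberField F] {Γ : Type} [Group Γ] {ℓ : ℕ} [hℓ : Fact ℓ.Prime]
  {w : ℕ} {Y : Type} [AddCommGroup Y] [Module ℚ_[ℓ] Y] [FiniteDimensional ℚ_[ℓ] Y] {V : PolarizedRep F Γ ℓ w Y}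

theorem mem_commutant {H : Subgroup Γ} {f : End ℚ_[ℓ] Y} :
    f ∈ V.commutant H ↔ ∀ g ∈ H, V.ρ g * f = f * V.ρ g := by
  unfold PolarizedRep.commutant
  rw [Subalgebra.mem_centralizer_iff]
  constructor
  · intro h g hg
    exact h _ ⟨g, hg, rfl⟩
  · rintro h _ ⟨g, hg, rfl⟩
    exact h g hg

theorem exists_pow (V : PolarizedRep F Γ ℓ w Y) (H : Subgroup Γ) (hH : H.FiniteIndex)
    (τ : Gal(AlgebraicClosure F/F)) : ∃ M, 0 < M ∧ ∃ g ∈ H, V.ρ g = V.act τ ^ M := by
  obtain ⟨M, hM0, -, hM⟩ := Subgroup.exists_pow_mem_of_index_ne_zero hH.index_ne_zero (V.θ τ)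
  refine ⟨M, hM0, _, hM, ?_⟩
  unfold PolarizedRep.act
  rw [map_pow]

theorem pow_sub_one_pow {g : End ℚ_[ℓ] Y} {m M : ℕ} (h : (g - 1) ^ m = 0) :
    (g ^ M - 1) ^ m = 0 := by
  have h6 : g ^ M - 1 = (g - 1) * ∑ l ∈ Finset.range M, g ^ l := (mul_geom_sum g M).symm
  have hc : Commute (g - 1) (∑ l ∈ Finset.range M, g ^ l) := by
    refine Commute.sum_right _ _ _ fun l _ => ?_
    exact ((Commute.refl g).pow_right l).sub_left (Commute.one_left _)
  rw [h6, hc.mul_pow, h, zero_mul]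

section one

variable {m : ℕ} {g N : End ℚ_[ℓ] Y} (hm : (g - 1) ^ (m + 2) = 0)
  (hN : lgA (m + 2) (g - 1) 1 = N) {M : ℕ} (hM : 0 < M)

include hm hN hM in
theorem comm_of_comm_pow {f : End ℚ_[ℓ] Y} (hf : g ^ M * f = f * g ^ M) :
    f * N = N * f := by
  have h2 := pow_sub_one_pow (M := M) hm
  have h3 := lgA_qpow (q := M) (by omega) hm h2
  have h4 : f * (g ^ M - 1) = (g ^ M - 1) * f := by
    rw [mul_sub, sub_mul, hf, mul_one, one_mul]
  have h5 := comm_lgA h4 (m + 2) 1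
  rw [h3, hN, mul_smul_comm, smul_mul_assoc] at h5
  have hM0 : (M : ℚ_[ℓ]) ≠ 0 := Nat.cast_ne_zero.2 hM.ne'
  exact smul_right_injective _ hM0 h5

include hm hN hM in
theorem stable_of_stable_pow {U : Submodule ℚ_[ℓ] Y}
    (hU : ∀ x ∈ U, (g ^ M) x ∈ U) : ∀ x ∈ U, N x ∈ U := by
  have h2 := pow_sub_one_pow (M := M) hm
  have h3 := lgA_qpow (q := M) (by omega) hm h2
  have h4 : ∀ x ∈ U, (g ^ M - 1) x ∈ U := by
    intro x hx
    rw [LinearMap.sub_apply, Module.End.one_apply]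
    exact Submodule.sub_mem _ (hU x hx) hx
  obtain ⟨u, hu, hlg⟩ := lg_factor (k := ℚ_[ℓ]) m (g ^ M - 1)
  have h5 : lgA (m + 2) (g ^ M - 1) 1 ∈
      Algebra.adjoin ℚ_[ℓ] ({g ^ M - 1} : Set (End ℚ_[ℓ] Y)) := by
    rw [hlg]
    exact mul_mem (Algebra.self_mem_adjoin_singleton _ _) (add_mem (one_mem _)
      (mul_mem (Algebra.self_mem_adjoin_singleton _ _) hu))
  intro x hx
  have h6 := adjoin_stable h4 h5 x hx
  rw [h3, hN, LinearMap.smul_apply] at h6
  have hM0 : (M : ℚ_[ℓ]) ≠ 0 := Nat.cast_ne_zero.2 hM.ne'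
  have h7 := Submodule.smul_mem U (M : ℚ_[ℓ])⁻¹ h6
  rwa [smul_smul, inv_mul_cancel₀ hM0, one_smul] at h7

end one

theorem pure_of_compl {N : End ℚ_[ℓ] Y} {U U' : Submodule ℚ_[ℓ] Y}
    (hU : ∀ x ∈ U, N x ∈ U) (hU' : ∀ x ∈ U', N x ∈ U') (hc : IsCompl U U') (m : ℕ) :
    U ⊓ LinearMap.range (N ^ m) ≤ U.map (N ^ m) := by
  have hp : ∀ (W : Submodule ℚ_[ℓ] Y), (∀ x ∈ W, N x ∈ W) →
      ∀ j, ∀ x ∈ W, (N ^ j) x ∈ W := by
    intro W hW j
    induction j with
    | zero => intro x hx; exact hx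
    | succ j ih =>
      intro x hx
      rw [pow_succ', Module.End.mul_apply]
      exact hW _ (ih x hx)
  rintro x ⟨hx, y, rfl⟩
  obtain ⟨a, ha, b, hb, hab⟩ := Submodule.mem_sup.1
    (show y ∈ U ⊔ U' by rw [hc.sup_eq_top]; trivial)
  have h1 : (N ^ m) b ∈ U ⊓ U' := by
    refine ⟨?_, hp U' hU' m b hb⟩
    have h2 : (N ^ m) b = (N ^ m) y - (N ^ m) a := by
      rw [← map_sub, ← hab, add_sub_cancel_left]
    change (N ^ m) b ∈ U
    rw [h2]
    exact Submodule.sub_mem _ hx (hp U hU m a ha)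
  rw [hc.inf_eq_bot, Submodule.mem_bot] at h1
  exact ⟨a, ha, by rw [← hab, map_add, h1, add_zero]⟩

/-- The adjoint of an endomorphism which commutes with `H`. -/
theorem exists_adjoint {H : Subgroup Γ} {f : End ℚ_[ℓ] Y} (hf : f ∈ V.commutant H) :
    ∃ f' ∈ V.commutant H, ∀ x y, V.ω (f x) y = V.ω x (f' y) := by
  have hinj : Function.Injective V.ω.flip := by
    rw [← LinearMap.ker_eq_bot, eq_bot_iff]
    intro x hx
    rw [LinearMap.mem_ker] at hx
    exact V.nondeg _ fun v => LinearMap.congr_fun hx v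
  let e : Y ≃ₗ[ℚ_[ℓ]] Dual ℚ_[ℓ] Y :=
    LinearEquiv.ofInjectiveOfFinrankEq V.ω.flip hinj Subspace.dual_finrank_eq.symm
  have he : ∀ y x, e y x = V.ω x y := fun y x => rfl
  let f' : End ℚ_[ℓ] Y := e.symm.toLinearMap ∘ₗ f.dualMap ∘ₗ e.toLinearMap
  have hf' : ∀ x y, V.ω x (f' y) = V.ω (f x) y := by
    intro x y
    rw [← he]
    change e (e.symm (f.dualMap (e y))) x = _
    rw [LinearEquiv.apply_symm_apply]
    rfl
  refine ⟨f', ?_, fun x y => (hf' x y).symm⟩
  rw [mem_commutant] at hf ⊢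
  intro g hg
  refine LinearMap.ext fun y => ?_
  rw [Module.End.mul_apply, Module.End.mul_apply]
  have key : ∀ x, V.ω x (V.ρ g (f' y)) = V.ω x (f' (V.ρ g y)) := by
    intro x
    have h1 := V.sim g (V.ρ g⁻¹ x) (f' y)
    have h2 : V.ρ g (V.ρ g⁻¹ x) = x := by
      rw [← Module.End.mul_apply, ← map_mul, mul_inv_cancel, map_one, Module.End.one_apply]
    rw [h2, hf'] at h1
    rw [h1, hf', ← V.sim]
    congr 1
    have h3 := congrArg (fun X : End ℚ_[ℓ] Y => X (V.ρ g⁻¹ x)) (hf g hg)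
    simp only [Module.End.mul_apply] at h3
    rw [h3, h2]
  have h1 : V.ρ g (f' y) - f' (V.ρ g y) = 0 := V.nondeg _ fun x => by
    rw [map_sub, key, sub_self]
  exact sub_eq_zero.1 h1

/-- The commutant in the multiplicity free case. -/
theorem com_of_nodup {e : ℕ} {v : HeightOneSpectrum (𝓞 F)}
    {Q : Ideal (𝓞 (AlgebraicClosure F))} {τ : Gal(AlgebraicClosure F/F)}
    (hm : V.Monodromy e v Q τ) (hv : ¬ Above v ℓ) {l : Multiset ℕ} (hl : HasBlocks (V.act τ) l)
    (hnd : l.Nodup) (H : Subgroup Γ) (hH : H.FiniteIndex) (hs : V.SemisimpleUnder H) :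
    ∃ N, Com N V.ω (V.commutant H) ∧ finrank ℚ_[ℓ] (LinearMap.ker N) = l.card ∧
      ∀ U, V.StableUnder H U → (∀ x ∈ U, N x ∈ U) := by
  obtain ⟨u, hu, ⟨m, hm0, hlg⟩, hloc, -⟩ := exists_loc' coefficients_empty hm hv
  obtain ⟨M, hM, g, hg, hgM⟩ := exists_pow V H hH τ
  have hlev := level_eq_lev hm.unipotent hu
  have hst : ∀ U, V.StableUnder H U →
      (∀ x ∈ U, ((V.act τ - 1) * (1 + (V.act τ - 1) * u)) x ∈ U) := by
    intro U hU
    refine stable_of_stable_pow hm0 hlg hM fun x hx => ?_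
    rw [← hgM]
    exact hU g hg x hx
  have hkerst : ∀ f ∈ V.commutant H, V.StableUnder H (LinearMap.ker f) := by
    intro f hf a ha x hx
    rw [LinearMap.mem_ker] at hx ⊢
    have h1 := congrArg (fun X : End ℚ_[ℓ] Y => X x) (mem_commutant.1 hf a ha)
    simp only [Module.End.mul_apply] at h1
    rw [← h1, hx, map_zero]
  have hrst : ∀ f ∈ V.commutant H, V.StableUnder H (LinearMap.range f) := by
    rintro f hf a ha _ ⟨x, rfl⟩
    have h1 := congrArg (fun X : End ℚ_[ℓ] Y => X x) (mem_commutant.1 hf a ha)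
    exact ⟨V.ρ a x, h1.symm⟩
  refine ⟨(V.act τ - 1) * (1 + (V.act τ - 1) * u), ⟨?_, ?_, ?_, ?_, ?_, ?_⟩, ?_, hst⟩
  · exact ⟨hloc.nil, fun f hf => absurd hf (Set.notMem_empty f), hloc.nondeg, hloc.symm, hloc.skew,
      fun f hf => absurd hf (Set.notMem_empty f)⟩
  · intro r
    rw [hlev, hlev, lev_eq, lev_eq, count_level hl r]
    have := Multiset.nodup_iff_count_le_one.1 hnd (r + 1)
    omega
  · intro f hf
    refine comm_of_comm_pow hm0 hlg hM ?_
    rw [← hgM]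
    exact mem_commutant.1 hf g hg
  · intro f hf
    exact exists_adjoint hf
  · intro f hf
    obtain ⟨K, hK, hc⟩ := hs _ (hkerst f hf)
    exact ⟨K, hst K hK, hc⟩
  · intro f hf r
    obtain ⟨K, hK, hc⟩ := hs _ (hrst f hf)
    have h1 := pure_of_compl (hst _ (hrst f hf)) (hst K hK) hc r
    exact (inf_le_inf_left _ inf_le_right).trans h1
  · have h1 : LinearMap.ker ((V.act τ - 1) * (1 + (V.act τ - 1) * u)) =
        LinearMap.ker (V.act τ - 1) := by
      have h2 := hlev 0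
      rw [level_zero, lev_eq, level_zero] at h2
      exact h2
    rw [h1]
    have h2 := hl.2.2 1
    rw [pow_one] at h2
    rw [h2]
    have h3 : ∀ l : Multiset ℕ, 0 ∉ l → kerDims l 1 = l.card := by
      intro l
      induction l using Multiset.induction_on with
      | empty => intro _; simp [kerDims]
      | cons a l ih =>
        intro h0
        unfold kerDims at ih ⊢
        rw [Multiset.map_cons, Multiset.sum_cons, Multiset.card_cons,
          ih fun h => h0 (Multiset.mem_cons_of_mem h)]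
        have ha : a ≠ 0 := by
          rintro rfl
          exact h0 (Multiset.mem_cons_self 0 l)
        have : min a 1 = 1 := by omega
        omega
    exact h3 l hl.1

/-- Stable subspaces under subgroups of finite index are nondegenerate. -/
theorem nondeg_of_com {N : End ℚ_[ℓ] Y} {H : Subgroup Γ}
    (hcom : Com N V.ω (V.commutant H)) (hst : ∀ U, V.StableUnder H U → (∀ x ∈ U, N x ∈ U))
    (hs : V.SemisimpleUnder H) {U : Submodule ℚ_[ℓ] Y} (hU : V.StableUnder H U) :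
    U ⊓ V.orth U = ⊥ := by
  obtain ⟨ho, -⟩ := orth_stable (E := ∅) coefficients_empty hU fun f hf => absurd hf (Set.notMem_empty f)
  have hR : V.StableUnder H (U ⊓ V.orth U) := fun g hg x hx =>
    ⟨hU g hg x hx.1, ho g hg x hx.2⟩
  obtain ⟨R', hR', hc⟩ := hs _ hR
  refine hcom.loc.iso_bot (hcom.loc.noIso hcom.mf) ⟨hst _ hR, fun f hf => absurd hf
    (Set.notMem_empty f)⟩ (fun x hx y hy => hx.2 y hy.1) fun m => ?_
  exact (inf_le_inf_left _ inf_le_right).trans (pure_of_compl (hst _ hR) (hst _ hR') hc m)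

end Run7.h293.LM
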