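import Pool.Agent.Run7.h293.LM.L15

/-!
# Jordan types at several primes
-/

set_option autoImplicit false
set_option linter.unusedSectionVars false
set_option linter.unusedVariables false

namespace Run7.h293.LM

open NumberField IsDedekindDomain Polynomial Module Pool.Agent.Y114.GF Pool.Agent.Y114.MU
  Pool.Agent.N978.JT

theorem blocks_pow {K V : Type} [Field K] [CharZero K] [AddCommGroup V] [Module K V]
    [FiniteDimensional K V] {g : End K V}
    {l : Multiset ℕ} (h : HasBlocks g l) {m : ℕ} (hm : 0 < m) : HasBlocks (g ^ m) l := by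
  refine ⟨h.1, ?_, fun j => ?_⟩
  · obtain ⟨k, hk⟩ := h.2.1
    refine ⟨k, ?_⟩
    have h1 := t_PW K V g h.2.1 m hm k
    rw [hk, LinearMap.ker_zero] at h1
    exact LinearMap.ker_eq_top.1 h1
  · rw [t_PW K V g h.2.1 m hm j, h.2.2 j]

variable {F : Type} [Field F] [NumberField F] {Γ : Type} [Group Γ] {ℓ : ℕ} [hℓ : Fact ℓ.Prime]
  {w : ℕ} {Y : Type} [AddCommGroup Y] [Module ℚ_[ℓ] Y] [FiniteDimensional ℚ_[ℓ] Y] {V : PolarizedRep F Γ ℓ w Y}

/-- The dimension of an isotropic stable subspace is a half sum. -/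
theorem halfSum_of_stable (h3 : V.ThreeGood) {E : Set (End ℚ_[ℓ] Y)}
    (hE : V.Coefficients E) {p : ℕ} {v : HeightOneSpectrum (𝓞 F)}
    {Q : Ideal (𝓞 (AlgebraicClosure F))} {τ : Gal(AlgebraicClosure F/F)}
    (hc : V.Controlled E p v Q τ) {l : Multiset ℕ} (hl : HasBlocks (V.act τ) l)
    {R : Submodule ℚ_[ℓ] Y} (hR : StF V R) (hRE : ∀ f ∈ E, ∀ x ∈ R, f x ∈ R)
    (hiso : ∀ x ∈ R, ∀ y ∈ R, V.ω x y = 0) : IsHalfSum l (finrank ℚ_[ℓ] R) := by
  have hp := fun m => pure_of_controlled h3 hE hc hR hRE m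
  obtain ⟨hp', hv, e, he, ⟨hm, -⟩, -⟩ := hc
  obtain ⟨u, hu, hloc, -⟩ := exists_loc hE hm (above_ne hp' hv)
  have hlev := level_eq_lev hm.unipotent hu
  have hloc0 : Loc ((V.act τ - 1) * (1 + (V.act τ - 1) * u)) ∅ V.ω :=
    ⟨hloc.nil, fun f hf => absurd hf (Set.notMem_empty f), hloc.nondeg, hloc.symm, hloc.skew,
      fun f hf => absurd hf (Set.notMem_empty f)⟩
  exact halfSum_of_isotropic hloc0 hl hlev (T_stable hR τ) hiso (pureN hm.unipotent hu hp) hp

/-- The dimension of a stable subspace is the sum of a part of the list of the block sizes. -/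
theorem partSum_of_pure {K V : Type} [Field K] [AddCommGroup V] [Module K V]
    [FiniteDimensional K V] {g : End K V} {l : Multiset ℕ} (hl : HasBlocks g l)
    {U : Submodule K V} (hU : ∀ x ∈ U, (g - 1) x ∈ U)
    (hp : ∀ m, U ⊓ LinearMap.range ((g - 1) ^ m) ≤ U.map ((g - 1) ^ m)) :
    IsPartSum l (finrank K U) := by
  obtain ⟨d, hd⟩ := hl.2.1
  have hlm : ∀ m, Level (g - 1) (m + 1) ≤ Level (g - 1) m := fun m =>
    level_anti (g - 1) (Nat.le_succ m)
  set c : ℕ → ℕ := fun m => finrank K (U ⊓ Level (g - 1) m : Submodule K V) -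
    finrank K (U ⊓ Level (g - 1) (m + 1) : Submodule K V) with hc
  have hcz : ∀ m, (c m : ℤ) = (finrank K (U ⊓ Level (g - 1) m : Submodule K V) : ℤ) -
      finrank K (U ⊓ Level (g - 1) (m + 1) : Submodule K V) := by
    intro m
    have h1 := Submodule.finrank_mono (inf_le_inf_left U (hlm m))
    rw [hc]
    simp only
    omega
  have h1 := finrank_pure hd hU hp
  have h2 : finrank K U = ∑ m ∈ Finset.range d, (m + 1) * c m := by
    have h3 : (finrank K U : ℤ) = ((∑ m ∈ Finset.range d, (m + 1) * c m : ℕ) : ℤ) := by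
      rw [h1]
      push_cast
      refine Finset.sum_congr rfl fun m _ => ?_
      rw [hcz]
    exact_mod_cast h3
  rw [h2]
  refine ⟨∑ m ∈ Finset.range d, Multiset.replicate (c m) (m + 1), ?_, sum_list c d⟩
  have hcl : ∀ m, c m ≤ l.count (m + 1) := by
    intro m
    have h3 := finrank_diff_le (X := (⊤ : Submodule K V)) (X' := U) le_top (hlm m)
    rw [top_inf_eq, top_inf_eq] at h3
    have h4 := count_level hl m
    have h5 := hcz m
    omega
  rw [Multiset.le_iff_count]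
  intro a
  rw [count_list]
  cases a with
  | zero => simp
  | succ a =>
    by_cases ha : a < d
    · rw [Finset.sum_eq_single a]
      · rw [if_pos rfl]
        exact hcl a
      · intro b _ hb
        rw [if_neg (by omega)]
      · intro h
        exact absurd (Finset.mem_range.2 ha) h
    · rw [Finset.sum_eq_zero]
      · simp
      · intro b hb
        rw [Finset.mem_range] at hb
        rw [if_neg (by omega)]

section several

variable (h3 : V.ThreeGood) {κ : Type} {p : κ → ℕ} {v : κ → HeightOneSpectrum (𝓞 F)}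
  {Q : κ → Ideal (𝓞 (AlgebraicClosure F))} {τ : κ → Gal(AlgebraicClosure F/F)}
  {l : κ → Multiset ℕ} {E : Set (End ℚ_[ℓ] Y)} (hE : V.Coefficients E)
  (hc : ∀ c, V.Controlled E (p c) (v c) (Q c) (τ c)) (hl : ∀ c, HasBlocks (V.act (τ c)) (l c))

include h3 hE hc hl in
theorem nondeg_of_types
    (hs : ∀ d, 0 < d → 2 * d ≤ finrank ℚ_[ℓ] Y → ∃ c, ¬ IsHalfSum (l c) d)
    {U : Submodule ℚ_[ℓ] Y} (hU : V.StableUnder ⊤ U)
    (hUE : ∀ f ∈ E, ∀ x ∈ U, f x ∈ U) : U ⊓ V.orth U = ⊥ := by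
  obtain ⟨ho, hoE⟩ := orth_stable hE hU hUE
  have hR : V.StableUnder ⊤ (U ⊓ V.orth U) := fun g hg x hx =>
    ⟨hU g hg x hx.1, ho g hg x hx.2⟩
  have hRE : ∀ f ∈ E, ∀ x ∈ U ⊓ V.orth U, f x ∈ U ⊓ V.orth U := fun f hf x hx =>
    ⟨hUE f hf x hx.1, hoE f hf x hx.2⟩
  have hiso : ∀ x ∈ U ⊓ V.orth U, ∀ y ∈ U ⊓ V.orth U, V.ω x y = 0 :=
    fun x hx y hy => hx.2 y hy.1
  by_contra hne
  have h1 : 0 < finrank ℚ_[ℓ] (U ⊓ V.orth U : Submodule ℚ_[ℓ] Y) := by
    rw [Nat.pos_iff_ne_zero]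
    intro h0
    exact hne (Submodule.finrank_eq_zero.1 h0)
  have h2 : 2 * finrank ℚ_[ℓ] (U ⊓ V.orth U : Submodule ℚ_[ℓ] Y) ≤
      finrank ℚ_[ℓ] Y := by
    have h4 := finrank_perp V.nondeg (U ⊓ V.orth U)
    have h5 : U ⊓ V.orth U ≤ perp V.ω (U ⊓ V.orth U) := fun x hx y hy => hiso x hx y hy
    have h6 := Submodule.finrank_mono h5
    omega
  obtain ⟨c, hc'⟩ := hs _ h1 h2
  exact hc' (halfSum_of_stable h3 hE (hc c) (hl c) (stF_of_top hR) hRE hiso)

theorem IsHalfSum.isPartSum {l : Multiset ℕ} {d : ℕ} (h : IsHalfSum l d) : IsPartSum l d := by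
  obtain ⟨l', hl', hs⟩ := h
  exact ⟨l', le_trans (Multiset.le_add_right l' l') hl', hs⟩

end several

section irr

variable (h3 : V.ThreeGood) {κ : Type} {p : κ → ℕ} {v : κ → HeightOneSpectrum (𝓞 F)}
  {Q : κ → Ideal (𝓞 (AlgebraicClosure F))} {τ : κ → Gal(AlgebraicClosure F/F)}
  {l : κ → Multiset ℕ}
  (hc : ∀ c, V.Controlled ∅ (p c) (v c) (Q c) (τ c)) (hl : ∀ c, HasBlocks (V.act (τ c)) (l c))

include h3 hc hl in
theorem scalars_of_types
    (hs : ∀ d, 0 < d → d < finrank ℚ_[ℓ] Y → ∃ c, ¬ IsPartSum (l c) d) (H : Subgroup Γ) (hH : H.FiniteIndex) :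
    V.SemisimpleUnder H ∧ (∀ U, V.StableUnder H U → U = ⊥ ∨ U = ⊤) ∧
      ∀ f ∈ V.commutant H, ∃ b : ℚ_[ℓ], ∀ x, f x = b • x := by
  have hs' : ∀ d, 0 < d → 2 * d ≤ finrank ℚ_[ℓ] Y → ∃ c, ¬ IsHalfSum (l c) d := by
    intro d hd hd2
    obtain ⟨c, hc'⟩ := hs d hd (by omega)
    exact ⟨c, fun h => hc' h.isPartSum⟩
  have hss : V.SemisimpleUnder H := semisimple_of_nondeg coefficients_empty
    (fun U hU hUE => nondeg_of_types h3 coefficients_empty hc hl hs' hU hUE) H hH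
  set A : Set (End ℚ_[ℓ] Y) := {X | ∃ g ∈ H, X = V.ρ g} with hA
  have hsA : SemiA A := by
    intro U hU
    obtain ⟨U', hU', hcU⟩ := hss U fun g hg x hx => hU _ ⟨g, hg, rfl⟩ x hx
    refine ⟨U', ?_, hcU⟩
    rintro _ ⟨g, hg, rfl⟩ x hx
    exact hU' g hg x hx
  have hex : ∀ c, ∃ M, 0 < M ∧ ∃ g ∈ H, V.ρ g = V.act (τ c) ^ M := fun c => exists_pow V H hH (τ c)
  choose M hM g hg hgM using hex
  have hl' : ∀ c, HasBlocks (V.ρ (g c)) (l c) := fun c => by
    rw [hgM]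
    exact blocks_pow (hl c) (hM c)
  have hs'' : ∀ d, 0 < d → d < finrank ℚ_[ℓ] Y → ∃ c, ¬ IsPartSum (l c) d := hs
  refine ⟨hss, fun U hU => ?_, fun f hf => ?_⟩
  · refine irreducible hsA (g := fun c => V.ρ (g c)) (fun c => ⟨g c, hg c, rfl⟩) hl' hs'' U ?_
    rintro _ ⟨g, hg, rfl⟩ x hx
    exact hU g hg x hx
  · refine scalar hsA (g := fun c => V.ρ (g c)) (fun c => ⟨g c, hg c, rfl⟩) hl' hs'' f ?_
    rintro _ ⟨g, hg, rfl⟩
    exact mem_commutant.1 hf g hg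

end irr

/-- The statement for Jordan blocks of different sizes. -/
theorem nodup_main (h3 : V.ThreeGood) {p : ℕ} {v : HeightOneSpectrum (𝓞 F)}
    {Q : Ideal (𝓞 (AlgebraicClosure F))} {τ : Gal(AlgebraicClosure F/F)}
    (hc : V.Controlled ∅ p v Q τ) {l : Multiset ℕ} (hl : HasBlocks (V.act τ) l) (hnd : l.Nodup)
    (H : Subgroup Γ) (hH : H.FiniteIndex) :
    V.SemisimpleUnder H ∧ (∀ U, V.StableUnder H U → U ⊓ V.orth U = ⊥) ∧
    (∀ f ∈ V.commutant H, (∀ x y, V.ω (f x) y = V.ω x (f y)) ∧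
      (∃ s : Finset ℚ_[ℓ], aeval f (∏ a ∈ s, (X - C a)) = 0) ∧
      ∀ g ∈ V.commutant H, f * g = g * f) ∧
    finrank ℚ_[ℓ] (V.commutant H) ≤ l.card := by
  obtain ⟨hp', hv, e, he, ⟨hm, -⟩, -⟩ := id hc
  have hvℓ := above_ne hp' hv
  have ha := anisotropic_of_nodup hm hvℓ hl hnd
  have hs : V.SemisimpleUnder H := semisimple_of_nondeg coefficients_empty
    (fun U hU hUE => nondeg_of_anisotropic h3 coefficients_empty hc ha hU hUE) H hH
  obtain ⟨N, hcom, hfr, hst⟩ := com_of_nodup hm hvℓ hl hnd H hH hs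
  refine ⟨hs, fun U hU => nondeg_of_com hcom hst hs hU, fun f hf => ⟨fun x y =>
    hcom.selfAdjoint hf x y, hcom.split hf, fun g hg => hcom.commutative hf hg⟩, ?_⟩
  rw [← hfr]
  exact hcom.finrank_le

end Run7.h293.LM
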