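import Pool.Agent.Run7.h293.LM.L1

/-!
# The weight inequality for the stable subspaces
-/

set_option autoImplicit false
set_option linter.unusedSectionVars false
set_option linter.unusedVariables false

namespace Run7.h293.LM

open Module

variable {k V : Type*} [Field k] [AddCommGroup V] [Module k V] [FiniteDimensional k V]

theorem finrank_diff_le {X X' L L' : Submodule k V} (hX : X' ≤ X) (hL : L' ≤ L) :
    (finrank k (X' ⊓ L : Submodule k V) : ℤ) - finrank k (X' ⊓ L' : Submodule k V) ≤
      finrank k (X ⊓ L : Submodule k V) - finrank k (X ⊓ L' : Submodule k V) := by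
  have h1 := Submodule.finrank_sup_add_finrank_inf_eq (X' ⊓ L) (X ⊓ L')
  have h2 : (X' ⊓ L) ⊓ (X ⊓ L') = X' ⊓ L' := by
    apply le_antisymm
    · exact fun x hx => ⟨hx.1.1, hx.2.2⟩
    · exact fun x hx => ⟨⟨hx.1, hL hx.2⟩, ⟨hX hx.1, hx.2⟩⟩
  have h3 : (X' ⊓ L) ⊔ (X ⊓ L') ≤ X ⊓ L :=
    sup_le (inf_le_inf_right _ hX) (inf_le_inf_left _ hL)
  have h4 := Submodule.finrank_mono h3
  rw [h2] at h1
  omega

/-- The differences of the dimensions of the levels of the image of a subspace. -/
noncomputable def cc (N : End k V) (U : Submodule k V) (i m : ℕ) : ℤ :=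
  (finrank k (U.map (N ^ i) ⊓ Level N m : Submodule k V) : ℤ) -
    finrank k (U.map (N ^ i) ⊓ Level N (m + 1) : Submodule k V)

section

variable {N : End k V} {U : Submodule k V} (hNU : ∀ x ∈ U, N x ∈ U)

include hNU in
theorem map_pow_anti (i : ℕ) : U.map (N ^ (i + 1)) ≤ U.map (N ^ i) := by
  rintro x ⟨y, hy, rfl⟩
  exact ⟨N y, hNU y hy, by rw [pow_succ, Module.End.mul_apply]⟩

include hNU in
theorem cc_anti (i m : ℕ) : cc N U (i + 1) m ≤ cc N U i m :=
  finrank_diff_le (map_pow_anti hNU i) (level_anti N (Nat.le_succ m))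

theorem cc_zero_of_lt {i m : ℕ} (h : m < i) : cc N U i m = 0 := by
  unfold cc
  have h1 : U.map (N ^ i) ⊓ Level N m = U.map (N ^ i) ⊓ Level N (m + 1) := by
    apply le_antisymm
    · rintro x ⟨hx, hx2⟩
      refine ⟨hx, (mem_level.1 hx2).1, ?_⟩
      obtain ⟨y, -, hy⟩ := hx
      exact range_pow_anti N (show m + 1 ≤ i by omega) ⟨y, hy⟩
    · exact inf_le_inf_left _ (level_anti N (Nat.le_succ m))
  rw [h1, sub_self]

theorem cc_nonneg (i m : ℕ) : 0 ≤ cc N U i m := by
  unfold cc
  have h1 : Level N (m + 1) ≤ Level N m := level_anti N (Nat.le_succ m)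
  have := Submodule.finrank_mono (inf_le_inf_left (U.map (N ^ i)) h1)
  omega

theorem sum_cc {d : ℕ} (hN : N ^ d = 0) (i r : ℕ) (hr : r ≤ d) :
    (finrank k (U.map (N ^ i) ⊓ Level N r : Submodule k V) : ℤ) =
      ∑ m ∈ Finset.Ico r d, cc N U i m := by
  unfold cc
  rw [Finset.sum_Ico_eq_sum_range]
  have h1 : ∀ t : ℕ, ∑ x ∈ Finset.range t,
      ((finrank k (U.map (N ^ i) ⊓ Level N (r + x) : Submodule k V) : ℤ) -
        finrank k (U.map (N ^ i) ⊓ Level N (r + x + 1) : Submodule k V)) =
      (finrank k (U.map (N ^ i) ⊓ Level N r : Submodule k V) : ℤ) -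
        finrank k (U.map (N ^ i) ⊓ Level N (r + t) : Submodule k V) := by
    intro t
    induction t with
    | zero => simp
    | succ t ih => rw [Finset.sum_range_succ, ih, ← add_assoc]; ring
  rw [h1, show r + (d - r) = d by omega, level_eq_bot hN le_rfl, inf_bot_eq, finrank_bot]
  simp

end

section core

variable {N : End k V} {d : ℕ} (hN : N ^ d = 0) (P : Submodule k V → Prop)
  (z : Submodule k V → ℝ) (w : ℝ)
  (hPN : ∀ A, P A → ∀ x ∈ A, N x ∈ A)
  (hPmap : ∀ A, P A → P (A.map N))
  (hPlev : ∀ A, P A → ∀ m, P (A ⊓ Level N m))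
  (hz0 : z ⊥ = 0)
  (hz1 : ∀ A, P A → z A = z (A ⊓ Level N 0) + z (A.map N) - 2 * finrank k (A.map N))
  (hz3 : ∀ m A, P A → A ≤ Level N m → z A = z (A ⊓ Level N (m + 1)) +
    ((m : ℝ) - w) * ((finrank k A : ℝ) - finrank k (A ⊓ Level N (m + 1) : Submodule k V)))
  {U : Submodule k V} (hU : P U)

theorem finrank_map_add (A : Submodule k V) :
    finrank k A = finrank k (A ⊓ Level N 0 : Submodule k V) + finrank k (A.map N) := by
  have h1 := LinearMap.finrank_range_add_finrank_ker (N.domRestrict A)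
  have h2 : LinearMap.range (N.domRestrict A) = A.map N := by
    rw [LinearMap.range_domRestrict]
  have h3 : finrank k (LinearMap.ker (N.domRestrict A)) =
      finrank k (A ⊓ Level N 0 : Submodule k V) := by
    rw [level_zero]
    have h4 : (LinearMap.ker (N.domRestrict A)).map A.subtype = A ⊓ LinearMap.ker N := by
      ext x
      simp only [Submodule.mem_map, LinearMap.mem_ker, Submodule.mem_inf]
      constructor
      · rintro ⟨y, hy, rfl⟩
        exact ⟨y.2, hy⟩
      · rintro ⟨hx, hx2⟩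
        exact ⟨⟨x, hx⟩, hx2, rfl⟩
    rw [← h4]
    exact (LinearEquiv.finrank_eq (Submodule.equivMapOfInjective A.subtype
      A.injective_subtype _)).symm.symm
  rw [← h1, h2, h3, add_comm]

include hPmap hU in
theorem P_map_pow (i : ℕ) : P (U.map (N ^ i)) := by
  induction i with
  | zero =>
    rw [pow_zero]
    have : U.map (1 : End k V) = U := Submodule.map_id U
    rw [this]
    exact hU
  | succ i ih =>
    have h1 := hPmap _ ih
    rw [← Submodule.map_comp] at h1
    have h2 : N ∘ₗ (N ^ i) = N ^ (i + 1) := by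
      rw [pow_succ']
      rfl
    rwa [h2] at h1

include hN hPlev hz0 hz3 in
theorem z_level (A : Submodule k V) (hA : P A) :
    z (A ⊓ Level N 0) = ∑ m ∈ Finset.range d, ((m : ℝ) - w) *
      ((finrank k (A ⊓ Level N m : Submodule k V) : ℝ) -
        finrank k (A ⊓ Level N (m + 1) : Submodule k V)) := by
  have key : ∀ r, z (A ⊓ Level N 0) = ∑ m ∈ Finset.range r, ((m : ℝ) - w) *
      ((finrank k (A ⊓ Level N m : Submodule k V) : ℝ) -
        finrank k (A ⊓ Level N (m + 1) : Submodule k V)) + z (A ⊓ Level N r) := by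
    intro r
    induction r with
    | zero => simp
    | succ r ih =>
      rw [ih, Finset.sum_range_succ, hz3 r _ (hPlev A hA r) inf_le_right]
      have h1 : A ⊓ Level N r ⊓ Level N (r + 1) = A ⊓ Level N (r + 1) := by
        rw [inf_assoc, inf_eq_right.2 (level_anti N (Nat.le_succ r))]
      rw [h1]
      ring
  rw [key d, level_eq_bot hN le_rfl, inf_bot_eq, hz0, add_zero]

include hN hPmap hPlev hz0 hz1 hz3 hU in
theorem z_formula :
    z U + w * finrank k U = ((∑ m ∈ Finset.range d, ∑ i ∈ Finset.range d,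
      ((m : ℤ) - 2 * i) * cc N U i m : ℤ) : ℝ) := by
  have hfr : ∀ r, (finrank k U : ℝ) = ∑ i ∈ Finset.range r,
      (finrank k (U.map (N ^ i) ⊓ Level N 0 : Submodule k V) : ℝ) +
        finrank k (U.map (N ^ r)) := by
    intro r
    induction r with
    | zero =>
      rw [pow_zero]
      have : U.map (1 : End k V) = U := Submodule.map_id U
      rw [this]
      simp
    | succ r ih =>
      rw [ih, Finset.sum_range_succ]
      have h1 := finrank_map_add (N := N) (U.map (N ^ r))
      rw [← Submodule.map_comp] at h1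
      have h2 : N ∘ₗ (N ^ r) = N ^ (r + 1) := by
        rw [pow_succ']
        rfl
      rw [h2] at h1
      rw [h1]
      push_cast
      ring
  have hzr : ∀ r, z U = ∑ i ∈ Finset.range r, (z (U.map (N ^ i) ⊓ Level N 0) - 2 * i *
      finrank k (U.map (N ^ i) ⊓ Level N 0 : Submodule k V)) +
        (z (U.map (N ^ r)) - 2 * r * finrank k (U.map (N ^ r))) := by
    intro r
    induction r with
    | zero =>
      rw [pow_zero]
      have : U.map (1 : End k V) = U := Submodule.map_id U
      rw [this]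
      simp
    | succ r ih =>
      rw [ih, Finset.sum_range_succ]
      have h1 := finrank_map_add (N := N) (U.map (N ^ r))
      have h0 := hz1 _ (P_map_pow P hPmap hU r)
      rw [← Submodule.map_comp] at h1 h0
      have h2 : N ∘ₗ (N ^ r) = N ^ (r + 1) := by
        rw [pow_succ']
        rfl
      rw [h2] at h1 h0
      rw [h0, h1]
      push_cast
      ring
  have hbot : U.map (N ^ d) = ⊥ := by
    rw [hN]
    exact Submodule.map_zero U
  have h1 := hzr d
  have h2 := hfr d
  rw [hbot, finrank_bot] at h1 h2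
  rw [hz0] at h1
  have h3 : ∀ i, (finrank k (U.map (N ^ i) ⊓ Level N 0 : Submodule k V) : ℝ) =
      ∑ m ∈ Finset.range d, (cc N U i m : ℝ) := by
    intro i
    have h4 := sum_cc (U := U) hN i 0 (Nat.zero_le d)
    rw [Finset.range_eq_Ico]
    exact_mod_cast h4
  have h4 : ∀ i, z (U.map (N ^ i) ⊓ Level N 0) =
      ∑ m ∈ Finset.range d, ((m : ℝ) - w) * (cc N U i m : ℝ) := by
    intro i
    rw [z_level hN P z w hPlev hz0 hz3 _ (P_map_pow P hPmap hU i)]
    refine Finset.sum_congr rfl fun m _ => ?_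
    unfold cc
    push_cast
    ring
  rw [h1, h2]
  push_cast
  rw [Finset.sum_comm]
  simp only [mul_zero, sub_zero, add_zero]
  rw [Finset.mul_sum, ← Finset.sum_add_distrib]
  refine Finset.sum_congr rfl fun i _ => ?_
  rw [h3, h4, Finset.mul_sum, Finset.mul_sum, ← Finset.sum_sub_distrib, ← Finset.sum_add_distrib]
  refine Finset.sum_congr rfl fun m _ => ?_
  ring

theorem inner_eq (hd : True) {m : ℕ} (hm : m < d) :
    ∑ i ∈ Finset.range d, ((m : ℤ) - 2 * i) * cc N U i m =
      ∑ i ∈ Finset.range (m + 1), ((m : ℤ) - 2 * i) * cc N U i m := by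
  symm
  refine Finset.sum_subset (Finset.range_subset_range.2 (by omega)) fun i _ hi => ?_
  rw [Finset.mem_range, not_lt] at hi
  rw [cc_zero_of_lt (by omega), mul_zero]

include hN hPN hPmap hPlev hz0 hz1 hz3 hU in
theorem z_nonneg : 0 ≤ z U + w * finrank k U := by
  rw [z_formula hN P z w hPmap hPlev hz0 hz1 hz3 hU]
  have : 0 ≤ ∑ m ∈ Finset.range d, ∑ i ∈ Finset.range d, ((m : ℤ) - 2 * i) * cc N U i m := by
    refine Finset.sum_nonneg fun m hm => ?_
    rw [inner_eq trivial (Finset.mem_range.1 hm)]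
    exact cheb_nonneg m (fun i => cc N U i m) (fun i => cc_anti (hPN U hU) i m)
  exact_mod_cast this

include hN hPN hPmap hPlev hz0 hz1 hz3 hU in
theorem z_integral : ∃ e : ℤ, 0 ≤ e ∧ z U + w * finrank k U = e := by
  refine ⟨_, ?_, z_formula hN P z w hPmap hPlev hz0 hz1 hz3 hU⟩
  refine Finset.sum_nonneg fun m hm => ?_
  rw [inner_eq trivial (Finset.mem_range.1 hm)]
  exact cheb_nonneg m (fun i => cc N U i m) (fun i => cc_anti (hPN U hU) i m)

include hN hPN hPmap hPlev hz0 hz1 hz3 hU in
theorem level_le_of_z (h : z U + w * finrank k U ≤ 0) (m : ℕ) :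
    U ⊓ Level N m ≤ U.map (N ^ m) := by
  rw [z_formula hN P z w hPmap hPlev hz0 hz1 hz3 hU] at h
  have h0 : ∑ m ∈ Finset.range d, ∑ i ∈ Finset.range d, ((m : ℤ) - 2 * i) * cc N U i m ≤ 0 := by
    exact_mod_cast h
  have h1 : ∀ m ∈ Finset.range d, 0 ≤ ∑ i ∈ Finset.range d, ((m : ℤ) - 2 * i) * cc N U i m := by
    intro m hm
    rw [inner_eq trivial (Finset.mem_range.1 hm)]
    exact cheb_nonneg m (fun i => cc N U i m) (fun i => cc_anti (hPN U hU) i m)
  have h2 := (Finset.sum_eq_zero_iff_of_nonneg h1).1 (le_antisymm h0 (Finset.sum_nonneg h1))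
  have h3 : ∀ m, m < d → cc N U m m = cc N U 0 m := by
    intro m hm
    have h4 := h2 m (Finset.mem_range.2 hm)
    rw [inner_eq trivial hm] at h4
    exact cheb_eq m (fun i => cc N U i m) (fun i => cc_anti (hPN U hU) i m) h4.le
  have hanti : ∀ m, Antitone fun i => cc N U i m := fun m =>
    antitone_nat_of_succ_le fun i => cc_anti (hPN U hU) i m
  by_cases hm : d ≤ m
  · rw [level_eq_bot hN hm, inf_bot_eq]
    exact bot_le
  rw [not_le] at hm
  have h4 : ∀ x ∈ Finset.Ico m d, cc N U m x = cc N U 0 x := by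
    intro x hx
    rw [Finset.mem_Ico] at hx
    have h5 := hanti x (show m ≤ x from hx.1)
    have h6 := hanti x (Nat.zero_le m)
    have h7 := h3 x hx.2
    simp only at h5 h6
    omega
  have h5 := sum_cc (U := U) hN m m hm.le
  have h6 := sum_cc (U := U) hN 0 m hm.le
  rw [Finset.sum_congr rfl h4, ← h6] at h5
  rw [pow_zero] at h5
  have h7 : U.map (1 : End k V) = U := Submodule.map_id U
  rw [h7] at h5
  have hle : U.map (N ^ m) ≤ U := by
    have : ∀ j, U.map (N ^ j) ≤ U := by
      intro j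
      induction j with
      | zero => rw [pow_zero]; exact h7.le
      | succ j ih => exact (map_pow_anti (hPN U hU) j).trans ih
    exact this m
  have h8 : U.map (N ^ m) ⊓ Level N m = U ⊓ Level N m := by
    apply Submodule.eq_of_le_of_finrank_le (inf_le_inf_right _ hle)
    omega
  rw [← h8]
  exact inf_le_left

end core

end Run7.h293.LM
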