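import Pool.Agent.Run7.h293.LM.L2

/-!
# Determinants on stable subspaces
-/

set_option autoImplicit false
set_option linter.unusedSectionVars false
set_option linter.unusedVariables false

namespace Run7.h293.LM

open Module

variable {k V : Type*} [Field k] [AddCommGroup V] [Module k V] [FiniteDimensional k V]

theorem sub_stab {F : End k V} {A B : Submodule k V} (hA : A ≤ A.comap F) (hB : B ≤ B.comap F) :
    B.submoduleOf A ≤ (B.submoduleOf A).comap (F.restrict hA) := by
  intro x hx
  exact hB hx

/-- The determinant on a stable subspace and on the quotient by a smaller one. -/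
theorem det_sub (F : End k V) {A B : Submodule k V} (hA : A ≤ A.comap F) (hB : B ≤ B.comap F)
    (hBA : B ≤ A) :
    LinearMap.det (F.restrict hA) = LinearMap.det (F.restrict hB) *
      LinearMap.det ((B.submoduleOf A).mapQ (B.submoduleOf A) (F.restrict hA) (sub_stab hA hB)) := by
  rw [LinearMap.det_eq_det_mul_det (B.submoduleOf A) (F.restrict hA) (sub_stab hA hB)]
  congr 1
  let e : B.submoduleOf A ≃ₗ[k] B := Submodule.submoduleOfEquivOfLe hBA
  rw [← LinearMap.det_conj ((F.restrict hA).restrict (sub_stab hA hB)) e]
  congr 1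

/-- The determinant on the image under the monodromy operator. -/
theorem det_map {F N : End k V} {q : k} (hq : q ≠ 0) (hFN : F * N = q • (N * F))
    {A : Submodule k V} (hA : A ≤ A.comap F) (hB : A ⊓ Level N 0 ≤ (A ⊓ Level N 0).comap F)
    (hC : A.map N ≤ (A.map N).comap F) :
    LinearMap.det (F.restrict hA) = LinearMap.det (F.restrict hB) *
      ((q⁻¹) ^ finrank k (A.map N) * LinearMap.det (F.restrict hC)) := by
  rw [det_sub F hA hB inf_le_left, ← LinearMap.det_smul]
  congr 1
  have hker : LinearMap.ker (N.submoduleMap A) = (A ⊓ Level N 0).submoduleOf A := by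
    ext x
    change _ ↔ x.1 ∈ A ⊓ Level N 0
    rw [LinearMap.mem_ker, level_zero, Submodule.mem_inf, LinearMap.mem_ker]
    constructor
    · intro h
      exact ⟨x.2, congrArg Subtype.val h⟩
    · intro h
      exact Subtype.ext h.2
  let e : (A ⧸ (A ⊓ Level N 0).submoduleOf A) ≃ₗ[k] A.map N :=
    (Submodule.quotEquivOfEq _ _ hker.symm).trans
      ((N.submoduleMap A).quotKerEquivOfSurjective (N.submoduleMap_surjective A))
  rw [← LinearMap.det_conj _ e]
  congr 1
  refine LinearMap.ext fun y => ?_
  obtain ⟨x, rfl⟩ := N.submoduleMap_surjective A y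
  have h1 : e.symm (N.submoduleMap A x) = Submodule.Quotient.mk x := by
    rw [LinearEquiv.symm_apply_eq]
    rfl
  simp only [LinearMap.comp_apply, LinearEquiv.coe_coe]
  rw [h1, Submodule.mapQ_apply]
  apply Subtype.ext
  change N (F x.1) = q⁻¹ • F (N x.1)
  have h2 : F (N x.1) = q • N (F x.1) := congrArg (fun T : End k V => T x.1) hFN
  rw [h2, smul_smul, inv_mul_cancel₀ hq, one_smul]

/-- The determinant of a similitude. -/
theorem det_sq_of_form {M : Type*} [AddCommGroup M] [Module k M] [FiniteDimensional k M]
    (B : M →ₗ[k] M →ₗ[k] k) (hB : ∀ x, (∀ y, B x y = 0) → x = 0) (g : End k M) (c : k)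
    (hg : ∀ x y, B (g x) (g y) = c * B x y) : LinearMap.det g ^ 2 = c ^ finrank k M := by
  classical
  let b := Module.finBasis k M
  set T := LinearMap.toMatrix₂ b b B with hT
  set G := LinearMap.toMatrix b b g with hG
  have h1 : G.transpose * T * G = c • T := by
    have h2 : B.compl₁₂ g g = c • B := by
      refine LinearMap.ext fun x => LinearMap.ext fun y => ?_
      rw [LinearMap.compl₁₂_apply, hg, LinearMap.smul_apply, LinearMap.smul_apply, smul_eq_mul]
    have h3 := LinearMap.toMatrix₂_compl₁₂ b b b b B g g
    rw [← h3, h2, map_smul]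
  have hT0 : T.det ≠ 0 := by
    intro h0
    have h4 := Matrix.exists_mulVec_eq_zero_iff.2 (show T.transpose.det = 0 by rwa [Matrix.det_transpose])
    obtain ⟨v, hv, hv0⟩ := h4
    apply hv
    have h5 : b.equivFun.symm v = 0 := by
      apply hB
      intro y
      have h6 : ∀ i, B (b.equivFun.symm v) (b i) = 0 := by
        intro i
        have h7 := congrFun hv0 i
        rw [Matrix.mulVec, Pi.zero_apply] at h7
        rw [Basis.equivFun_symm_apply, map_sum, LinearMap.sum_apply, ← h7, dotProduct]
        refine Finset.sum_congr rfl fun l _ => ?_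
        rw [map_smul, LinearMap.smul_apply, smul_eq_mul, Matrix.transpose_apply, hT,
          LinearMap.toMatrix₂_apply, mul_comm]
      rw [← b.sum_repr y, map_sum]
      refine Finset.sum_eq_zero fun i _ => ?_
      rw [map_smul, h6, smul_zero]
    exact (LinearEquiv.map_eq_zero_iff _).1 h5
  have h2 := congrArg Matrix.det h1
  rw [Matrix.det_mul, Matrix.det_mul, Matrix.det_transpose, Matrix.det_smul, Fintype.card_fin] at h2
  rw [← LinearMap.det_toMatrix b g, ← hG]
  apply mul_right_cancel₀ hT0
  linear_combination h2

section logs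

variable (q : ℝ) (j : k →+* ℂ) (F : End k V)

open Classical in
/-- The logarithm of the absolute value of the square of the determinant on a stable subspace. -/
noncomputable def zF (A : Submodule k V) : ℝ :=
  if h : A ≤ A.comap F then Real.logb q (‖j (LinearMap.det (F.restrict h))‖ ^ 2) else 0

variable {q j F}

theorem zF_eq {A : Submodule k V} (h : A ≤ A.comap F) :
    zF q j F A = Real.logb q (‖j (LinearMap.det (F.restrict h))‖ ^ 2) := by
  unfold zF
  rw [dif_pos h]

theorem det_ne (hF : Function.Injective F) {A : Submodule k V} (h : A ≤ A.comap F) :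
    LinearMap.det (F.restrict h) ≠ 0 := by
  have h1 : Function.Injective (F.restrict h) := by
    intro x y hxy
    exact Subtype.ext (hF (congrArg Subtype.val hxy))
  exact (LinearMap.isUnit_det _ ((Module.End.isUnit_iff _).2
    ⟨h1, LinearMap.injective_iff_surjective.1 h1⟩)).ne_zero

theorem zF_bot : zF q j F ⊥ = 0 := by
  have h : (⊥ : Submodule k V) ≤ (⊥ : Submodule k V).comap F := bot_le
  rw [zF_eq h]
  have h1 : LinearMap.det (F.restrict h) = 1 := by
    apply LinearMap.det_eq_one_of_subsingleton
  rw [h1, map_one, norm_one, one_pow, Real.logb_one]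

end logs

end Run7.h293.LM
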