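import Pool.Agent.Run7.h293.LM.L3

/-!
# Local data: monodromy operator, Frobenius, form
-/

set_option autoImplicit false
set_option linter.unusedSectionVars false
set_option linter.unusedVariables false

namespace Run7.h293.LM

open Module

variable {k V : Type*} [Field k] [AddCommGroup V] [Module k V]

/-- The monodromy operator `N`, the operators `𝒟` of the decomposition group (and possibly of a ring of
coefficients), a form. -/
structure Loc (N : End k V) (𝒟 : Set (End k V)) (ω : V →ₗ[k] V →ₗ[k] k) : Prop where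
  nil : IsNilpotent N
  comm : ∀ g ∈ 𝒟, ∃ a : k, a ≠ 0 ∧ g * N = a • (N * g)
  nondeg : ∀ u, (∀ v, ω v u = 0) → u = 0
  symm : ∃ ε : k, ε ≠ 0 ∧ ∀ u v, ω u v = ε * ω v u
  skew : ∀ x y, ω (N x) y = - ω x (N y)
  adj : ∀ g ∈ 𝒟, ∃ g' ∈ 𝒟, ∃ c : k, ∀ x y, ω (g x) y = c * ω x (g' y)

/-- Stability under `N` and `𝒟`. -/
def Stb (N : End k V) (𝒟 : Set (End k V)) (A : Submodule k V) : Prop :=
  (∀ x ∈ A, N x ∈ A) ∧ ∀ g ∈ 𝒟, ∀ x ∈ A, g x ∈ A

/-- The graded pieces of the kernel of `N` have no isotropic stable subspaces. -/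
def NoIso (N : End k V) (𝒟 : Set (End k V)) (ω : V →ₗ[k] V →ₗ[k] k) : Prop :=
  ∀ (m : ℕ) (A : Submodule k V), Level N (m + 1) ≤ A → A ≤ Level N m →
    (∀ g ∈ 𝒟, ∀ x ∈ A, g x ∈ A) → (∀ x ∈ A, ∀ y, (N ^ m) y ∈ A → ω x y = 0) →
      A = Level N (m + 1)

section

variable {N : End k V} {𝒟 : Set (End k V)} {ω : V →ₗ[k] V →ₗ[k] k} (h : Loc N 𝒟 ω)

include h in
theorem Loc.comm_pow {g : End k V} (hg : g ∈ 𝒟) (m : ℕ) :
    ∃ a : k, a ≠ 0 ∧ ∀ x, g ((N ^ m) x) = a • (N ^ m) (g x) := by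
  obtain ⟨a, ha, hgN⟩ := h.comm g hg
  refine ⟨a ^ m, pow_ne_zero _ ha, ?_⟩
  induction m with
  | zero => intro x; simp
  | succ m ih =>
    intro x
    have h1 : ∀ y, g (N y) = a • N (g y) := fun y => congrArg (fun T : End k V => T y) hgN
    have e1 : (N ^ (m + 1)) x = (N ^ m) (N x) := by rw [pow_succ, Module.End.mul_apply]
    have e2 : (N ^ (m + 1)) (g x) = (N ^ m) (N (g x)) := by rw [pow_succ, Module.End.mul_apply]
    rw [e1, e2, ih, h1, map_smul, smul_smul, ← pow_succ]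

include h in
theorem Loc.level_stb (m : ℕ) : Stb N 𝒟 (Level N m) := by
  refine ⟨fun x hx => ?_, fun g hg x hx => ?_⟩
  · rw [(mem_level.1 hx).1]
    exact Submodule.zero_mem _
  · obtain ⟨h0, y, rfl⟩ := mem_level.1 hx
    obtain ⟨a, ha, h1⟩ := h.comm_pow hg m
    obtain ⟨b, hb, h2⟩ := h.comm g hg
    refine mem_level.2 ⟨?_, a • g y, ?_⟩
    · have h3 : g (N ((N ^ m) y)) = b • N (g ((N ^ m) y)) :=
        congrArg (fun T : End k V => T ((N ^ m) y)) h2
      rw [h0, map_zero] at h3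
      exact (smul_eq_zero.1 h3.symm).resolve_left hb
    · rw [map_smul, h1]

theorem Stb.inf {A B : Submodule k V} (hA : Stb N 𝒟 A) (hB : Stb N 𝒟 B) : Stb N 𝒟 (A ⊓ B) :=
  ⟨fun x hx => ⟨hA.1 x hx.1, hB.1 x hx.2⟩, fun g hg x hx => ⟨hA.2 g hg x hx.1, hB.2 g hg x hx.2⟩⟩

include h in
theorem Loc.stb_map {A : Submodule k V} (hA : Stb N 𝒟 A) : Stb N 𝒟 (A.map N) := by
  refine ⟨?_, ?_⟩
  · rintro _ ⟨x, hx, rfl⟩
    exact ⟨N x, hA.1 x hx, rfl⟩
  · rintro g hg _ ⟨x, hx, rfl⟩
    obtain ⟨a, ha, h1⟩ := h.comm g hg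
    refine ⟨a • g x, Submodule.smul_mem _ _ (hA.2 g hg x hx), ?_⟩
    rw [map_smul]
    exact (congrArg (fun T : End k V => T x) h1).symm

include h in
theorem Loc.skew_pow (m : ℕ) : ∀ x y, ω ((N ^ m) x) y = (-1) ^ m * ω x ((N ^ m) y) := by
  induction m with
  | zero => intro x y; simp
  | succ m ih =>
    intro x y
    have e1 : (N ^ (m + 1)) x = (N ^ m) (N x) := by rw [pow_succ, Module.End.mul_apply]
    have e2 : (N ^ (m + 1)) y = N ((N ^ m) y) := by rw [pow_succ', Module.End.mul_apply]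
    rw [e1, e2, ih, h.skew, pow_succ]
    ring

include h in
theorem Loc.range_ker {m : ℕ} {x y : V} (hx : x ∈ LinearMap.range (N ^ m)) (hy : (N ^ m) y = 0) :
    ω x y = 0 := by
  obtain ⟨z, rfl⟩ := hx
  rw [h.skew_pow, hy, map_zero, mul_zero]

include h in
theorem Loc.form_wd {m : ℕ} {x y y' : V} (hx : x ∈ LinearMap.range (N ^ m))
    (hy : (N ^ m) y = (N ^ m) y') : ω x y = ω x y' := by
  have h1 := h.range_ker hx (y := y - y') (by rw [map_sub, hy, sub_self])
  rw [map_sub] at h1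
  exact sub_eq_zero.1 h1

include h in
theorem Loc.level_succ_left {m : ℕ} {x y : V} (hx : x ∈ Level N (m + 1))
    (hy : (N ^ m) y ∈ LinearMap.ker N) : ω x y = 0 := by
  refine h.range_ker (mem_level.1 hx).2 ?_
  rw [pow_succ', Module.End.mul_apply]
  exact hy

include h in
theorem Loc.level_succ_right {m : ℕ} {x y : V} (hx : x ∈ Level N m)
    (hy : (N ^ m) y ∈ Level N (m + 1)) : ω x y = 0 := by
  obtain ⟨-, z, hz⟩ := mem_level.1 hy
  rw [h.form_wd (mem_level.1 hx).2 (y' := N z) (by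
    rw [← hz, pow_succ, Module.End.mul_apply])]
  obtain ⟨ε, hε, hs⟩ := h.symm
  rw [hs, h.skew, (mem_level.1 hx).1, map_zero, neg_zero, mul_zero]

/-- The radical of the form on a part of a level. -/
def radA (N : End k V) (ω : V →ₗ[k] V →ₗ[k] k) (m : ℕ) (A : Submodule k V) : Submodule k V where
  carrier := {x | x ∈ A ∧ ∀ y, (N ^ m) y ∈ A → ω x y = 0}
  add_mem' := fun {a b} ha hb => ⟨Submodule.add_mem _ ha.1 hb.1, fun y hy => by
    rw [map_add, LinearMap.add_apply, ha.2 y hy, hb.2 y hy, add_zero]⟩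
  zero_mem' := ⟨Submodule.zero_mem _, fun y _ => by rw [map_zero, LinearMap.zero_apply]⟩
  smul_mem' := fun c a ha => ⟨Submodule.smul_mem _ _ ha.1, fun y hy => by
    rw [map_smul, LinearMap.smul_apply, ha.2 y hy, smul_zero]⟩

include h in
theorem Loc.radA_le (hno : NoIso N 𝒟 ω) {m : ℕ} {A : Submodule k V} (hA : Stb N 𝒟 A)
    (hAm : A ≤ Level N m) : radA N ω m A ≤ Level N (m + 1) := by
  have hRA : radA N ω m A ≤ A := fun x hx => hx.1
  have h1 := hno m (radA N ω m A ⊔ Level N (m + 1)) le_sup_right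
    (sup_le (hRA.trans hAm) (level_anti N (Nat.le_succ m))) (by
      intro g hg x hx
      obtain ⟨r, hr, l, hl, rfl⟩ := Submodule.mem_sup.1 hx
      rw [map_add]
      refine Submodule.add_mem_sup ⟨hA.2 g hg r hr.1, ?_⟩ ((h.level_stb (m + 1)).2 g hg l hl)
      intro y hy
      obtain ⟨g', hg', c, hc⟩ := h.adj g hg
      rw [hc]
      obtain ⟨a, ha, h2⟩ := h.comm_pow hg' m
      have h3 : (N ^ m) (g' y) ∈ A := by
        have h4 := hA.2 g' hg' _ hy
        rw [h2] at h4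
        have h5 := Submodule.smul_mem A a⁻¹ h4
        rwa [smul_smul, inv_mul_cancel₀ ha, one_smul] at h5
      rw [hr.2 _ h3, mul_zero]) (by
      intro x hx y hy
      obtain ⟨r, hr, l, hl, rfl⟩ := Submodule.mem_sup.1 hx
      obtain ⟨r', hr', l', hl', hrl⟩ := Submodule.mem_sup.1 hy
      rw [map_add, LinearMap.add_apply]
      have hyl : (N ^ m) y ∈ LinearMap.ker N := by
        rw [← hrl]
        exact Submodule.add_mem _ (hAm hr'.1).1 hl'.1
      rw [h.level_succ_left hl hyl, add_zero]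
      obtain ⟨r'', hr''⟩ := (hAm hr'.1).2
      have h2 : (N ^ m) (y - r'') ∈ Level N (m + 1) := by
        rw [map_sub, hr'', ← hrl, add_sub_cancel_left]
        exact hl'
      have h3 := h.level_succ_right (hAm hr.1) h2
      rw [map_sub, hr.2 r'' (by rw [hr'']; exact hr'.1), sub_zero] at h3
      exact h3)
  rw [← h1]
  exact le_sup_left

/-- An isotropic pure stable subspace is zero. -/
theorem Loc.iso_bot (h : Loc N 𝒟 ω) (hno : NoIso N 𝒟 ω) {R : Submodule k V} (hR : Stb N 𝒟 R)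
    (hiso : ∀ x ∈ R, ∀ y ∈ R, ω x y = 0) (hp : ∀ m, R ⊓ Level N m ≤ R.map (N ^ m)) : R = ⊥ := by
  obtain ⟨d, hd⟩ := h.nil
  have key : ∀ m, R ⊓ Level N m ≤ Level N (m + 1) := by
    intro m
    have h1 := hno m ((R ⊓ Level N m) ⊔ Level N (m + 1)) le_sup_right
      (sup_le inf_le_right (level_anti N (Nat.le_succ m))) (by
        intro g hg x hx
        obtain ⟨r, hr, l, hl, rfl⟩ := Submodule.mem_sup.1 hx
        rw [map_add]
        exact Submodule.add_mem_sup ((hR.inf (h.level_stb m)).2 g hg r hr)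
          ((h.level_stb (m + 1)).2 g hg l hl)) (by
        intro x hx y hy
        obtain ⟨r, hr, l, hl, rfl⟩ := Submodule.mem_sup.1 hx
        obtain ⟨r', hr', l', hl', hrl⟩ := Submodule.mem_sup.1 hy
        rw [map_add, LinearMap.add_apply]
        have hyl : (N ^ m) y ∈ LinearMap.ker N := by
          rw [← hrl]
          exact Submodule.add_mem _ hr'.2.1 hl'.1
        rw [h.level_succ_left hl hyl, add_zero]
        obtain ⟨r'', hr''R, hr''⟩ := hp m hr'
        have h2 : (N ^ m) (y - r'') ∈ Level N (m + 1) := by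
          rw [map_sub, hr'', ← hrl, add_sub_cancel_left]
          exact hl'
        have h3 := h.level_succ_right hr.2 h2
        rw [map_sub, hiso r hr.1 r'' hr''R, sub_zero] at h3
        exact h3)
    rw [← h1]
    exact le_sup_left
  have key2 : ∀ m, R ⊓ Level N 0 ≤ Level N m := by
    intro m
    induction m with
    | zero => exact inf_le_right
    | succ m ih => exact fun x hx => key m ⟨hx.1, ih hx⟩
  apply eq_bot_of_inf_ker hd hR.1
  rw [← level_zero, eq_bot_iff]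
  have h1 := key2 d
  rwa [level_eq_bot hd le_rfl] at h1

end

end Run7.h293.LM
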