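import Pool.Agent.Run7.h293.LM.L4

/-!
# The weight inequality from local data
-/

set_option autoImplicit false
set_option linter.unusedSectionVars false
set_option linter.unusedVariables false

namespace Run7.h293.LM

open Module

variable {k V : Type*} [Field k] [AddCommGroup V] [Module k V] [FiniteDimensional k V]
  {N : End k V} {𝒟 : Set (End k V)} {ω : V →ₗ[k] V →ₗ[k] k}

/-- The determinants of Frobenius on the graded pieces of the kernel of `N` have the right absolute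
values. -/
def PureLevels (q w : ℝ) (j : k →+* ℂ) (F N : End k V) (𝒟 : Set (End k V)) : Prop :=
  ∀ m A, Stb N 𝒟 A → A ≤ Level N m → zF q j F A = zF q j F (A ⊓ Level N (m + 1)) +
    ((m : ℝ) - w) * ((finrank k A : ℝ) - finrank k (A ⊓ Level N (m + 1) : Submodule k V))

theorem zF_sub {q : ℝ} {j : k →+* ℂ} {F : End k V} (hF : Function.Injective F) {A B : Submodule k V}
    (hA : A ≤ A.comap F) (hB : B ≤ B.comap F) (hBA : B ≤ A) {a : ℝ}
    (ha : ‖j (LinearMap.det ((B.submoduleOf A).mapQ (B.submoduleOf A) (F.restrict hA)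
      (sub_stab hA hB)))‖ ^ 2 = a) : zF q j F A = zF q j F B + Real.logb q a := by
  have h1 := det_sub F hA hB hBA
  have h2 := det_ne hF hA
  have h3 := det_ne hF hB
  rw [h1] at h2
  have h4 := right_ne_zero_of_mul h2
  rw [zF_eq hA, zF_eq hB, h1, map_mul, norm_mul, mul_pow, ha, Real.logb_mul]
  · exact pow_ne_zero _ (norm_ne_zero_iff.2 ((map_ne_zero j).2 h3))
  · rw [← ha]
    exact pow_ne_zero _ (norm_ne_zero_iff.2 ((map_ne_zero j).2 h4))

theorem finrank_submoduleOf {A B : Submodule k V} (hBA : B ≤ A) :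
    finrank k (A ⧸ B.submoduleOf A) + finrank k B = finrank k A := by
  have h1 := (B.submoduleOf A).finrank_quotient_add_finrank
  rwa [(Submodule.submoduleOfEquivOfLe hBA).finrank_eq] at h1

theorem zF_map {q : ℕ} (hq : 2 ≤ q) {j : k →+* ℂ} {F : End k V} (hF : Function.Injective F)
    (hFN : F * N = (q : k) • (N * F)) (hq0 : (q : k) ≠ 0)
    {A : Submodule k V} (hA : A ≤ A.comap F) (hB : A ⊓ Level N 0 ≤ (A ⊓ Level N 0).comap F)
    (hC : A.map N ≤ (A.map N).comap F) :
    zF q j F A = zF q j F (A ⊓ Level N 0) + zF q j F (A.map N) - 2 * finrank k (A.map N) := by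
  have hq1 : (1 : ℝ) < q := by exact_mod_cast hq
  rw [zF_eq hA, zF_eq hB, zF_eq hC, det_map hq0 hFN hA hB hC]
  have h3 := det_ne hF hB
  have h4 := det_ne hF hC
  have h5 : ‖j (LinearMap.det (F.restrict hB))‖ ^ 2 ≠ 0 :=
    pow_ne_zero _ (norm_ne_zero_iff.2 ((map_ne_zero j).2 h3))
  have h6 : ‖j (LinearMap.det (F.restrict hC))‖ ^ 2 ≠ 0 :=
    pow_ne_zero _ (norm_ne_zero_iff.2 ((map_ne_zero j).2 h4))
  simp only [map_mul, map_pow, map_inv₀, map_natCast, norm_mul, norm_pow, norm_inv,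
    Complex.norm_natCast, mul_pow]
  rw [Real.logb_mul h5 (by positivity), Real.logb_mul (by positivity) h6]
  have h7 : (((q : ℝ)⁻¹) ^ finrank k (A.map N)) ^ 2 = (q : ℝ) ^ (-(2 * finrank k (A.map N) : ℝ)) := by
    rw [← pow_mul, inv_pow, ← Real.rpow_natCast, ← Real.rpow_neg (by linarith)]
    congr 1
    push_cast
    ring
  rw [h7, Real.logb_rpow (by linarith) hq1.ne']
  ring

/-- Without isotropic subspaces the graded pieces are pure. -/
theorem Loc.pureLevels (h : Loc N 𝒟 ω) (hno : NoIso N 𝒟 ω) {q : ℕ} (hq : 2 ≤ q) {w : ℕ}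
    (j : k →+* ℂ) {F : End k V} (hF : Function.Injective F) (hFD : F ∈ 𝒟)
    (hFN : F * N = (q : k) • (N * F)) (hq0 : (q : k) ≠ 0) {c : k}
    (hc : ∀ x y, ω (F x) (F y) = c * ω x y) (hcw : ‖j c‖ * (q : ℝ) ^ w = 1) :
    PureLevels q w j F N 𝒟 := by
  intro m A hA hAm
  have hL := h.level_stb (m + 1)
  set L := Level N (m + 1) with hLdef
  have hB : Stb N 𝒟 (A ⊓ L) := hA.inf hL
  have hAF : A ≤ A.comap F := fun x hx => hA.2 F hFD x hx
  have hBF : A ⊓ L ≤ (A ⊓ L).comap F := fun x hx => hB.2 F hFD x hx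
  set W := (A ⊓ L).submoduleOf A with hW
  set G := W.mapQ W (F.restrict hAF) (sub_stab hAF hBF) with hG
  -- a section
  obtain ⟨s, hs⟩ := (N ^ m).rangeRestrict.exists_rightInverse_of_surjective
    (LinearMap.range_rangeRestrict _)
  have hs' : ∀ y : LinearMap.range (N ^ m), (N ^ m) (s y) = y := fun y =>
    congrArg Subtype.val (LinearMap.congr_fun hs y)
  have hAr : A ≤ LinearMap.range (N ^ m) := fun x hx => (mem_level.1 (hAm hx)).2
  let BA : A →ₗ[k] A →ₗ[k] k := ω.compl₁₂ A.subtype (s ∘ₗ Submodule.inclusion hAr)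
  have hBA : ∀ (x y : A) (y' : V), (N ^ m) y' = y → BA x y = ω x y' := by
    intro x y y' hy
    refine h.form_wd (hAr x.2) ?_
    rw [hy]
    exact hs' _
  have h1 : W ≤ LinearMap.ker BA := by
    intro x hx
    rw [LinearMap.mem_ker]
    refine LinearMap.ext fun y => ?_
    obtain ⟨y', hy'⟩ := hAr y.2
    rw [hBA x y y' hy', LinearMap.zero_apply]
    exact h.level_succ_left hx.2 (by rw [hy']; exact (hAm y.2).1)
  let B1 : (A ⧸ W) →ₗ[k] A →ₗ[k] k := W.liftQ BA h1
  have h2 : W ≤ LinearMap.ker B1.flip := by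
    intro y hy
    rw [LinearMap.mem_ker]
    refine LinearMap.ext fun x => ?_
    obtain ⟨x, rfl⟩ := Submodule.Quotient.mk_surjective _ x
    obtain ⟨y', hy'⟩ := hAr y.2
    change BA x y = 0
    rw [hBA x y y' hy']
    exact h.level_succ_right (hAm x.2) (by rw [hy']; exact hy.2)
  let B2 : (A ⧸ W) →ₗ[k] (A ⧸ W) →ₗ[k] k := (W.liftQ B1.flip h2).flip
  have hB2 : ∀ x y : A, B2 (Submodule.Quotient.mk x) (Submodule.Quotient.mk y) = BA x y :=
    fun x y => rfl
  have hnd : ∀ x, (∀ y, B2 x y = 0) → x = 0 := by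
    intro x hx
    obtain ⟨x, rfl⟩ := Submodule.Quotient.mk_surjective _ x
    rw [Submodule.Quotient.mk_eq_zero]
    refine ⟨x.2, h.radA_le hno hA hAm ⟨x.2, fun y hy => ?_⟩⟩
    have h3 := hx (Submodule.Quotient.mk ⟨(N ^ m) y, hy⟩)
    rw [hB2, hBA x ⟨(N ^ m) y, hy⟩ y rfl] at h3
    exact h3
  have hFp : ∀ x, F ((N ^ m) x) = (q : k) ^ m • (N ^ m) (F x) := by
    intro x
    have h3 : ∀ m, F * N ^ m = (q : k) ^ m • (N ^ m * F) := by
      intro m
      induction m with
      | zero => simp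
      | succ m ih =>
        rw [pow_succ, ← mul_assoc, ih, smul_mul_assoc, mul_assoc, hFN, mul_smul_comm, smul_smul,
          ← pow_succ, mul_assoc]
    exact congrArg (fun T : End k V => T x) (h3 m)
  have hsim : ∀ x y, B2 (G x) (G y) = ((q : k) ^ m * c) * B2 x y := by
    intro x y
    obtain ⟨x, rfl⟩ := Submodule.Quotient.mk_surjective _ x
    obtain ⟨y, rfl⟩ := Submodule.Quotient.mk_surjective _ y
    obtain ⟨y', hy'⟩ := hAr y.2
    have e1 : G (Submodule.Quotient.mk x) = Submodule.Quotient.mk (F.restrict hAF x) := rfl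
    have e2 : G (Submodule.Quotient.mk y) = Submodule.Quotient.mk (F.restrict hAF y) := rfl
    rw [e1, e2, hB2, hB2, hBA x y y' hy', hBA (F.restrict hAF x) (F.restrict hAF y)
      ((q : k) ^ m • F y') (by
        rw [map_smul, ← hFp, hy']
        rfl)]
    change ω (F x) ((q : k) ^ m • F y') = _
    rw [map_smul, hc, smul_eq_mul]
    ring
  have hdet := det_sq_of_form B2 hnd G _ hsim
  have hq1 : (1 : ℝ) < q := by exact_mod_cast hq
  have hqpos : (0 : ℝ) < q := by linarith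
  have hjc : ‖j c‖ = (q : ℝ) ^ (-(w : ℝ)) := by
    rw [Real.rpow_neg hqpos.le, Real.rpow_natCast]
    exact eq_inv_of_mul_eq_one_left hcw
  have hfr := finrank_submoduleOf (inf_le_left : A ⊓ L ≤ A)
  have hnorm : ‖j (LinearMap.det G)‖ ^ 2 = (q : ℝ) ^ (((m : ℝ) - w) * finrank k (A ⧸ W)) := by
    rw [← norm_pow, ← map_pow, hdet, map_pow, norm_pow, map_mul, norm_mul, hjc, map_pow, norm_pow,
      map_natCast, Complex.norm_natCast, Real.rpow_mul hqpos.le, Real.rpow_natCast]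
    congr 1
    rw [← Real.rpow_natCast, ← Real.rpow_add hqpos]
    congr 1
  rw [zF_sub hF hAF hBF inf_le_left hnorm, Real.logb_rpow hqpos hq1.ne']
  congr 2
  rw [← hfr]
  push_cast
  ring

section final

variable {q w : ℕ} {j : k →+* ℂ} {F : End k V}

/-- The weight of a stable subspace. -/
theorem Loc.z_integral (h : Loc N 𝒟 ω) (hp : PureLevels q w j F N 𝒟) (hq : 2 ≤ q)
    (hF : Function.Injective F) (hFD : F ∈ 𝒟) (hFN : F * N = (q : k) • (N * F)) (hq0 : (q : k) ≠ 0)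
    {U : Submodule k V} (hU : Stb N 𝒟 U) :
    ∃ e : ℤ, 0 ≤ e ∧ zF q j F U + w * finrank k U = e := by
  obtain ⟨d, hd⟩ := h.nil
  refine Run7.h293.LM.z_integral hd (Stb N 𝒟) (zF q j F) w (fun A hA => hA.1)
    (fun A hA => h.stb_map hA) (fun A hA m => hA.inf (h.level_stb m)) zF_bot ?_
    (fun m A hA hAm => hp m A hA hAm) hU
  intro A hA
  exact zF_map hq hF hFN hq0 (fun x hx => hA.2 F hFD x hx)
    (fun x hx => (hA.inf (h.level_stb 0)).2 F hFD x hx) (fun x hx => (h.stb_map hA).2 F hFD x hx)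

theorem Loc.level_le (h : Loc N 𝒟 ω) (hp : PureLevels q w j F N 𝒟) (hq : 2 ≤ q)
    (hF : Function.Injective F) (hFD : F ∈ 𝒟) (hFN : F * N = (q : k) • (N * F)) (hq0 : (q : k) ≠ 0)
    {U : Submodule k V} (hU : Stb N 𝒟 U) (h0 : zF q j F U + w * finrank k U ≤ 0) (m : ℕ) :
    U ⊓ Level N m ≤ U.map (N ^ m) := by
  obtain ⟨d, hd⟩ := h.nil
  refine level_le_of_z hd (Stb N 𝒟) (zF q j F) w (fun A hA => hA.1)
    (fun A hA => h.stb_map hA) (fun A hA m => hA.inf (h.level_stb m)) zF_bot ?_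
    (fun m A hA hAm => hp m A hA hAm) hU h0 m
  intro A hA
  exact zF_map hq hF hFN hq0 (fun x hx => hA.2 F hFD x hx)
    (fun x hx => (hA.inf (h.level_stb 0)).2 F hFD x hx) (fun x hx => (h.stb_map hA).2 F hFD x hx)

end final

end Run7.h293.LM
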