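import Pool.Agent.Run7.h293.LM.L5
import Pool.Agent.Run7.h293.LM.Defs
import Pool.Agent.Y114.MU.Irr

/-!
# The logarithm of a unipotent endomorphism
-/

set_option autoImplicit false
set_option linter.unusedSectionVars false
set_option linter.unusedVariables false

namespace Run7.h293.LM

open NumberField IsDedekindDomain Polynomial Module Pool.Agent.Y114.GF Pool.Agent.Y114.MU
open Pool.Agent.W569.FM Pool.Agent.W571.FM Pool.Agent.Y115.R Pool.Agent.Y115.T Pool.Agent.Y115.Chi

section lg

variable {k : Type*} [Field k] [CharZero k] {V : Type*} [AddCommGroup V] [Module k V]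

theorem lg_factor (d : ℕ) (T : End k V) : ∃ w ∈ Algebra.adjoin k ({T} : Set (End k V)),
    lgA (d + 2) T 1 = T * (1 + T * w) := by
  refine ⟨∑ j ∈ Finset.range d, (bp k (j + 2)).coeff 1 • T ^ j, ?_, ?_⟩
  · refine sum_mem fun j _ => ?_
    exact Subalgebra.smul_mem _ (pow_mem (Algebra.self_mem_adjoin_singleton k T) j) _
  · unfold lgA
    rw [Finset.sum_range_succ', Finset.sum_range_succ', bp_zero_coeff, bp_one_coeff, zero_smul,
      add_zero, one_smul, mul_add, mul_one, Finset.mul_sum, Finset.mul_sum, zero_add, pow_one,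
      add_comm]
    congr 1
    refine Finset.sum_congr rfl fun j _ => ?_
    rw [mul_smul_comm, mul_smul_comm, ← pow_succ', ← pow_succ']

theorem adjoin_comm {T X : End k V} (hX : X * T = T * X) {w : End k V}
    (hw : w ∈ Algebra.adjoin k ({T} : Set (End k V))) : X * w = w * X := by
  induction hw using Algebra.adjoin_induction with
  | mem x hx => rw [Set.mem_singleton_iff.1 hx, hX]
  | algebraMap r => exact (Algebra.commutes r X).symm
  | add a b _ _ ha hb => rw [mul_add, add_mul, ha, hb]
  | mul a b _ _ ha hb => rw [← mul_assoc, ha, mul_assoc, hb, mul_assoc]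

theorem adjoin_stable {T : End k V} {U : Submodule k V} (hU : ∀ x ∈ U, T x ∈ U) {w : End k V}
    (hw : w ∈ Algebra.adjoin k ({T} : Set (End k V))) : ∀ x ∈ U, w x ∈ U := by
  induction hw using Algebra.adjoin_induction with
  | mem x hx => rw [Set.mem_singleton_iff.1 hx]; exact hU
  | algebraMap r => exact fun x hx => Submodule.smul_mem _ _ hx
  | add a b _ _ ha hb => exact fun x hx => Submodule.add_mem _ (ha x hx) (hb x hx)
  | mul a b _ _ ha hb => exact fun x hx => ha _ (hb x hx)

variable {T : End k V} (hT : IsNilpotent T) {w : End k V}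
  (hw : w ∈ Algebra.adjoin k ({T} : Set (End k V)))

include hT hw in
theorem unit_factor : IsUnit (1 + T * w) := by
  have hc : Commute T w := adjoin_comm rfl hw
  have h2 : IsNilpotent (T * w) := hc.isNilpotent_mul_right hT
  rw [add_comm]
  exact h2.isUnit_add_one

include hw in
theorem factor_pow (m : ℕ) : (T * (1 + T * w)) ^ m = T ^ m * (1 + T * w) ^ m ∧
    T ^ m * (1 + T * w) ^ m = (1 + T * w) ^ m * T ^ m := by
  have hc : Commute T w := adjoin_comm rfl hw
  have hc2 : Commute T (1 + T * w) := (Commute.one_right T).add_right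
    ((Commute.refl T).mul_right hc)
  exact ⟨hc2.mul_pow m, (hc2.pow_pow m m).eq⟩

include hT hw in
theorem level_eq_lev (m : ℕ) : Level (T * (1 + T * w)) m = lev T m := by
  obtain ⟨h1, h2⟩ := factor_pow hw m
  obtain ⟨-, h3⟩ := factor_pow hw 1
  rw [pow_one, pow_one] at h3
  have hu := unit_factor hT hw
  have hinj : Function.Injective ⇑(1 + T * w : End k V) := ((Module.End.isUnit_iff _).1 hu).1
  have hsurj : Function.Surjective ⇑((1 + T * w : End k V) ^ m) :=
    ((Module.End.isUnit_iff _).1 (hu.pow m)).2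
  ext x
  unfold Level lev
  rw [Submodule.mem_inf, Submodule.mem_inf, LinearMap.mem_ker, LinearMap.mem_ker,
    LinearMap.mem_range, LinearMap.mem_range, h1]
  refine and_congr ?_ ?_
  · rw [h3, Module.End.mul_apply]
    constructor
    · intro h
      exact hinj (by rw [h, map_zero])
    · intro h
      rw [h, map_zero]
  · constructor
    · rintro ⟨y, hy⟩
      exact ⟨((1 + T * w) ^ m) y, by rw [← Module.End.mul_apply, hy]⟩
    · rintro ⟨y, hy⟩
      obtain ⟨z, rfl⟩ := hsurj y
      exact ⟨z, by rw [← hy, Module.End.mul_apply]⟩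

include hT hw in
theorem range_eq (m : ℕ) :
    LinearMap.range ((T * (1 + T * w)) ^ m) = LinearMap.range (T ^ m) := by
  obtain ⟨h1, h2⟩ := factor_pow hw m
  have hu := unit_factor hT hw
  have hsurj : Function.Surjective ⇑((1 + T * w : End k V) ^ m) :=
    ((Module.End.isUnit_iff _).1 (hu.pow m)).2
  ext x
  rw [LinearMap.mem_range, LinearMap.mem_range, h1]
  constructor
  · rintro ⟨y, hy⟩
    exact ⟨((1 + T * w) ^ m) y, by rw [← Module.End.mul_apply, hy]⟩
  · rintro ⟨y, hy⟩
    obtain ⟨z, rfl⟩ := hsurj y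
    exact ⟨z, by rw [← hy, Module.End.mul_apply]⟩

include hw in
/-- On the kernel of `T ^ (m + 1)` the `m`-th powers agree. -/
theorem pow_eq_of_ker {m : ℕ} {y : V} (hy : (T ^ (m + 1)) y = 0) :
    ((T * (1 + T * w)) ^ m) y = (T ^ m) y := by
  obtain ⟨h1, h2⟩ := factor_pow hw m
  rw [h1, h2, Module.End.mul_apply]
  have h3 : T ((T ^ m) y) = 0 := by rw [← Module.End.mul_apply, ← pow_succ', hy]
  have hc : Commute T w := adjoin_comm rfl hw
  have h4 : (1 + T * w) ((T ^ m) y) = (T ^ m) y := by
    rw [hc.eq, LinearMap.add_apply, Module.End.one_apply, Module.End.mul_apply, h3, map_zero,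
      add_zero]
  have h5 : ∀ r : ℕ, ((1 + T * w) ^ r) ((T ^ m) y) = (T ^ m) y := by
    intro r
    induction r with
    | zero => rfl
    | succ r ih => rw [pow_succ, Module.End.mul_apply, h4, ih]
  exact h5 m

include hw in
theorem map_le {U : Submodule k V} (hU : ∀ x ∈ U, T x ∈ U) (m : ℕ) :
    U.map ((T * (1 + T * w)) ^ m) ≤ U.map (T ^ m) := by
  obtain ⟨h1, h2⟩ := factor_pow hw m
  rintro _ ⟨x, hx, rfl⟩
  refine ⟨((1 + T * w) ^ m) x, ?_, by rw [h1, Module.End.mul_apply]⟩
  have h3 : (1 + T * w) ^ m ∈ Algebra.adjoin k ({T} : Set (End k V)) :=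
    pow_mem (add_mem (one_mem _) (mul_mem (Algebra.self_mem_adjoin_singleton k T) hw)) m
  exact adjoin_stable hU h3 x hx

end lg

end Run7.h293.LM
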