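import Pool.Agent.Run7.h293.LM.L6

/-!
# The local data of a polarized representation
-/

set_option autoImplicit false
set_option linter.unusedSectionVars false
set_option linter.unusedVariables false

namespace Run7.h293.LM

open NumberField IsDedekindDomain Polynomial Module Pool.Agent.Y114.GF Pool.Agent.Y114.MU
open Pool.Agent.W569.FM Pool.Agent.W571.FM Pool.Agent.Y115.R Pool.Agent.Y115.T Pool.Agent.Y115.Chi

variable {F : Type} [Field F] [NumberField F] {Γ : Type} [Group Γ] {ℓ : ℕ} [hℓ : Fact ℓ.Prime]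
  {w : ℕ} {Y : Type} [AddCommGroup Y] [Module ℚ_[ℓ] Y] [FiniteDimensional ℚ_[ℓ] Y] (V : PolarizedRep F Γ ℓ w Y)

/-- The operators of the decomposition group and of the ring of coefficients. -/
def ops (E : Set (End ℚ_[ℓ] Y)) (v : HeightOneSpectrum (𝓞 F))
    (Q : Ideal (𝓞 (AlgebraicClosure F))) : Set (End ℚ_[ℓ] Y) :=
  {X | (∃ g, (InInertiaAt Q g ∨ IsFrobAt Q (q v) g ∨ IsFrobAt Q (q v) g⁻¹) ∧ X = V.act g) ∨ X ∈ E}

theorem q_ne (v : HeightOneSpectrum (𝓞 F)) : q v ≠ 0 := by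
  unfold q
  rw [Ne, Ideal.absNorm_eq_zero_iff]
  exact v.ne_bot

theorem two_le_q (v : HeightOneSpectrum (𝓞 F)) : 2 ≤ q v := by
  have h1 := q_ne v
  have h2 : q v ≠ 1 := by
    unfold q
    rw [Ne, Ideal.absNorm_eq_one_iff]
    exact v.isPrime.ne_top
  omega

theorem exists_frobAt {v : HeightOneSpectrum (𝓞 F)} {Q : Ideal (𝓞 (AlgebraicClosure F))}
    (hQ : PrimeOver Q v) : ∃ φ, IsFrobAt Q (q v) φ := by
  obtain ⟨Q₀, σ, hQ₀, hQ₀v, hσ⟩ := frob_cm v
  obtain ⟨g, hg⟩ := exists_smul Q₀ Q hQ₀.isPrime hQ.1 (hQ₀v.trans hQ.2.symm)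
  refine ⟨g * σ * g⁻¹, fun x => ?_⟩
  rw [hg, smul_sub, smul_pow', mul_smul, mul_smul, inv_smul_smul]
  exact hσ (g⁻¹ • x)

theorem not_mem_of_above {v : HeightOneSpectrum (𝓞 F)} {Q : Ideal (𝓞 (AlgebraicClosure F))}
    (hQ : PrimeOver Q v) (hv : ¬ Above v ℓ) : (ℓ : OO F) ∉ Q := by
  rw [← natCast_mem_cm]
  have : cm Q = v.asIdeal := hQ.2
  rw [this]
  exact hv

theorem cyclo_frob {v : HeightOneSpectrum (𝓞 F)} {Q : Ideal (𝓞 (AlgebraicClosure F))}
    (hQ : PrimeOver Q v) (hv : ¬ Above v ℓ) {φ : Gal(AlgebraicClosure F/F)}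
    (hφ : IsFrobAt Q (q v) φ) : V.χ (V.θ φ) * (q v : ℚ_[ℓ]) ^ w = 1 := by
  have h1 := chi_frob (ℓ := ℓ) hQ.1 (not_mem_of_above hQ hv) hφ
  have h3 := V.cyclo φ
  have h5 : ((cyclotomicCharacter (AlgebraicClosure F) ℓ φ : ℤ_[ℓ]) : ℚ_[ℓ]) = (q v : ℚ_[ℓ]) := by
    have h6 := congrArg (fun z : ℤ_[ℓ] => (z : ℚ_[ℓ])) h1
    simp only [PadicInt.coe_natCast] at h6
    exact h6
  rwa [h5] at h3

theorem cyclo_inertia {v : HeightOneSpectrum (𝓞 F)} {Q : Ideal (𝓞 (AlgebraicClosure F))}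
    (hQ : PrimeOver Q v) (hv : ¬ Above v ℓ) {τ : Gal(AlgebraicClosure F/F)}
    (hτ : InInertiaAt Q τ) : V.χ (V.θ τ) = 1 := by
  obtain ⟨φ, hφ⟩ := exists_frobAt hQ
  have h1 := cyclo_frob V hQ hv hφ
  have h2 : IsFrobAt Q (q v) (τ * φ) := by
    intro x
    have h3 := hφ x
    have h4 := hτ (φ • x)
    rw [mul_smul]
    have h5 : τ • φ • x - x ^ q v = (τ • φ • x - φ • x) + (φ • x - x ^ q v) := by abel
    rw [h5]
    exact Q.add_mem h4 h3
  have h3 := cyclo_frob V hQ hv h2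
  rw [map_mul, map_mul, mul_assoc, h1, mul_one] at h3
  exact h3

theorem act_mul (g h : Gal(AlgebraicClosure F/F)) : V.act (g * h) = V.act g * V.act h := by
  unfold PolarizedRep.act
  rw [map_mul, map_mul]

theorem act_one : V.act 1 = 1 := by
  unfold PolarizedRep.act
  rw [map_one, map_one]

theorem act_inv_mul (g : Gal(AlgebraicClosure F/F)) : V.act g⁻¹ * V.act g = 1 := by
  rw [← act_mul, inv_mul_cancel, act_one]

theorem act_mul_inv (g : Gal(AlgebraicClosure F/F)) : V.act g * V.act g⁻¹ = 1 := by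
  rw [← act_mul, mul_inv_cancel, act_one]

theorem act_injective (g : Gal(AlgebraicClosure F/F)) : Function.Injective (V.act g) := by
  intro x y hxy
  have h1 := congrArg (V.act g⁻¹) hxy
  rw [← Module.End.mul_apply, ← Module.End.mul_apply, act_inv_mul] at h1
  exact h1

variable {V}

/-- The monodromy operator. -/
theorem exists_loc' {E : Set (End ℚ_[ℓ] Y)} (hE : V.Coefficients E) {e : ℕ}
    {v : HeightOneSpectrum (𝓞 F)} {Q : Ideal (𝓞 (AlgebraicClosure F))}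
    {τ : Gal(AlgebraicClosure F/F)} (hm : V.Monodromy e v Q τ) (hv : ¬ Above v ℓ) :
    ∃ u ∈ Algebra.adjoin ℚ_[ℓ] ({V.act τ - 1} : Set (End ℚ_[ℓ] Y)),
      (∃ m, (V.act τ - 1) ^ (m + 2) = 0 ∧
        lgA (m + 2) (V.act τ - 1) 1 = (V.act τ - 1) * (1 + (V.act τ - 1) * u)) ∧
      Loc ((V.act τ - 1) * (1 + (V.act τ - 1) * u)) (ops V E v Q) V.ω ∧
      ∀ φ, IsFrobAt Q (q v) φ →
        V.act φ * ((V.act τ - 1) * (1 + (V.act τ - 1) * u)) =
          (q v : ℚ_[ℓ]) • (((V.act τ - 1) * (1 + (V.act τ - 1) * u)) * V.act φ) := by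
  obtain ⟨m, hm0⟩ := hm.unipotent
  have h1 : (V.act τ - 1) ^ (m + 2) = 0 := by rw [pow_add, hm0, zero_mul]
  have hχτ := cyclo_inertia V hm.primeOver hv hm.inertia
  obtain ⟨u, hu, hlg⟩ := lg_factor (k := ℚ_[ℓ]) m (V.act τ - 1)
  refine ⟨u, hu, ⟨m, h1, hlg⟩, ?_, ?_⟩
  · rw [← hlg]
    have hskew : ∀ x y, V.ω (lgA (m + 2) (V.act τ - 1) 1 x) y =
        - V.ω x (lgA (m + 2) (V.act τ - 1) 1 y) := by
      intro x y
      have h2 : lgA (m + 2) (V.act τ - 1) 1 ∈ Pool.Agent.H204R3.SP.lieT V.ρ V.χ :=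
        lg_mem V.ρ V.χ h1 hχτ
      have h3 := Pool.Agent.H204R3.SP.lieT_sp V.ρ V.χ V.ω V.sim h2 x y
      exact eq_neg_of_add_eq_zero_left h3
    have hfrobN : ∀ φ, IsFrobAt Q (q v) φ → V.act φ * lgA (m + 2) (V.act τ - 1) 1 =
        (q v : ℚ_[ℓ]) • (lgA (m + 2) (V.act τ - 1) 1 * V.act φ) := by
      intro φ hφ
      have h2 : (V.act τ ^ q v - 1) ^ (m + 2) = 0 := by
        have h6 : V.act τ ^ q v - 1 = (V.act τ - 1) * ∑ l ∈ Finset.range (q v), V.act τ ^ l :=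
          (mul_geom_sum (V.act τ) (q v)).symm
        have hc : Commute (V.act τ - 1) (∑ l ∈ Finset.range (q v), V.act τ ^ l) := by
          refine Commute.sum_right _ _ _ fun l _ => ?_
          exact ((Commute.refl (V.act τ)).pow_right l).sub_left (Commute.one_left _)
        rw [h6, hc.mul_pow, h1, zero_mul]
      have h3 : V.act φ * (V.act τ - 1) = (V.act τ ^ q v - 1) * V.act φ := by
        rw [mul_sub, sub_mul, hm.frob φ hφ, mul_one, one_mul]
      rw [comm_lgA h3, lgA_qpow (by omega) h1 h2, smul_mul_assoc]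
    have hcommN : ∀ X : End ℚ_[ℓ] Y, X * V.act τ = V.act τ * X →
        X * lgA (m + 2) (V.act τ - 1) 1 = lgA (m + 2) (V.act τ - 1) 1 * X := by
      intro X hX
      refine comm_lgA ?_ _ _
      rw [mul_sub, sub_mul, hX, mul_one, one_mul]
    have hq0 : (q v : ℚ_[ℓ]) ≠ 0 := Nat.cast_ne_zero.2 (q_ne v)
    refine ⟨lgA_one_nil m ⟨m, hm0⟩, ?_, V.nondeg, ?_, hskew, ?_⟩
    · rintro g (⟨g, hg | hg | hg, rfl⟩ | hg)
      · exact ⟨1, one_ne_zero, by rw [one_smul]; exact hcommN _ (hm.comm g hg)⟩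
      · exact ⟨q v, hq0, hfrobN g hg⟩
      · refine ⟨(q v : ℚ_[ℓ])⁻¹, inv_ne_zero hq0, ?_⟩
        have h2 := hfrobN _ hg
        have h3 := congrArg (fun X => V.act g * X * V.act g) h2
        simp only [mul_smul_comm, smul_mul_assoc] at h3
        rw [← mul_assoc, act_mul_inv, one_mul, ← mul_assoc, mul_assoc _ (V.act g⁻¹) (V.act g),
          act_inv_mul, mul_one] at h3
        rw [h3, smul_smul, inv_mul_cancel₀ hq0, one_smul]
      · refine ⟨1, one_ne_zero, ?_⟩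
        rw [one_smul]
        exact hcommN _ (hE.comm g hg _)
    · rcases V.symm with h | h
      · exact ⟨1, one_ne_zero, fun x y => by rw [one_mul]; exact h x y⟩
      · exact ⟨-1, neg_ne_zero.2 one_ne_zero, fun x y => by rw [neg_one_mul]; exact h x y⟩
    · rintro g (⟨g, hg, rfl⟩ | hg)
      · refine ⟨V.act g⁻¹, Or.inl ⟨g⁻¹, ?_, rfl⟩, V.χ (V.θ g), fun x y => ?_⟩
        · rcases hg with hg | hg | hg
          · left
            intro x
            have h2 := hg (g⁻¹ • x)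
            rw [smul_inv_smul] at h2
            have h3 := Q.neg_mem h2
            rwa [neg_sub] at h3
          · right; right
            rwa [inv_inv]
          · right; left
            exact hg
        · have h2 := V.sim (V.θ g) x (V.act g⁻¹ y)
          have h3 : V.ρ (V.θ g) (V.act g⁻¹ y) = y := by
            have h4 := congrArg (fun X : End ℚ_[ℓ] Y => X y) (act_mul_inv V g)
            exact h4
          rw [h3] at h2
          exact h2
      · obtain ⟨f', hf', h2⟩ := hE.adjoint g hg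
        exact ⟨f', Or.inr hf', 1, fun x y => by rw [one_mul]; exact h2 x y⟩
  · intro φ hφ
    rw [← hlg]
    have h2 : (V.act τ ^ q v - 1) ^ (m + 2) = 0 := by
      have h6 : V.act τ ^ q v - 1 = (V.act τ - 1) * ∑ l ∈ Finset.range (q v), V.act τ ^ l :=
        (mul_geom_sum (V.act τ) (q v)).symm
      have hc : Commute (V.act τ - 1) (∑ l ∈ Finset.range (q v), V.act τ ^ l) := by
        refine Commute.sum_right _ _ _ fun l _ => ?_
        exact ((Commute.refl (V.act τ)).pow_right l).sub_left (Commute.one_left _)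
      rw [h6, hc.mul_pow, h1, zero_mul]
    have h3 : V.act φ * (V.act τ - 1) = (V.act τ ^ q v - 1) * V.act φ := by
      rw [mul_sub, sub_mul, hm.frob φ hφ, mul_one, one_mul]
    rw [comm_lgA h3, lgA_qpow (by omega) h1 h2, smul_mul_assoc]

theorem exists_loc {E : Set (End ℚ_[ℓ] Y)} (hE : V.Coefficients E) {e : ℕ}
    {v : HeightOneSpectrum (𝓞 F)} {Q : Ideal (𝓞 (AlgebraicClosure F))}
    {τ : Gal(AlgebraicClosure F/F)} (hm : V.Monodromy e v Q τ) (hv : ¬ Above v ℓ) :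
    ∃ u ∈ Algebra.adjoin ℚ_[ℓ] ({V.act τ - 1} : Set (End ℚ_[ℓ] Y)),
      Loc ((V.act τ - 1) * (1 + (V.act τ - 1) * u)) (ops V E v Q) V.ω ∧
      ∀ φ, IsFrobAt Q (q v) φ →
        V.act φ * ((V.act τ - 1) * (1 + (V.act τ - 1) * u)) =
          (q v : ℚ_[ℓ]) • (((V.act τ - 1) * (1 + (V.act τ - 1) * u)) * V.act φ) := by
  obtain ⟨u, hu, -, h1, h2⟩ := exists_loc' hE hm hv
  exact ⟨u, hu, h1, h2⟩

end Run7.h293.LM
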