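import Pool.Agent.Run7.h293.LM.L7

/-!
# Weight-monodromy and anisotropy
-/

set_option autoImplicit false
set_option linter.unusedSectionVars false
set_option linter.unusedVariables false

namespace Run7.h293.LM

open NumberField IsDedekindDomain Polynomial Module Pool.Agent.Y114.GF Pool.Agent.Y114.MU

section ann

variable {k : Type*} [Field k] {M : Type*} [AddCommGroup M] [Module k M] [FiniteDimensional k M]

theorem det_norm_of_annihilates (g : End k M) {p : k[X]} (hp : aeval g p = 0)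
    (j : k →+* ℂ) {c : ℝ} (hc : ∀ a : ℂ, (p.map j).IsRoot a → ‖a‖ ^ 2 = c) :
    ‖j (LinearMap.det g)‖ ^ 2 = c ^ finrank k M := by
  classical
  let b := Module.finBasis k M
  set A := (LinearMap.toMatrix b b g) with hA
  have hchar : A.charpoly = g.charpoly := by rw [hA, LinearMap.charpoly_toMatrix]
  set C : k[X] := g.charpoly with hC
  have hCm : C.Monic := LinearMap.charpoly_monic _
  have hdeg : C.natDegree = finrank k M := LinearMap.charpoly_natDegree _
  have hsplit : (C.map j).Splits := IsAlgClosed.splits _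
  have hprod : j (LinearMap.det g) = (C.map j).roots.prod := by
    rw [LinearMap.det_eq_sign_charpoly_coeff, map_mul, map_pow, map_neg, map_one, ← hC,
      ← Polynomial.coeff_map, hsplit.coeff_zero_eq_prod_roots_of_monic (hCm.map j),
      Polynomial.natDegree_map, hdeg, ← mul_assoc, ← pow_add, ← two_mul, pow_mul, neg_one_sq,
      one_pow, one_mul]
  have hcard : Multiset.card (C.map j).roots = finrank k M := by
    rw [← hsplit.natDegree_eq_card_roots, Polynomial.natDegree_map, hdeg]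
  have hroot : ∀ a ∈ (C.map j).roots, ‖a‖ ^ 2 = c := by
    intro a ha
    apply hc
    rw [mem_roots (hCm.map j).ne_zero] at ha
    have h1 : (Matrix.toLin' (A.map j)).charpoly = C.map j := by
      rw [Matrix.charpoly_toLin', Matrix.charpoly_map, hchar]
    have h2 : Module.End.HasEigenvalue (Matrix.toLin' (A.map j)) a := by
      rw [Module.End.hasEigenvalue_iff_isRoot_charpoly, h1]
      exact ha
    obtain ⟨v, hv⟩ := h2.exists_hasEigenvector
    have h3 := Module.End.aeval_apply_of_hasEigenvector (p := p.map j) hv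
    have h4 : aeval (Matrix.toLin' (A.map j)) (p.map j) = 0 := by
      have h5 : aeval A p = 0 := by
        have h6 := congrArg (LinearMap.toMatrixAlgEquiv b) hp
        rw [map_zero] at h6
        have h7 : LinearMap.toMatrixAlgEquiv b (aeval g p) = aeval (LinearMap.toMatrixAlgEquiv b g) p :=
          (Polynomial.aeval_algHom_apply (LinearMap.toMatrixAlgEquiv b).toAlgHom g p).symm
        rw [h7] at h6
        exact h6
      have h6 : aeval (A.map j) (p.map j) = 0 := by
        have h7 := congrArg (fun B : Matrix (Fin (finrank k M)) (Fin (finrank k M)) k =>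
          (j.mapMatrix B)) h5
        simp only [map_zero] at h7
        rw [← h7, Polynomial.aeval_def, Polynomial.aeval_def, Polynomial.eval₂_map,
          Polynomial.hom_eval₂]
        congr 1
        refine RingHom.ext fun x => ?_
        ext i l
        simp [Matrix.algebraMap_matrix_apply, Matrix.map_apply]
        split_ifs <;> simp
      have h7 : aeval (Matrix.toLinAlgEquiv' (A.map j)) (p.map j) =
          Matrix.toLinAlgEquiv' (aeval (A.map j) (p.map j)) :=
        Polynomial.aeval_algHom_apply (Matrix.toLinAlgEquiv' : _ ≃ₐ[ℂ] _).toAlgHom _ _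
      rw [h6, map_zero] at h7
      exact h7
    rw [h4, LinearMap.zero_apply] at h3
    exact (smul_eq_zero.1 h3.symm).resolve_right hv.2
  rw [hprod, Pool.Agent.Y115.M.norm_multiset_prod _ c hroot, hcard]

/-- Polynomials in the restriction to a stable subspace and the quotient. -/
theorem aeval_quot (G : End k M) {A : Submodule k M} (hA : A ≤ A.comap G) {W : Submodule k A}
    (hW : W ≤ W.comap (G.restrict hA)) (p : k[X]) : ∀ x : A, ∃ y : A, y.1 = (aeval G p) x.1 ∧
      aeval (W.mapQ W (G.restrict hA) hW) p (Submodule.Quotient.mk x) =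
        Submodule.Quotient.mk y := by
  induction p using Polynomial.induction_on with
  | C a =>
    intro x
    refine ⟨a • x, ?_, ?_⟩
    · rw [aeval_C]
      rfl
    · rw [aeval_C]
      rfl
  | add p q hp hq =>
    intro x
    obtain ⟨y, h1, h2⟩ := hp x
    obtain ⟨z, h3, h4⟩ := hq x
    refine ⟨y + z, ?_, ?_⟩
    · rw [map_add, LinearMap.add_apply, ← h1, ← h3]
      rfl
    · rw [map_add, LinearMap.add_apply, h2, h4, ← Submodule.Quotient.mk_add]
  | monomial m a ih =>
    intro x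
    obtain ⟨y, h1, h2⟩ := ih ⟨G x.1, hA x.2⟩
    refine ⟨y, ?_, ?_⟩
    · have e1 : (aeval G) (C a * X ^ (m + 1)) = (aeval G) (C a * X ^ m) * G := by
        rw [pow_succ, ← mul_assoc, map_mul _ (C a * X ^ m) X, aeval_X]
      rw [h1, e1, Module.End.mul_apply]
    · rw [pow_succ, ← mul_assoc, map_mul, aeval_X, Module.End.mul_apply]
      exact h2

end ann

section wm

variable {k V : Type*} [Field k] [AddCommGroup V] [Module k V] [FiniteDimensional k V]
  {N : End k V} {𝒟 : Set (End k V)} {ω : V →ₗ[k] V →ₗ[k] k}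

/-- Purity of the levels from annihilating polynomials. -/
theorem Loc.pureLevels_of_annihilates (h : Loc N 𝒟 ω) {q : ℕ} (hq : 2 ≤ q) {w : ℕ}
    (j : k →+* ℂ) {F Fi : End k V} (hF : Function.Injective F) (hFD : F ∈ 𝒟) (hFi : Fi ∈ 𝒟)
    (hinv : Fi * F = 1)
    (hP : ∀ m, ∃ p : k[X], (∀ a : ℂ, (p.map j).IsRoot a → ‖a‖ ^ 2 * (q : ℝ) ^ m = (q : ℝ) ^ w) ∧
      ∀ x ∈ Level N m, aeval Fi p x ∈ Level N (m + 1)) :
    PureLevels q w j F N 𝒟 := by
  intro m A hA hAm
  have hL := h.level_stb (m + 1)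
  set L := Level N (m + 1) with hLdef
  have hB : Stb N 𝒟 (A ⊓ L) := hA.inf hL
  have hAF : A ≤ A.comap F := fun x hx => hA.2 F hFD x hx
  have hBF : A ⊓ L ≤ (A ⊓ L).comap F := fun x hx => hB.2 F hFD x hx
  have hAFi : A ≤ A.comap Fi := fun x hx => hA.2 Fi hFi x hx
  have hBFi : A ⊓ L ≤ (A ⊓ L).comap Fi := fun x hx => hB.2 Fi hFi x hx
  set W := (A ⊓ L).submoduleOf A with hW
  set G := W.mapQ W (F.restrict hAF) (sub_stab hAF hBF) with hG
  set Gi := W.mapQ W (Fi.restrict hAFi) (sub_stab hAFi hBFi) with hGi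
  obtain ⟨p, hp, hpm⟩ := hP m
  have hq1 : (1 : ℝ) < q := by exact_mod_cast hq
  have hqpos : (0 : ℝ) < q := by linarith
  have h1 : aeval Gi p = 0 := by
    refine LinearMap.ext fun x => ?_
    obtain ⟨x, rfl⟩ := Submodule.Quotient.mk_surjective _ x
    obtain ⟨y, hy1, hy2⟩ := aeval_quot Fi hAFi (sub_stab hAFi hBFi) p x
    rw [hGi, hy2, LinearMap.zero_apply, Submodule.Quotient.mk_eq_zero]
    refine ⟨y.2, ?_⟩
    rw [Submodule.subtype_apply, hy1]
    exact hpm _ (hAm x.2)
  have h2 := det_norm_of_annihilates Gi h1 j (c := (q : ℝ) ^ ((w : ℝ) - m)) (by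
    intro a ha
    have h3 := hp a ha
    rw [Real.rpow_sub hqpos, Real.rpow_natCast, Real.rpow_natCast, ← h3]
    field_simp)
  have h3 : Gi * G = 1 := by
    refine LinearMap.ext fun x => ?_
    obtain ⟨x, rfl⟩ := Submodule.Quotient.mk_surjective _ x
    rw [Module.End.mul_apply, Module.End.one_apply, hG, hGi, Submodule.mapQ_apply,
      Submodule.mapQ_apply]
    congr 1
    apply Subtype.ext
    exact congrArg (fun T : End k V => T x.1) hinv
  have h4 : LinearMap.det Gi * LinearMap.det G = 1 := by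
    rw [← map_mul, h3, map_one]
  have h5 : ‖j (LinearMap.det Gi)‖ ^ 2 * ‖j (LinearMap.det G)‖ ^ 2 = 1 := by
    rw [← mul_pow, ← norm_mul, ← map_mul, h4, map_one, norm_one, one_pow]
  have hfr := finrank_submoduleOf (inf_le_left : A ⊓ L ≤ A)
  have hnorm : ‖j (LinearMap.det G)‖ ^ 2 = (q : ℝ) ^ (((m : ℝ) - w) * finrank k (A ⧸ W)) := by
    rw [h2, ← Real.rpow_natCast, ← Real.rpow_mul hqpos.le] at h5
    have h6 := eq_inv_of_mul_eq_one_right h5
    rw [h6, ← Real.rpow_neg hqpos.le]
    congr 1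
    ring
  rw [zF_sub hF hAF hBF inf_le_left hnorm, Real.logb_rpow hqpos hq1.ne']
  congr 2
  rw [← hfr]
  push_cast
  ring

end wm

section bridge

variable {F : Type} [Field F] [NumberField F] {Γ : Type} [Group Γ] {ℓ : ℕ} [hℓ : Fact ℓ.Prime]
  {w : ℕ} {Y : Type} [AddCommGroup Y] [Module ℚ_[ℓ] Y] [FiniteDimensional ℚ_[ℓ] Y] {V : PolarizedRep F Γ ℓ w Y}

/-- The purity of the levels of the logarithm. -/
theorem pureLevels_of {E : Set (End ℚ_[ℓ] Y)} {e : ℕ}
    {v : HeightOneSpectrum (𝓞 F)} {Q : Ideal (𝓞 (AlgebraicClosure F))}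
    {τ : Gal(AlgebraicClosure F/F)} (hm : V.Monodromy e v Q τ) (hv : ¬ Above v ℓ)
    {u : End ℚ_[ℓ] Y}
    (hu : u ∈ Algebra.adjoin ℚ_[ℓ] ({V.act τ - 1} : Set (End ℚ_[ℓ] Y)))
    (hloc : Loc ((V.act τ - 1) * (1 + (V.act τ - 1) * u)) (ops V E v Q) V.ω)
    (j : ℚ_[ℓ] →+* ℂ) {φ : Gal(AlgebraicClosure F/F)} (hφ : IsFrobAt Q (q v) φ)
    (hφN : V.act φ * ((V.act τ - 1) * (1 + (V.act τ - 1) * u)) =
          (q v : ℚ_[ℓ]) • (((V.act τ - 1) * (1 + (V.act τ - 1) * u)) * V.act φ))
    (hyp : V.WeightMonodromy v Q τ ∨ V.Anisotropic E v Q τ) :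
    PureLevels (q v) w j (V.act φ) ((V.act τ - 1) * (1 + (V.act τ - 1) * u)) (ops V E v Q) := by
  have hlev := level_eq_lev hm.unipotent hu
  rcases hyp with hwm | han
  · refine hloc.pureLevels_of_annihilates (two_le_q v) j (Fi := V.act φ⁻¹) (act_injective V φ)
      (Or.inl ⟨φ, Or.inr (Or.inl hφ), rfl⟩)
      (Or.inl ⟨φ⁻¹, Or.inr (Or.inr (by rwa [inv_inv])), rfl⟩) (act_inv_mul V φ) ?_
    intro m
    obtain ⟨P, hP0, hP, hPx⟩ := hwm m φ hφ
    refine ⟨P.map (algebraMap ℚ ℚ_[ℓ]), ?_, ?_⟩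
    · intro a ha
      apply hP
      rw [mem_aroots]
      refine ⟨hP0, ?_⟩
      rw [Polynomial.map_map, IsRoot.def, eval_map] at ha
      rw [aeval_def, ← ha]
      congr 1
      exact Subsingleton.elim _ _
    · intro x hx
      rw [hlev] at hx ⊢
      exact hPx x hx
  · have hno : NoIso ((V.act τ - 1) * (1 + (V.act τ - 1) * u)) (ops V E v Q) V.ω := by
      intro m A h1 h2 h3 h4
      rw [hlev] at h1 h2 ⊢
      refine han m A h1 h2 ?_ ?_ ?_
      · intro g hg x hx
        exact h3 _ (Or.inl ⟨g, hg, rfl⟩) x hx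
      · intro f hf x hx
        exact h3 f (Or.inr hf) x hx
      · intro x hx y hy
        refine h4 x hx y ?_
        have h5 : ((V.act τ - 1) ^ (m + 1)) y = 0 := by
          rw [pow_succ', Module.End.mul_apply]
          exact (h2 hy).1
        rw [pow_eq_of_ker hu h5]
        exact hy
    exact hloc.pureLevels hno (two_le_q v) j (act_injective V φ)
      (Or.inl ⟨φ, Or.inr (Or.inl hφ), rfl⟩) hφN (Nat.cast_ne_zero.2 (q_ne v))
      (c := V.χ (V.θ φ)) (fun x y => V.sim (V.θ φ) x y) (by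
        have h1 := congrArg (fun z => ‖j z‖) (cyclo_frob V hm.primeOver hv hφ)
        simpa only [map_mul, map_pow, map_natCast, norm_mul, norm_pow, Complex.norm_natCast,
          map_one, norm_one] using h1)

/-- No isotropic subspaces. -/
theorem noIso_of {E : Set (End ℚ_[ℓ] Y)} {e : ℕ}
    {v : HeightOneSpectrum (𝓞 F)} {Q : Ideal (𝓞 (AlgebraicClosure F))}
    {τ : Gal(AlgebraicClosure F/F)} (hm : V.Monodromy e v Q τ)
    {u : End ℚ_[ℓ] Y}
    (hu : u ∈ Algebra.adjoin ℚ_[ℓ] ({V.act τ - 1} : Set (End ℚ_[ℓ] Y)))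
    (han : V.Anisotropic E v Q τ) :
    NoIso ((V.act τ - 1) * (1 + (V.act τ - 1) * u)) (ops V E v Q) V.ω := by
  have hlev := level_eq_lev hm.unipotent hu
  intro m A h1 h2 h3 h4
  rw [hlev] at h1 h2 ⊢
  refine han m A h1 h2 ?_ ?_ ?_
  · intro g hg x hx
    exact h3 _ (Or.inl ⟨g, hg, rfl⟩) x hx
  · intro f hf x hx
    exact h3 f (Or.inr hf) x hx
  · intro x hx y hy
    refine h4 x hx y ?_
    have h5 : ((V.act τ - 1) ^ (m + 1)) y = 0 := by
      rw [pow_succ', Module.End.mul_apply]
      exact (h2 hy).1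
    rw [pow_eq_of_ker hu h5]
    exact hy

end bridge

end Run7.h293.LM
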