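import Pool.Agent.Run7.h293.LM.L8

/-!
# Weights of the determinants of the stable subspaces at the places above `p`
-/

set_option autoImplicit false
set_option linter.unusedSectionVars false
set_option linter.unusedVariables false

namespace Run7.h293.LM

open NumberField IsDedekindDomain Polynomial Module Pool.Agent.Y114.GF Pool.Agent.Y114.MU
open Pool.Agent.W569.FM Pool.Agent.W571.FM Pool.Agent.Y115.R Pool.Agent.Y115.T Pool.Agent.Y115.Chi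
  Pool.Agent.Y115.CQ

variable {F : Type} [Field F] [NumberField F] {Γ : Type} [Group Γ] {ℓ : ℕ} [hℓ : Fact ℓ.Prime]
  {w : ℕ} {Y : Type} [AddCommGroup Y] [Module ℚ_[ℓ] Y] [FiniteDimensional ℚ_[ℓ] Y] (V : PolarizedRep F Γ ℓ w Y)

theorem le_comap {U : Submodule ℚ_[ℓ] Y} (hU : ∀ g, ∀ x ∈ U, V.act g x ∈ U) (g) :
    U ≤ U.comap (V.act g) := fun x hx => hU g x hx

/-- The representation on a stable subspace. -/
noncomputable def resU {U : Submodule ℚ_[ℓ] Y} (hU : ∀ g, ∀ x ∈ U, V.act g x ∈ U) :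
    GF F →* End ℚ_[ℓ] U where
  toFun g := (V.act g).restrict (le_comap V hU g)
  map_one' := by
    refine LinearMap.ext fun x => Subtype.ext ?_
    change V.act 1 x = x
    rw [act_one]
    rfl
  map_mul' g h := by
    refine LinearMap.ext fun x => Subtype.ext ?_
    change V.act (g * h) x = V.act g (V.act h x)
    rw [act_mul]
    rfl

/-- The determinant of a stable subspace. -/
noncomputable def psi {U : Submodule ℚ_[ℓ] Y} (hU : ∀ g, ∀ x ∈ U, V.act g x ∈ U) :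
    GF F →* ℚ_[ℓ]ˣ :=
  ((LinearMap.det : End ℚ_[ℓ] U →* ℚ_[ℓ]).comp (resU V hU)).toHomUnits

theorem psi_eq {U : Submodule ℚ_[ℓ] Y} (hU : ∀ g, ∀ x ∈ U, V.act g x ∈ U) (g) :
    (psi V hU g : ℚ_[ℓ]) = LinearMap.det ((V.act g).restrict (le_comap V hU g)) := rfl

theorem continuous_psi {U : Submodule ℚ_[ℓ] Y} (hU : ∀ g, ∀ x ∈ U, V.act g x ∈ U) :
    Continuous (psi V hU) := by
  classical
  have h1 : Continuous fun g => (psi V hU g : ℚ_[ℓ]) := by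
    let b := Module.finBasis ℚ_[ℓ] U
    have h2 : (fun g => (psi V hU g : ℚ_[ℓ])) = fun g =>
        Matrix.det (LinearMap.toMatrix b b ((V.act g).restrict (le_comap V hU g))) := by
      funext g
      rw [psi_eq, LinearMap.det_toMatrix]
    rw [h2]
    refine Continuous.matrix_det ?_
    refine continuous_matrix fun i l => ?_
    obtain ⟨ξ, hξ⟩ := LinearMap.exists_extend (b.coord i)
    have h3 : (fun g => LinearMap.toMatrix b b ((V.act g).restrict (le_comap V hU g)) i l) =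
        fun g => ξ (V.ρ (V.θ g) (b l)) := by
      funext g
      rw [LinearMap.toMatrix_apply]
      have h4 := LinearMap.congr_fun hξ (((V.act g).restrict (le_comap V hU g)) (b l))
      exact h4.symm
    rw [h3]
    exact V.continuous ξ (b l)
  rw [Units.continuous_iff]
  refine ⟨h1, ?_⟩
  have h2 : (fun g => (((psi V hU g)⁻¹ : ℚ_[ℓ]ˣ) : ℚ_[ℓ])) = fun g => (psi V hU g⁻¹ : ℚ_[ℓ]) := by
    funext g
    rw [map_inv]
  rw [h2]
  exact h1.comp continuous_inv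

theorem conj_inertia {v : HeightOneSpectrum (𝓞 F)} {Q₀ Q : Ideal (𝓞 (AlgebraicClosure F))}
    (hQ₀ : PrimeOver Q₀ v) (hQ : PrimeOver Q v) {A : Type*} [CommGroup A] (ψ : GF F →* A)
    (h : ∀ g, InInertiaAt Q₀ g → ψ g = 1) : ∀ g, InInertiaAt Q g → ψ g = 1 := by
  intro g hg
  obtain ⟨c, hc⟩ := exists_smul Q₀ Q hQ₀.1 hQ.1 (hQ₀.2.trans hQ.2.symm)
  have h1 : InInertiaAt Q₀ (c⁻¹ * g * c) := by
    intro x
    have h2 := (hc _).1 (hg (c • x))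
    rw [smul_sub, inv_smul_smul, smul_smul, smul_smul] at h2
    exact h2
  have h2 := h _ h1
  rw [map_mul, map_mul, map_inv] at h2
  have h3 : (ψ c)⁻¹ * ψ g * ψ c = ψ g := by
    rw [mul_comm (ψ c)⁻¹, mul_assoc, inv_mul_cancel, mul_one]
  rwa [h3] at h2

theorem det_pow_restrict {U : Submodule ℚ_[ℓ] Y}
    {g : End ℚ_[ℓ] Y} (hg : U ≤ U.comap g) (e : ℕ) (hge : IsNilpotent (g ^ e - 1)) :
    LinearMap.det (g.restrict hg) ^ e = 1 := by
  have h4 : (g.restrict hg) ^ e - 1 = (g ^ e - 1).restrict (fun x hx =>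
      Submodule.sub_mem _ (by
        have : ∀ m : ℕ, ∀ x ∈ U, (g ^ m) x ∈ U := by
          intro m
          induction m with
          | zero => intro x hx; exact hx
          | succ m ih =>
            intro x hx
            rw [pow_succ, Module.End.mul_apply]
            exact ih _ (hg hx)
        exact this e x hx) hx : ∀ x ∈ U, (g ^ e - 1) x ∈ U) := by
    rw [Module.End.pow_restrict]
    rfl
  have h5 : IsNilpotent ((g.restrict hg) ^ e - 1) := by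
    obtain ⟨m, hm⟩ := hge
    refine ⟨m, ?_⟩
    rw [h4, Module.End.pow_restrict]
    refine LinearMap.ext fun x => Subtype.ext ?_
    change ((g ^ e - 1) ^ m) x = 0
    rw [hm]
    rfl
  have h6 : (g.restrict hg) ^ e = 1 + ((g.restrict hg) ^ e - 1) := by abel
  rw [← map_pow, h6]
  exact det_one_add_nilpotent h5

theorem mono_inertia {U : Submodule ℚ_[ℓ] Y} (hU : ∀ g, ∀ x ∈ U, V.act g x ∈ U)
    {e : ℕ} {v : HeightOneSpectrum (𝓞 F)} {Q : Ideal (𝓞 (AlgebraicClosure F))}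
    {τ : Gal(AlgebraicClosure F/F)} (hm : V.Monodromy e v Q τ) :
    ∀ g, InInertiaAt Q g → (psi V hU ^ e) g = 1 := by
  intro g hg
  apply Units.ext
  rw [MonoidHom.pow_apply, Units.val_pow_eq_pow_val, psi_eq, Units.val_one]
  exact det_pow_restrict (le_comap V hU g) e (hm.quasi g hg)

/-- Good reduction. -/
theorem good_inertia {U : Submodule ℚ_[ℓ] Y} (hU : ∀ g, ∀ x ∈ U, V.act g x ∈ U)
    {v : HeightOneSpectrum (𝓞 F)} (hg : V.Good v) {Q : Ideal (𝓞 (AlgebraicClosure F))}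
    (hQ : PrimeOver Q v) : ∀ g, InInertiaAt Q g → psi V hU g = 1 := by
  obtain ⟨P, hpure, hP⟩ := hg
  intro g hg
  apply Units.ext
  rw [psi_eq, Units.val_one]
  have h1 : V.act g = 1 := (hP Q hQ g).1 hg
  have h2 : (V.act g).restrict (le_comap V hU g) = LinearMap.id := by
    refine LinearMap.ext fun x => Subtype.ext ?_
    change V.act g x = x
    rw [h1]
    rfl
  rw [h2, LinearMap.det_id]

theorem good_frob {U : Submodule ℚ_[ℓ] Y} (hU : ∀ g, ∀ x ∈ U, V.act g x ∈ U)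
    {v : HeightOneSpectrum (𝓞 F)} (hg : V.Good v) {Q : Ideal (𝓞 (AlgebraicClosure F))}
    (hQ : PrimeOver Q v) {σ : Gal(AlgebraicClosure F/F)} (hσ : IsFrobAt Q (q v) σ)
    (j : ℚ_[ℓ] →+* ℂ) :
    IsAlgebraic ℚ (psi V hU σ : ℚ_[ℓ]) ∧
      ‖j (psi V hU σ : ℚ_[ℓ])‖ ^ 2 = (q v : ℝ) ^ (-(w * finrank ℚ_[ℓ] U : ℤ)) := by
  obtain ⟨P, hpure, hP⟩ := hg
  have h1 := (hP Q hQ σ).2 hσ
  obtain ⟨h2, h3⟩ := det_good j (V.act σ⁻¹) U (le_comap V hU _) h1 hpure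
  rw [← psi_eq V hU] at h2 h3
  have h4 : (psi V hU σ⁻¹ : ℚ_[ℓ]) = (psi V hU σ : ℚ_[ℓ])⁻¹ := by
    rw [map_inv, Units.val_inv_eq_inv_val]
  rw [h4] at h2 h3
  refine ⟨IsAlgebraic.inv_iff.1 h2, ?_⟩
  rw [map_inv₀, norm_inv, inv_pow] at h3
  rw [zpow_neg, ← inv_eq_iff_eq_inv, h3, ← pow_mul, ← zpow_natCast]
  push_cast
  rfl

/-- The weight of the determinant at a place with controlled monodromy. -/
theorem mono_frob {U : Submodule ℚ_[ℓ] Y} (hU : ∀ g, ∀ x ∈ U, V.act g x ∈ U)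
    {E : Set (End ℚ_[ℓ] Y)} (hE : V.Coefficients E) (hUE : ∀ f ∈ E, ∀ x ∈ U, f x ∈ U)
    {e : ℕ} {v : HeightOneSpectrum (𝓞 F)} {Q : Ideal (𝓞 (AlgebraicClosure F))}
    {τ : Gal(AlgebraicClosure F/F)} (hm : V.Monodromy e v Q τ) (hv : ¬ Above v ℓ)
    (hyp : V.WeightMonodromy v Q τ ∨ V.Anisotropic E v Q τ)
    {σ : Gal(AlgebraicClosure F/F)} (hσ : IsFrobAt Q (q v) σ) (j : ℚ_[ℓ] →+* ℂ) :
    ∃ c : ℤ, 0 ≤ c ∧
      ‖j (psi V hU σ : ℚ_[ℓ])‖ ^ 2 = (q v : ℝ) ^ (c - (w * finrank ℚ_[ℓ] U : ℤ)) ∧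
      (c = 0 → ∀ m, U ⊓ LinearMap.range ((V.act τ - 1) ^ m) ≤ U.map ((V.act τ - 1) ^ m)) := by
  obtain ⟨u, hu, hloc, hφN⟩ := exists_loc hE hm hv
  have hpl := pureLevels_of hm hv hu hloc j hσ (hφN σ hσ) hyp
  have hT : ∀ x ∈ U, (V.act τ - 1) x ∈ U := by
    intro x hx
    rw [LinearMap.sub_apply, Module.End.one_apply]
    exact Submodule.sub_mem _ (hU τ x hx) hx
  have hNmem : (V.act τ - 1) * (1 + (V.act τ - 1) * u) ∈
      Algebra.adjoin ℚ_[ℓ] ({V.act τ - 1} : Set (End ℚ_[ℓ] Y)) :=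
    mul_mem (Algebra.self_mem_adjoin_singleton _ _) (add_mem (one_mem _)
      (mul_mem (Algebra.self_mem_adjoin_singleton _ _) hu))
  have hstb : Stb ((V.act τ - 1) * (1 + (V.act τ - 1) * u)) (ops V E v Q) U := by
    refine ⟨adjoin_stable hT hNmem, ?_⟩
    rintro g (⟨g, -, rfl⟩ | hg)
    · exact hU g
    · exact hUE g hg
  have hq0 : (q v : ℚ_[ℓ]) ≠ 0 := Nat.cast_ne_zero.2 (q_ne v)
  have hinj := act_injective V σ
  have hD : V.act σ ∈ ops V E v Q := Or.inl ⟨σ, Or.inr (Or.inl hσ), rfl⟩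
  obtain ⟨c, hc0, hc⟩ := hloc.z_integral hpl (two_le_q v) hinj hD (hφN σ hσ) hq0 hstb
  refine ⟨c, hc0, ?_, ?_⟩
  · rw [zF_eq (le_comap V hU σ), ← psi_eq V hU] at hc
    have hq1 : (1 : ℝ) < q v := by exact_mod_cast two_le_q v
    have hpos : 0 < ‖j (psi V hU σ : ℚ_[ℓ])‖ ^ 2 := by
      have : j (psi V hU σ : ℚ_[ℓ]) ≠ 0 := (map_ne_zero j).2 (Units.ne_zero _)
      positivity
    rw [← Real.rpow_logb (by linarith) hq1.ne' hpos, eq_sub_of_add_eq hc, ← Real.rpow_intCast]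
    congr 1
    push_cast
    ring
  · rintro rfl m
    have h1 := hloc.level_le hpl (two_le_q v) hinj hD (hφN σ hσ) hq0 hstb (by rw [hc]; simp)
    obtain ⟨d, hd⟩ := hloc.nil
    have h2 := pure_of_socle hd hstb.1 h1 m
    rw [range_eq hm.unipotent hu] at h2
    exact h2.trans (map_le hu hT m)

/-- **The weight and monodromy of the stable subspaces.** -/
theorem pure_global {e : ℕ} (he : 0 < e) {T : Set ℕ} (hT3 : 3 ≤ T.encard)
    (hT : ∀ p ∈ T, (p.Prime ∧ p ≠ ℓ ∧ UnramifiedIn F p) ∧ ∀ v, Above v p → V.Good v)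
    {p₁ : ℕ} (hp₁ : p₁.Prime ∧ p₁ ≠ ℓ ∧ UnramifiedIn F p₁)
    {E : Set (End ℚ_[ℓ] Y)} (hE : V.Coefficients E)
    (hall : ∀ v, Above v p₁ → V.Good v ∨ ∃ Q τ, V.Monodromy e v Q τ ∧
      (V.WeightMonodromy v Q τ ∨ V.Anisotropic E v Q τ))
    {U : Submodule ℚ_[ℓ] Y} (hU : ∀ g, ∀ x ∈ U, V.act g x ∈ U)
    (hUE : ∀ f ∈ E, ∀ x ∈ U, f x ∈ U) {v : HeightOneSpectrum (𝓞 F)} (hv : Above v p₁)
    {Q : Ideal (𝓞 (AlgebraicClosure F))} {τ : Gal(AlgebraicClosure F/F)}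
    (hm : V.Monodromy e v Q τ) (hyp : V.WeightMonodromy v Q τ ∨ V.Anisotropic E v Q τ) (m : ℕ) :
    U ⊓ LinearMap.range ((V.act τ - 1) ^ m) ≤ U.map ((V.act τ - 1) ^ m) := by
  classical
  obtain ⟨j, hj⟩ := exists_j ℓ ℚ_[ℓ] ℚ (algebraMap ℚ ℚ_[ℓ]) (algebraMap ℚ ℂ)
  have hℓv : ∀ p, p.Prime → p ≠ ℓ → ∀ v : HeightOneSpectrum (𝓞 F), Above v p → ¬ Above v ℓ :=
    fun p hp hne v hv => not_above_of_ne hp hℓ.out hne hv
  have hfr₀ : ∀ v : HeightOneSpectrum (𝓞 F), ∃ (Q : Ideal (OO F)) (σ : GF F), Q.IsMaximal ∧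
      cm Q = v.asIdeal ∧ FrobAt (Ideal.absNorm v.asIdeal) Q σ := fun v => frob_cm v
  choose Q₀ σ₀ hQ₀ hQ₀v hσ₀ using hfr₀
  have hover : ∀ v, PrimeOver (Q₀ v) v := fun v => ⟨(hQ₀ v).isPrime, hQ₀v v⟩
  set ψ : GF F →* ℚ_[ℓ]ˣ := psi V hU ^ e with hψ
  have hψc : Continuous ψ := by
    have h1 : Continuous fun g => (psi V hU g) ^ e := (continuous_psi V hU).pow e
    exact h1
  have hψv : ∀ g, (ψ g : ℚ_[ℓ]) = (psi V hU g : ℚ_[ℓ]) ^ e := fun g => by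
    rw [hψ, MonoidHom.pow_apply, Units.val_pow_eq_pow_val]
  set D : ℕ := finrank ℚ_[ℓ] U with hD
  -- all inertia groups
  have hin : ∀ p, p ∈ T ∨ p = p₁ → ∀ v : HeightOneSpectrum (𝓞 F), Above v p →
      ∀ Q : Ideal (OO F), Q.IsPrime → cm Q = v.asIdeal → ∀ g, InInertia Q g → ψ g = 1 := by
    intro p hp v' hv' Q hQ hQv
    have hgood : V.Good v' → ∀ g, InInertia Q g → ψ g = 1 := by
      intro hg g hgi
      rw [hψ, MonoidHom.pow_apply, good_inertia V hU hg ⟨hQ, hQv⟩ g hgi, one_pow]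
    rcases hp with hp | hp
    · exact hgood ((hT p hp).2 v' hv')
    · rw [hp] at hv'
      rcases hall v' hv' with hg | ⟨Q', τ', hm', -⟩
      · exact hgood hg
      · exact conj_inertia hm'.primeOver ⟨hQ, hQv⟩ ψ (mono_inertia V hU hm')
  have hgoodw : ∀ v : HeightOneSpectrum (𝓞 F), V.Good v →
      IsAlgebraic ℚ (ψ (σ₀ v) : ℚ_[ℓ]) ∧
      ‖j (ψ (σ₀ v) : ℚ_[ℓ])‖ ^ 2 = (Ideal.absNorm v.asIdeal : ℝ) ^ (-(e * (w * D) : ℤ)) := by
    intro v hg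
    obtain ⟨h1, h2⟩ := good_frob V hU hg (hover v) (hσ₀ v) j
    rw [hψv]
    refine ⟨h1.pow e, ?_⟩
    rw [map_pow, norm_pow, ← pow_mul, mul_comm e 2, pow_mul, h2, ← zpow_natCast, ← zpow_mul]
    unfold q
    congr 1
    ring
  have hmonow : ∀ v : HeightOneSpectrum (𝓞 F), Above v p₁ → ∀ Q τ, V.Monodromy e v Q τ →
      (V.WeightMonodromy v Q τ ∨ V.Anisotropic E v Q τ) → ∃ c : ℤ, 0 ≤ c ∧
      ‖j (ψ (σ₀ v) : ℚ_[ℓ])‖ ^ 2 = (Ideal.absNorm v.asIdeal : ℝ) ^ (e * c - (e * (w * D) : ℤ)) ∧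
      (c = 0 → ∀ m, U ⊓ LinearMap.range ((V.act τ - 1) ^ m) ≤ U.map ((V.act τ - 1) ^ m)) := by
    intro v hv Q τ hm hyp
    obtain ⟨φ, hφ⟩ := exists_frobAt hm.primeOver
    obtain ⟨c, hc0, hc1, hc2⟩ := mono_frob V hU hE hUE hm (hℓv p₁ hp₁.1 hp₁.2.1 v hv) hyp hφ j
    refine ⟨c, hc0, ?_, hc2⟩
    have h1 : ψ φ = ψ (σ₀ v) := frob_value ψ v (hin p₁ (Or.inr rfl) v hv) (hQ₀ v).isPrime
      hm.primeOver.1 (hQ₀v v) hm.primeOver.2 (hσ₀ v) hφ
    rw [← h1, hψv, map_pow, norm_pow, ← pow_mul, mul_comm e 2, pow_mul, hc1, ← zpow_natCast,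
      ← zpow_mul]
    unfold q
    congr 1
    ring
  have hex : ∀ v : HeightOneSpectrum (𝓞 F), Above v p₁ → ∃ b : ℤ, (-(e * (w * D) : ℤ)) ≤ b ∧
      ‖j (ψ (σ₀ v) : ℚ_[ℓ])‖ ^ 2 = (Ideal.absNorm v.asIdeal : ℝ) ^ b := by
    intro v hv
    rcases hall v hv with hg | ⟨Q', τ', hm', hyp'⟩
    · exact ⟨_, le_rfl, (hgoodw v hg).2⟩
    · obtain ⟨c, hc0, hc1, -⟩ := hmonow v hv Q' τ' hm' hyp'
      refine ⟨_, ?_, hc1⟩
      have : (0 : ℤ) ≤ e * c := by positivity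
      linarith
  choose! b hb1 hb2 using hex
  have key := two_weights ψ hψc T hT3 (fun p hp => (hT p hp).1) hp₁ (fun v => ψ (σ₀ v)) (by
    intro p hp v hv Q hQ hQv
    exact ⟨hin p hp v hv Q hQ hQv, fun φ hφ => frob_value ψ v (hin p hp v hv) (hQ₀ v).isPrime hQ
      (hQ₀v v) hQv (hσ₀ v) hφ⟩)
    (fun p hp v hv => (hgoodw v ((hT p hp).2 v hv)).1) j (-(e * (w * D) : ℤ))
    (fun p hp v hv => (hgoodw v ((hT p hp).2 v hv)).2) b hb2 hb1 v hv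
  obtain ⟨c, hc0, hc1, hc2⟩ := hmonow v hv Q τ hm hyp
  have h1 := hb2 v hv
  rw [hc1, key] at h1
  have hq1 : (1 : ℝ) < (Ideal.absNorm v.asIdeal : ℝ) := by
    have := two_le_q v
    unfold q at this
    exact_mod_cast this
  have h2 := zpow_right_injective₀ (by linarith) hq1.ne' h1
  have h3 : (e : ℤ) * c = 0 := by linarith
  have h4 : (e : ℤ) ≠ 0 := by exact_mod_cast he.ne'
  exact hc2 ((mul_eq_zero.1 h3).resolve_left h4) m

end Run7.h293.LM
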